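import Mathlib
import Pool.Agent.Lib.MP_64d474_lc.Op.Stmts

/-!
# An explicit test for the noncommutative rank: definitions and module statements

Paper proofs: team-store `sdit_nc_blueprint.md`.  A single explicit tuple `T` of integer matrices of
size `d` (quasi-polynomial in the size `n` and the number `m` of variables) such that
`rank (∑ T_k ⊗ B_k) > (n - 1) d` for every family `B` without shrunk subspace.
-/

open Matrix Module

namespace Pool.Agent.Lib.MP_64d474_lc.Nc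

open Pool.Agent.Lib.MP_64d474_lc.Op (fro sgn)

section Defs

variable {F V W κ : Type*} [Field F] [AddCommGroup V] [Module F V] [AddCommGroup W] [Module F W]

/-- the space spanned by the images of `U` under the maps `B k` -/
def img (B : κ → V →ₗ[F] W) (U : Submodule F V) : Submodule F W := ⨆ k, U.map (B k)

/-- no subspace is mapped to a space of smaller dimension -/
def Nsh (B : κ → V →ₗ[F] W) : Prop :=
  ∀ U : Submodule F V, finrank F U ≤ finrank F (img B U)

/-- the functions `J → V` with values in `U` -/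
def pw (J : Type*) (U : Submodule F V) : Submodule F (J → V) := Submodule.pi Set.univ fun _ => U

/-- `∑ T_k ⊗ B_k`: the map `x ↦ (∑_k ∑_j T_k(i,j) B_k x_j)_i` -/
def ev {J : Type*} [Fintype κ] [Fintype J] (B : κ → V →ₗ[F] W) (T : κ → Matrix J J F) :
    (J → V) →ₗ[F] (J → W) :=
  LinearMap.pi fun i => ∑ k, ∑ j, T k i j • (B k ∘ₗ LinearMap.proj j)

/-- the action `x ↦ (∑_j M(i,j) x_j)_i` of a matrix on the functions `J → V` -/
def act {J : Type*} [Fintype J] (M : Matrix J J F) : (J → V) →ₗ[F] (J → V) :=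
  LinearMap.pi fun i => ∑ j, M i j • LinearMap.proj j

end Defs

/-- second and fourth moments of signs, for an arbitrary finite index type -/
def Mom {Ω κ : Type} [Fintype Ω] [DecidableEq κ] (a : Ω → κ → ℝ) : Prop :=
  (∀ i j, ∑ ω, a ω i * a ω j = if i = j then (Fintype.card Ω : ℝ) else 0) ∧
  ∀ i j k l, ∑ ω, a ω i * a ω j * (a ω k * a ω l) =
    (Fintype.card Ω : ℝ) * ((if i = j ∧ k = l then 1 else 0) + (if i = k ∧ j = l then 1 else 0) +
      (if i = l ∧ j = k then 1 else 0) - 2 * (if i = j ∧ j = k ∧ k = l then 1 else 0))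

/-- the sign vectors, for an arbitrary index type -/
def svec {K κ : Type} [Field K] {l : ℕ} (φ : K → Fin l → ZMod 2) (α : κ → K)
    (ω : (Fin l → ZMod 2) × (Fin l → ZMod 2)) : κ → ℤ :=
  fun k => sgn (ω.1 ⬝ᵥ φ (α k) + ω.2 ⬝ᵥ φ (α k ^ 3))

/-- NC-MOM -/
def StMom : Prop :=
  ∀ (K κ : Type) [Field K] [CharP K 2] [Fintype κ] [DecidableEq κ] (l : ℕ)
    (φ : K → Fin l → ZMod 2) (α : κ → K), (∀ x y, φ (x + y) = φ x + φ y) →
    Function.Injective φ → Function.Injective α →
      Mom fun (ω : (Fin l → ZMod 2) × (Fin l → ZMod 2)) k => (svec φ α ω k : ℝ)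

/-- NC-COMP: compression of a family of linear maps to a square family without shrunk subspace -/
def StComp.{u} : Prop :=
  ∀ (F : Type u) [Field F] [Infinite F] (κ : Type) [Fintype κ] (E E' : Type u) [AddCommGroup E]
    [Module F E] [FiniteDimensional F E] [AddCommGroup E'] [Module F E'] [FiniteDimensional F E']
    (C : κ → E →ₗ[F] E'), ∃ (U : Submodule F E) (r : ℕ) (L : E' →ₗ[F] (Fin r → F))
      (R : (Fin r → F) →ₗ[F] E),
      finrank F E + finrank F (img C U) ≤ finrank F U + r ∧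
      Nsh fun k => L ∘ₗ C k ∘ₗ R

/-- NC-SCALE: operator scaling for families indexed by a finite type -/
def StScale : Prop :=
  ∀ (κ : Type) [Fintype κ] (N : ℕ) (C : κ → Matrix (Fin N) (Fin N) ℂ), 0 < N →
    (Nsh fun k => (C k).mulVecLin) → ∀ ε : ℝ, 0 < ε →
      ∃ S T : Matrix (Fin N) (Fin N) ℂ, 0 < ∑ k, fro (S * C k * T) ∧
        N * fro (∑ k, (S * C k * T) * (S * C k * T)ᴴ) ≤ (1 + ε) * (∑ k, fro (S * C k * T)) ^ 2 ∧
        N * fro (∑ k, (S * C k * T)ᴴ * (S * C k * T)) ≤ (1 + ε) * (∑ k, fro (S * C k * T)) ^ 2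

/-- NC-AVG: signs with the moments of independent signs reach on average one third of the
noncommutative rank -/
def StAvg : Prop :=
  ∀ (κ Ω : Type) [Fintype κ] [DecidableEq κ] [Fintype Ω] [Nonempty Ω] (a : Ω → κ → ℝ), Mom a →
    ∀ (E E' : Type) [AddCommGroup E] [Module ℂ E] [FiniteDimensional ℂ E] [AddCommGroup E']
      [Module ℂ E'] [FiniteDimensional ℂ E'] (C : κ → E →ₗ[ℂ] E'), ∃ U : Submodule ℂ E,
      Fintype.card Ω * (finrank ℂ E + finrank ℂ (img C U)) ≤ Fintype.card Ω * finrank ℂ U +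
        3 * ∑ ω, finrank ℂ (LinearMap.range (∑ k, (a ω k : ℂ) • C k))

/-- the vectors `v s` have bias at most `δ` -/
def Bias {S : Type} [Fintype S] {t : ℕ} (v : S → Fin t → ZMod 2) (δ : ℝ) : Prop :=
  ∀ a : Fin t → ZMod 2, a ≠ 0 → |((∑ s, sgn (a ⬝ᵥ v s) : ℤ) : ℝ)| ≤ δ * Fintype.card S

/-- the vectors `(u · φ (β ^ i))_i` -/
def bvec {K : Type} [Field K] {l : ℕ} (φ : K → Fin l → ZMod 2) (t : ℕ)
    (s : K × (Fin l → ZMod 2)) : Fin t → ZMod 2 := fun i => s.2 ⬝ᵥ φ (s.1 ^ (i : ℕ))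

/-- NC-BIAS -/
def StBias : Prop :=
  ∀ (K : Type) [Field K] [CharP K 2] [Fintype K] (l : ℕ) (φ : K → Fin l → ZMod 2),
    (∀ x y, φ (x + y) = φ x + φ y) → Function.Injective φ → ∀ t : ℕ,
      Bias (bvec φ t) (t / Fintype.card K)

/-- the signed translation with parameters `σ, τ` -/
def wop {t : ℕ} (σ τ : Fin t → ZMod 2) : Matrix (Fin t → ZMod 2) (Fin t → ZMod 2) ℤ :=
  fun x y => if y = x + τ then sgn (σ ⬝ᵥ x) else 0

/-- a matrix on `J`, acting on `J × Fin n` -/
noncomputable def lif {J : Type} {n : ℕ} (M : Matrix J J ℂ) :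
    Matrix (J × Fin n) (J × Fin n) ℂ :=
  Matrix.kroneckerMap (· * ·) M (1 : Matrix (Fin n) (Fin n) ℂ)

/-- the partial trace over `J` -/
noncomputable def ptr {J : Type} [Fintype J] {n : ℕ} (P : Matrix (J × Fin n) (J × Fin n) ℂ) :
    Matrix (Fin n) (Fin n) ℂ := fun a b => ∑ j, P (j, a) (j, b)

/-- the matrix `L (M ⊗ 1) R` -/
noncomputable def btw {J : Type} [Fintype J] {n N : ℕ} (L : Matrix (Fin N) (J × Fin n) ℂ)
    (M : Matrix J J ℂ) (R : Matrix (J × Fin n) (Fin N) ℂ) : Matrix (Fin N) (Fin N) ℂ :=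
  L * (lif M : Matrix (J × Fin n) (J × Fin n) ℂ) * R

/-- the complex matrix of a signed translation -/
noncomputable def cwop {t : ℕ} (σ τ : Fin t → ZMod 2) :
    Matrix (Fin t → ZMod 2) (Fin t → ZMod 2) ℂ := (wop σ τ).map fun z : ℤ => (z : ℂ)

/-- NC-ERR: the average over the signed translations is close to the complete average -/
def StErr : Prop :=
  ∀ (t n : ℕ) (S : Type) [Fintype S] (v : S → Fin t → ZMod 2) (δ : ℝ), Bias v δ → 0 ≤ δ →
    ∀ P Q : Matrix ((Fin t → ZMod 2) × Fin n) ((Fin t → ZMod 2) × Fin n) ℂ,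
      |(∑ s, ∑ s', (Q * (lif (cwop (v s) (v s')) * P * (lif (cwop (v s) (v s')))ᴴ)).trace.re) -
        (Fintype.card S : ℝ) ^ 2 / 2 ^ t * (ptr Q * ptr P).trace.re| ≤
      2 * δ * (Fintype.card S : ℝ) ^ 2 * (Real.sqrt (fro Q) * Real.sqrt (fro P))

/-- NC-CORE: if all signed translations vanish between `R` and `L` and the family of all matrix
units has no shrunk subspace, then the size is small -/
def StCore : Prop :=
  ∀ (t n N : ℕ) (S : Type) [Fintype S] [Nonempty S] (v : S → Fin t → ZMod 2) (δ : ℝ), Bias v δ →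
    0 ≤ δ →
    ∀ (L : Matrix (Fin N) ((Fin t → ZMod 2) × Fin n) ℂ)
      (R : Matrix ((Fin t → ZMod 2) × Fin n) (Fin N) ℂ),
      (Nsh fun p : (Fin t → ZMod 2) × (Fin t → ZMod 2) =>
        (btw L (Matrix.single p.1 p.2 1) R).mulVecLin) →
      (∀ s s', btw L (cwop (v s) (v s')) R = 0) →
      (N : ℝ) ≤ 2 * δ * n * 2 ^ t

/-- NC-MIX: the signed translations mix the coordinates of every subspace up to a small
codimension -/
def StMix : Prop :=
  ∀ (t : ℕ) (S : Type) [Fintype S] [Nonempty S] (v : S → Fin t → ZMod 2) (δ : ℝ), Bias v δ →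
    0 ≤ δ →
    ∀ (V : Type) [AddCommGroup V] [Module ℂ V] [FiniteDimensional ℂ V]
      (U Y : Submodule ℂ ((Fin t → ZMod 2) → V)),
      (∀ s s', U.map (act (cwop (v s) (v s'))) ≤ Y) →
      ∃ V' : Submodule ℂ V,
        (finrank ℂ U + 2 ^ t * finrank ℂ V' : ℝ) ≤
          finrank ℂ (U ⊓ pw (Fin t → ZMod 2) V' : Submodule ℂ ((Fin t → ZMod 2) → V)) +
          finrank ℂ (Y ⊓ pw (Fin t → ZMod 2) V' : Submodule ℂ ((Fin t → ZMod 2) → V)) +
          2 * δ * finrank ℂ V * 2 ^ t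

end Pool.Agent.Lib.MP_64d474_lc.Nc
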