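import Mathlib
import Pool.Agent.Lib.MP_64d474_lc.Nc.Stmts
import Pool.Agent.Lib.MP_64d474_lc.Op.S1
import Pool.Agent.Lib.MP_64d474_lc.Op.Base

/-!
Signs with the moments of independent signs reach on average one third of the noncommutative rank.
-/

open Matrix Module

namespace Pool.Agent.Lib.MP_64d474_lc.Nc

open Pool.Agent.Lib.MP_64d474_lc.Op (fro lft rgt tq Moments fro_comb fro_comb2 fro_eq_trace
  moment_sum sum_tq_cross fro_nonneg stRank le_of_forall_eps rank_mul_mul_le sum_smul_mul)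

/-- the moments along an equivalence -/
theorem mom_reindex {Ω κ : Type} [Fintype Ω] [DecidableEq κ] {a : Ω → κ → ℝ} (ha : Mom a) {m : ℕ}
    (e : Fin m ≃ κ) : Moments fun ω k => a ω (e k) := by
  refine ⟨fun i j => ?_, fun i j k l => ?_⟩
  · rw [ha.1 (e i) (e j)]
    simp only [e.injective.eq_iff]
  · rw [ha.2 (e i) (e j) (e k) (e l)]
    simp only [e.injective.eq_iff]

/-- the fourth moment method for the average of the ranks -/
theorem moment_avg {m n : ℕ} {Ω : Type} [Fintype Ω] [Nonempty Ω] (a : Ω → Fin m → ℝ)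
    (ha : Moments a) (A : Fin m → Matrix (Fin n) (Fin n) ℂ) :
    (Fintype.card Ω : ℝ) * (∑ k, fro (A k)) ^ 2 ≤
      (∑ ω, ((∑ k, (a ω k : ℂ) • A k).rank : ℝ)) * (fro (lft A) + 2 * fro (rgt A)) := by
  obtain ⟨h2, h4⟩ := ha
  have hN : (0 : ℝ) < Fintype.card Ω := by exact_mod_cast Fintype.card_pos
  set N : ℝ := (Fintype.card Ω : ℝ) with hNdef
  set M : Ω → Matrix (Fin n) (Fin n) ℂ := fun ω => ∑ k, (a ω k : ℂ) • A k with hM
  set Q : ℝ := fro (lft A) + 2 * fro (rgt A) with hQ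
  have e2 : ∑ ω, fro (M ω) = N * ∑ k, fro (A k) := by
    have e : ∀ ω, fro (M ω) = ∑ i, ∑ j, a ω i * a ω j * (A i * (A j)ᴴ).trace.re := fun ω =>
      fro_comb A (a ω)
    simp only [e]
    rw [Finset.sum_comm]
    rw [Finset.mul_sum]
    refine Finset.sum_congr rfl fun i _ => ?_
    rw [Finset.sum_comm, Finset.sum_eq_single i]
    · rw [← Finset.sum_mul, h2, if_pos rfl, fro_eq_trace]
    · intro j _ hj
      rw [← Finset.sum_mul, h2, if_neg hj.symm, zero_mul]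
    · simp
  have e4 : ∑ ω, fro (M ω * (M ω)ᴴ) ≤ N * Q := by
    have e : ∀ ω, fro (M ω * (M ω)ᴴ) =
        ∑ i, ∑ j, ∑ k, ∑ l, a ω i * a ω j * (a ω k * a ω l) * tq A i j k l := fun ω =>
      fro_comb2 A (a ω)
    simp only [e]
    have e5 : ∑ ω, ∑ i, ∑ j, ∑ k, ∑ l, a ω i * a ω j * (a ω k * a ω l) * tq A i j k l =
        ∑ i, ∑ j, ∑ k, ∑ l, (∑ ω, a ω i * a ω j * (a ω k * a ω l)) * tq A i j k l := by
      rw [Finset.sum_comm]
      refine Finset.sum_congr rfl fun i _ => ?_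
      rw [Finset.sum_comm]
      refine Finset.sum_congr rfl fun j _ => ?_
      rw [Finset.sum_comm]
      refine Finset.sum_congr rfl fun k _ => ?_
      rw [Finset.sum_comm]
      refine Finset.sum_congr rfl fun l _ => ?_
      rw [Finset.sum_mul]
    rw [e5]
    refine (moment_sum A hN.le _ h4).trans (mul_le_mul_of_nonneg_left ?_ hN.le)
    have h1 := sum_tq_cross A
    linarith
  have h5 : (∑ ω, fro (M ω)) ^ 2 ≤
      (∑ ω, ((M ω).rank : ℝ)) * ∑ ω, fro (M ω * (M ω)ᴴ) :=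
    Finset.sum_sq_le_sum_mul_sum_of_sq_le_mul _ (fun ω _ => Nat.cast_nonneg _)
      (fun ω _ => fro_nonneg _) (fun ω _ => stRank n (M ω))
  rw [e2] at h5
  have hR : (0 : ℝ) ≤ ∑ ω, ((M ω).rank : ℝ) := Finset.sum_nonneg fun _ _ => Nat.cast_nonneg _
  have h7 : (N * ∑ k, fro (A k)) ^ 2 ≤ (∑ ω, ((M ω).rank : ℝ)) * (N * Q) :=
    h5.trans (mul_le_mul_of_nonneg_left e4 hR)
  have h8 : N * (N * (∑ k, fro (A k)) ^ 2) ≤ N * ((∑ ω, ((M ω).rank : ℝ)) * Q) := by
    nlinarith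
  exact le_of_mul_le_mul_left h8 hN

/-- the square case -/
theorem third_avg (hS : StScale) {κ Ω : Type} [Fintype κ] [DecidableEq κ] [Fintype Ω] [Nonempty Ω]
    (a : Ω → κ → ℝ) (ha : Mom a) (n : ℕ) (A : κ → Matrix (Fin n) (Fin n) ℂ)
    (hA : Nsh fun k => (A k).mulVecLin) :
    Fintype.card Ω * n ≤ 3 * ∑ ω, (∑ k, (a ω k : ℂ) • A k).rank := by
  rcases Nat.eq_zero_or_pos n with rfl | hn
  · rw [Nat.mul_zero]
    exact Nat.zero_le _
  refine le_of_forall_eps fun ε hε => ?_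
  obtain ⟨S, T, hs, hl, hr⟩ := hS κ n A hn hA ε hε
  set s := ∑ k, fro (S * A k * T) with hsdef
  have e : Fin (Fintype.card κ) ≃ κ := (Fintype.equivFin κ).symm
  have h2 := moment_avg _ (mom_reindex ha e) (fun k => S * A (e k) * T)
  have i1 : ∑ k, fro (S * A (e k) * T) = s := e.sum_comp fun k => fro (S * A k * T)
  have i2 : lft (fun k => S * A (e k) * T) = ∑ k, (S * A k * T) * (S * A k * T)ᴴ :=
    e.sum_comp fun k => (S * A k * T) * (S * A k * T)ᴴ
  have i3 : rgt (fun k => S * A (e k) * T) = ∑ k, (S * A k * T)ᴴ * (S * A k * T) :=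
    e.sum_comp fun k => (S * A k * T)ᴴ * (S * A k * T)
  rw [i1, i2, i3] at h2
  have h4 : (∑ ω, ((∑ k, (a ω (e k) : ℂ) • (S * A (e k) * T)).rank : ℝ)) ≤
      ((∑ ω, (∑ k, (a ω k : ℂ) • A k).rank : ℕ) : ℝ) := by
    rw [Nat.cast_sum]
    refine Finset.sum_le_sum fun ω _ => ?_
    have h5 : ∑ k, (a ω (e k) : ℂ) • (S * A (e k) * T) = S * (∑ k, (a ω k : ℂ) • A k) * T := by
      rw [e.sum_comp fun k => (a ω k : ℂ) • (S * A k * T), Matrix.mul_sum, Matrix.sum_mul]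
      refine Finset.sum_congr rfl fun k _ => ?_
      rw [Matrix.mul_smul, Matrix.smul_mul]
    rw [h5]
    exact_mod_cast rank_mul_mul_le S T _
  set R := ∑ ω, (∑ k, (a ω k : ℂ) • A k).rank with hRdef
  have hR0 : (0 : ℝ) ≤ R := Nat.cast_nonneg R
  have hn0 : (0 : ℝ) < n := by exact_mod_cast hn
  set X := fro (∑ k, (S * A k * T) * (S * A k * T)ᴴ) with hX
  set Y := fro (∑ k, (S * A k * T)ᴴ * (S * A k * T)) with hY
  have hX0 : 0 ≤ X := fro_nonneg _
  have hY0 : 0 ≤ Y := fro_nonneg _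
  have h6 : (Fintype.card Ω : ℝ) * s ^ 2 ≤ R * (X + 2 * Y) :=
    h2.trans (mul_le_mul_of_nonneg_right h4 (by linarith))
  clear_value s X Y R
  have h3 : ((Fintype.card Ω * n : ℕ) : ℝ) * s ^ 2 ≤ ((3 * R : ℕ) : ℝ) * (1 + ε) * s ^ 2 := by
    calc ((Fintype.card Ω * n : ℕ) : ℝ) * s ^ 2 = n * ((Fintype.card Ω : ℝ) * s ^ 2) := by
          push_cast
          ring
      _ ≤ n * (R * (X + 2 * Y)) := mul_le_mul_of_nonneg_left h6 hn0.le
      _ = R * (n * X + 2 * (n * Y)) := by ring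
      _ ≤ R * ((1 + ε) * s ^ 2 + 2 * ((1 + ε) * s ^ 2)) := by
          refine mul_le_mul_of_nonneg_left ?_ hR0
          linarith
      _ = ((3 * R : ℕ) : ℝ) * (1 + ε) * s ^ 2 := by
          push_cast
          ring
  exact le_of_mul_le_mul_right h3 (pow_pos hs 2)

theorem stAvg (hC : StComp.{0}) (hS : StScale) : StAvg := by
  intro κ Ω _ _ _ _ a ha E E' _ _ _ _ _ _ C
  obtain ⟨U, r, L, R, hU, hN⟩ := hC ℂ κ E E' C
  refine ⟨U, ?_⟩
  set A : κ → Matrix (Fin r) (Fin r) ℂ := fun k => LinearMap.toMatrix' (L ∘ₗ C k ∘ₗ R) with hA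
  have hlin : ∀ k, (A k).mulVecLin = L ∘ₗ C k ∘ₗ R := by
    intro k
    rw [hA, ← Matrix.toLin'_apply']
    exact Matrix.toLin'_toMatrix' _
  have hN' : Nsh fun k => (A k).mulVecLin := by
    simp only [hlin]
    exact hN
  have h1 := third_avg hS a ha r A hN'
  have h2 : ∀ ω, (∑ k, (a ω k : ℂ) • A k).rank ≤
      finrank ℂ (LinearMap.range (∑ k, (a ω k : ℂ) • C k)) := by
    intro ω
    have h3 : (∑ k, (a ω k : ℂ) • A k).mulVecLin = L ∘ₗ (∑ k, (a ω k : ℂ) • C k) ∘ₗ R := by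
      have h4 : (∑ k, (a ω k : ℂ) • A k) =
          LinearMap.toMatrix' (L ∘ₗ (∑ k, (a ω k : ℂ) • C k) ∘ₗ R) := by
        have h5 : L ∘ₗ (∑ k, (a ω k : ℂ) • C k) ∘ₗ R =
            ∑ k, (a ω k : ℂ) • (L ∘ₗ C k ∘ₗ R) := by
          ext x
          simp [map_sum]
        rw [h5, map_sum]
        refine Finset.sum_congr rfl fun k _ => ?_
        rw [map_smul]
      rw [h4, ← Matrix.toLin'_apply']
      exact Matrix.toLin'_toMatrix' _
    rw [Matrix.rank, h3]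
    have h6 : LinearMap.range (L ∘ₗ (∑ k, (a ω k : ℂ) • C k) ∘ₗ R) ≤
        (LinearMap.range (∑ k, (a ω k : ℂ) • C k)).map L := by
      rintro _ ⟨x, rfl⟩
      exact ⟨_, ⟨R x, rfl⟩, rfl⟩
    exact (Submodule.finrank_mono h6).trans (Submodule.finrank_map_le _ _)
  have h7 : ∑ ω, (∑ k, (a ω k : ℂ) • A k).rank ≤
      ∑ ω, finrank ℂ (LinearMap.range (∑ k, (a ω k : ℂ) • C k)) :=
    Finset.sum_le_sum fun ω _ => h2 ω
  calc Fintype.card Ω * (finrank ℂ E + finrank ℂ (img C U))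
      ≤ Fintype.card Ω * (finrank ℂ U + r) := Nat.mul_le_mul_left _ hU
    _ = Fintype.card Ω * finrank ℂ U + Fintype.card Ω * r := Nat.mul_add _ _ _
    _ ≤ Fintype.card Ω * finrank ℂ U +
        3 * ∑ ω, finrank ℂ (LinearMap.range (∑ k, (a ω k : ℂ) • C k)) := by
      refine Nat.add_le_add_left ?_ _
      exact h1.trans (Nat.mul_le_mul_left _ h7)

end Pool.Agent.Lib.MP_64d474_lc.Nc
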