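import Pool.Agent.Lib.MP_64d474_lc.Nc.Stmts

set_option autoImplicit false

/-! NC-BIAS: the powering construction of a small-bias set. -/

open Matrix Module

namespace Pool.Agent.Lib.MP_64d474_lc.Nc

open Pool.Agent.Lib.MP_64d474_lc.Op (fro sgn)

namespace BiasAux

theorem sgn_add_one (a : ZMod 2) : sgn (a + 1) = - sgn a := by
  revert a
  decide

theorem zmod2 (a : ZMod 2) (h : a ≠ 0) : a = 1 := by
  revert a
  decide

theorem sum_sgn {l : ℕ} (w : Fin l → ZMod 2) :
    ∑ u : Fin l → ZMod 2, sgn (u ⬝ᵥ w) = if w = 0 then 2 ^ l else 0 := by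
  split_ifs with h
  · rw [h]
    have : sgn 0 = 1 := rfl
    simp [this]
  · obtain ⟨i, hi⟩ := Function.ne_iff.1 h
    have hc : (Pi.single i 1 : Fin l → ZMod 2) ⬝ᵥ w = 1 := by
      simp [zmod2 (w i) hi]
    have h1 : ∑ u : Fin l → ZMod 2, sgn (u ⬝ᵥ w) = ∑ u : Fin l → ZMod 2, -sgn (u ⬝ᵥ w) := by
      rw [← Equiv.sum_comp (Equiv.addRight (Pi.single i 1 : Fin l → ZMod 2))]
      refine Finset.sum_congr rfl fun u _ => ?_
      rw [Equiv.coe_addRight, add_dotProduct, hc, sgn_add_one]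
    rw [Finset.sum_neg_distrib] at h1
    linarith

theorem card_roots {K : Type} [Field K] [Fintype K] [DecidableEq K] {t : ℕ} (S : Finset (Fin t))
    (hS : S.Nonempty) :
    (Finset.univ.filter fun β : K => ∑ i ∈ S, β ^ (i : ℕ) = 0).card ≤ t := by
  classical
  set P : Polynomial K := ∑ i ∈ S, Polynomial.X ^ (i : ℕ) with hP
  have hP0 : P ≠ 0 := by
    obtain ⟨i, hi⟩ := hS
    intro h
    have h1 := congrArg (fun p => Polynomial.coeff p (i : ℕ)) h
    simp only [hP, Polynomial.finsetSum_coeff, Polynomial.coeff_X_pow, Polynomial.coeff_zero] at h1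
    rw [Finset.sum_eq_single i] at h1
    · simp at h1
    · intro j _ hj
      rw [if_neg]
      intro h2
      exact hj (Fin.ext h2.symm)
    · intro h2
      exact absurd hi h2
  have hdeg : P.natDegree ≤ t := by
    refine Polynomial.natDegree_sum_le_of_forall_le _ _ fun i _ => ?_
    rw [Polynomial.natDegree_X_pow]
    exact i.2.le
  have hsub : (Finset.univ.filter fun β : K => ∑ i ∈ S, β ^ (i : ℕ) = 0) ⊆ P.roots.toFinset := by
    intro β hβ
    have h1 := (Finset.mem_filter.mp hβ).2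
    rw [Multiset.mem_toFinset, Polynomial.mem_roots hP0, Polynomial.IsRoot.def, hP,
      Polynomial.eval_finsetSum]
    simpa using h1
  calc _ ≤ P.roots.toFinset.card := Finset.card_le_card hsub
    _ ≤ P.roots.card := Multiset.toFinset_card_le _
    _ ≤ P.natDegree := P.card_roots'
    _ ≤ t := hdeg

end BiasAux

open BiasAux in
theorem stBias : StBias := by
  classical
  intro K _ _ _ l φ ha hi t a hane
  set S : Finset (Fin t) := Finset.univ.filter fun i => a i ≠ 0 with hS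
  have hSne : S.Nonempty := by
    obtain ⟨i, hi⟩ := Function.ne_iff.1 hane
    exact ⟨i, Finset.mem_filter.mpr ⟨Finset.mem_univ _, hi⟩⟩
  set Φ : K →+ (Fin l → ZMod 2) := AddMonoidHom.mk' φ ha with hΦ
  have hdot : ∀ s : K × (Fin l → ZMod 2),
      a ⬝ᵥ bvec φ t s = s.2 ⬝ᵥ φ (∑ i ∈ S, s.1 ^ (i : ℕ)) := by
    intro s
    have h1 : φ (∑ i ∈ S, s.1 ^ (i : ℕ)) = ∑ i ∈ S, φ (s.1 ^ (i : ℕ)) :=
      map_sum Φ (fun i : Fin t => s.1 ^ (i : ℕ)) S
    rw [h1, dotProduct_sum]
    unfold dotProduct bvec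
    rw [hS, Finset.sum_filter]
    refine Finset.sum_congr rfl fun i _ => ?_
    split_ifs with h
    · rw [zmod2 (a i) h, one_mul]
      rfl
    · push Not at h
      rw [h, zero_mul]
  have h0 : ∀ x : K, φ x = 0 ↔ x = 0 := by
    intro x
    have hz : φ 0 = 0 := map_zero Φ
    constructor
    · intro h
      exact hi (h.trans hz.symm)
    · intro h
      rw [h, hz]
  have hsum : ∑ s : K × (Fin l → ZMod 2), sgn (a ⬝ᵥ bvec φ t s) =
      (2 : ℤ) ^ l * (Finset.univ.filter fun β : K => ∑ i ∈ S, β ^ (i : ℕ) = 0).card := by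
    rw [Fintype.sum_prod_type]
    have h1 : ∀ β : K, ∑ u : Fin l → ZMod 2, sgn (a ⬝ᵥ bvec φ t (β, u)) =
        if ∑ i ∈ S, β ^ (i : ℕ) = 0 then (2 : ℤ) ^ l else 0 := by
      intro β
      have h2 : ∀ u : Fin l → ZMod 2, sgn (a ⬝ᵥ bvec φ t (β, u)) =
          sgn (u ⬝ᵥ φ (∑ i ∈ S, β ^ (i : ℕ))) := fun u => by rw [hdot]
      simp only [h2]
      rw [sum_sgn]
      simp only [h0]
    simp only [h1]
    rw [← Finset.sum_filter, Finset.sum_const, nsmul_eq_mul, mul_comm]
  rw [hsum]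
  have hc := card_roots (K := K) S hSne
  have hK : (0 : ℝ) < Fintype.card K := by
    exact_mod_cast Fintype.card_pos
  rw [abs_of_nonneg (by positivity), Fintype.card_prod, Fintype.card_fun, ZMod.card,
    Fintype.card_fin]
  push_cast
  have e : (t : ℝ) / (Fintype.card K) * ((Fintype.card K : ℝ) * 2 ^ l) = 2 ^ l * t := by
    field_simp
  rw [e]
  refine mul_le_mul_of_nonneg_left ?_ (by positivity)
  exact_mod_cast hc

end Pool.Agent.Lib.MP_64d474_lc.Nc
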