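import Mathlib
import Pool.Agent.Lib.MP_64d474_lc.Nc.Stmts

/-!
The potential of a tuple of matrices: chains of subspaces.
-/

open Matrix Module

set_option linter.unusedSectionVars false

namespace Pool.Agent.Lib.MP_64d474_lc.Nc

section Basic

variable {F V W κ J : Type*} [Field F] [AddCommGroup V] [Module F V] [AddCommGroup W] [Module F W]

theorem mem_pw {U : Submodule F V} {x : J → V} : x ∈ pw J U ↔ ∀ j, x j ∈ U := by
  simp [pw, Submodule.mem_pi]

theorem pw_mono {U U' : Submodule F V} (h : U ≤ U') : pw J U ≤ pw J U' := fun _ hx =>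
  mem_pw.mpr fun j => h (mem_pw.mp hx j)

theorem pw_bot : pw J (⊥ : Submodule F V) = ⊥ := by
  rw [eq_bot_iff]
  intro x hx
  rw [Submodule.mem_bot]
  funext j
  exact (Submodule.mem_bot F).mp (mem_pw.mp hx j)

theorem pw_inf (U U' : Submodule F V) : pw J (U ⊓ U') = pw J U ⊓ pw J U' := by
  ext x
  simp only [Submodule.mem_inf, mem_pw, forall_and]

theorem pw_sup (U U' : Submodule F V) : pw J (U ⊔ U') = pw J U ⊔ pw J U' := by
  refine le_antisymm ?_ (sup_le (pw_mono le_sup_left) (pw_mono le_sup_right))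
  intro x hx
  have h : ∀ j, ∃ y ∈ U, ∃ z ∈ U', y + z = x j := fun j =>
    Submodule.mem_sup.mp (mem_pw.mp hx j)
  choose y hy z hz hyz using h
  exact Submodule.mem_sup.mpr ⟨y, mem_pw.mpr hy, z, mem_pw.mpr hz, funext hyz⟩

theorem img_mono (B : κ → V →ₗ[F] W) {U U' : Submodule F V} (h : U ≤ U') :
    img B U ≤ img B U' := iSup_mono fun _ => Submodule.map_mono h

theorem mem_img (B : κ → V →ₗ[F] W) {U : Submodule F V} (k : κ) {x : V} (hx : x ∈ U) :
    B k x ∈ img B U := Submodule.mem_iSup_of_mem k ⟨x, hx, rfl⟩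

theorem img_sup (B : κ → V →ₗ[F] W) (U U' : Submodule F V) :
    img B (U ⊔ U') = img B U ⊔ img B U' := by
  rw [img, img, img, ← iSup_sup_eq]
  exact iSup_congr fun k => Submodule.map_sup _ _ _

theorem img_bot (B : κ → V →ₗ[F] W) : img B ⊥ = ⊥ := by
  simp [img]

theorem img_le (B : κ → V →ₗ[F] W) {U : Submodule F V} {Z : Submodule F W}
    (h : ∀ k, ∀ x ∈ U, B k x ∈ Z) : img B U ≤ Z := by
  refine iSup_le fun k => ?_
  rintro _ ⟨x, hx, rfl⟩
  exact h k x hx

theorem ev_apply [Fintype κ] [Fintype J] (B : κ → V →ₗ[F] W) (T : κ → Matrix J J F) (x : J → V)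
    (i : J) : ev B T x i = ∑ k, ∑ j, T k i j • B k (x j) := by
  simp [ev, LinearMap.sum_apply]

theorem ev_mem [Fintype κ] [Fintype J] (B : κ → V →ₗ[F] W) (T : κ → Matrix J J F)
    {U : Submodule F V} {x : J → V} (hx : x ∈ pw J U) : ev B T x ∈ pw J (img B U) := by
  rw [mem_pw]
  intro i
  rw [ev_apply]
  exact Submodule.sum_mem _ fun k _ => Submodule.sum_mem _ fun j _ =>
    Submodule.smul_mem _ _ (mem_img B k (mem_pw.mp hx j))

theorem map_ev_le [Fintype κ] [Fintype J] (B : κ → V →ₗ[F] W) (T : κ → Matrix J J F)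
    (U : Submodule F V) : (pw J U).map (ev B T) ≤ pw J (img B U) := by
  rintro _ ⟨x, hx, rfl⟩
  exact ev_mem B T hx

/-- the dimension of a product of subspaces -/
theorem finrank_pi_sub {Ω : Type*} [Fintype Ω] {X : Ω → Type*} [∀ ω, AddCommGroup (X ω)]
    [∀ ω, Module F (X ω)] [∀ ω, FiniteDimensional F (X ω)] (p : ∀ ω, Submodule F (X ω)) :
    finrank F (Submodule.pi Set.univ p : Submodule F (∀ ω, X ω)) = ∑ ω, finrank F (p ω) := by
  let e : (Submodule.pi Set.univ p : Submodule F (∀ ω, X ω)) ≃ₗ[F] (∀ ω, p ω) :=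
    { toFun := fun x ω => ⟨x.1 ω, x.2 ω (Set.mem_univ ω)⟩
      invFun := fun y => ⟨fun ω => (y ω).1, fun ω _ => (y ω).2⟩
      map_add' := fun x y => rfl
      map_smul' := fun a x => rfl
      left_inv := fun x => rfl
      right_inv := fun y => rfl }
  rw [e.finrank_eq, Module.finrank_pi_fintype]

theorem finrank_pw [Fintype J] [FiniteDimensional F V] (U : Submodule F V) :
    finrank F (pw J U) = Fintype.card J * finrank F U := by
  rw [pw, finrank_pi_sub, Finset.sum_const, Finset.card_univ, smul_eq_mul]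

/-- the basic dimension formula -/
theorem finrank_map_sup {X Y : Type*} [AddCommGroup X] [Module F X] [FiniteDimensional F X]
    [AddCommGroup Y] [Module F Y] [FiniteDimensional F Y] (f : X →ₗ[F] Y) (U : Submodule F X)
    (Z : Submodule F Y) :
    finrank F (U.map f ⊔ Z : Submodule F Y) + finrank F (U ⊓ Z.comap f : Submodule F X) =
      finrank F U + finrank F Z := by
  have h1 := Submodule.finrank_sup_add_finrank_inf_eq (U.map f) Z
  -- `U.map f ⊓ Z` is the image of `U ⊓ Z.comap f`
  have h2 : (U ⊓ Z.comap f).map f = U.map f ⊓ Z := by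
    ext y
    constructor
    · rintro ⟨x, ⟨hx, hz⟩, rfl⟩
      exact ⟨⟨x, hx, rfl⟩, hz⟩
    · rintro ⟨⟨x, hx, rfl⟩, hz⟩
      exact ⟨x, ⟨hx, hz⟩, rfl⟩
  have h3 := LinearMap.finrank_range_add_finrank_ker (f.domRestrict U)
  have h4 := LinearMap.finrank_range_add_finrank_ker (f.domRestrict (U ⊓ Z.comap f))
  have h5 : ∀ S : Submodule F X, LinearMap.range (f.domRestrict S) = S.map f := fun S => by
    rw [LinearMap.range_domRestrict]
  have h6 : ∀ S : Submodule F X, finrank F (LinearMap.ker (f.domRestrict S)) =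
      finrank F (S ⊓ LinearMap.ker f : Submodule F X) := by
    intro S
    have e : (LinearMap.ker (f.domRestrict S)).map S.subtype = S ⊓ LinearMap.ker f := by
      rw [LinearMap.domRestrict, LinearMap.ker_comp, Submodule.map_comap_subtype]
    rw [← e]
    exact (Submodule.equivMapOfInjective S.subtype S.injective_subtype _).finrank_eq
  rw [h5, h6] at h3 h4
  have h7 : U ⊓ Z.comap f ⊓ LinearMap.ker f = U ⊓ LinearMap.ker f := by
    ext x
    simp only [Submodule.mem_inf, Submodule.mem_comap, LinearMap.mem_ker]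
    constructor
    · rintro ⟨⟨h1, h2⟩, h3⟩
      exact ⟨h1, h3⟩
    · rintro ⟨h1, h3⟩
      exact ⟨⟨h1, by rw [h3]; exact Z.zero_mem⟩, h3⟩
  rw [h7, h2] at h4
  omega

end Basic

section Gap

variable {F V W κ J : Type*} [Field F] [AddCommGroup V] [Module F V] [FiniteDimensional F V]
  [AddCommGroup W] [Module F W] [FiniteDimensional F W] [Fintype κ] [Fintype J]
  (B : κ → V →ₗ[F] W) (T : κ → Matrix J J F)

/-- `B(T) U^J + (B U')^J` -/
def tgt (U U' : Submodule F V) : Submodule F (J → W) :=
  (pw J U).map (ev B T) ⊔ pw J (img B U')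

/-- the elements of `U^J` that `B(T)` maps to `(B U')^J` -/
def dom (U U' : Submodule F V) : Submodule F (J → V) :=
  pw J U ⊓ (pw J (img B U')).comap (ev B T)

/-- the deficiency of `B(T)` on `U^J` modulo `(B U')^J` -/
noncomputable def gap (U U' : Submodule F V) : ℤ :=
  Fintype.card J * finrank F U - finrank F (tgt B T U U')

theorem finrank_dom (U U' : Submodule F V) :
    finrank F (tgt B T U U') + finrank F (dom B T U U') =
      Fintype.card J * finrank F U + Fintype.card J * finrank F (img B U') := by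
  have := finrank_map_sup (ev B T) (pw J U) (pw J (img B U'))
  rw [finrank_pw, finrank_pw] at this
  exact this

/-- the number `dim dom - dim (dom ∩ V'^J) + dim ((tgt + (B V')^J) / tgt)` -/
noncomputable def term (U U' V' : Submodule F V) : ℤ :=
  finrank F (dom B T U U') - finrank F (dom B T U U' ⊓ pw J V' : Submodule F (J → V)) +
    finrank F (tgt B T U U' ⊔ pw J (img B V') : Submodule F (J → W)) -
      finrank F (tgt B T U U')

theorem term_eq {U U' V' : Submodule F V} (h1 : U' ≤ V') (h2 : V' ≤ U) :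
    term B T U U' V' = 2 * gap B T U U' - gap B T U V' - gap B T V' U' := by
  have e1 : dom B T U U' ⊓ pw J V' = dom B T V' U' := by
    rw [dom, dom, inf_right_comm, ← pw_inf, inf_eq_right.mpr h2]
  have e2 : tgt B T U U' ⊔ pw J (img B V') = tgt B T U V' := by
    rw [tgt, tgt, sup_assoc, ← pw_sup, ← img_sup, sup_eq_right.mpr h1]
  have h3 := finrank_dom B T U U'
  have h4 := finrank_dom B T V' U'
  rw [term, e1, e2, gap, gap, gap]
  zify at h3 h4
  linarith

theorem term_sup (U U' V' : Submodule F V) :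
    term B T U U' (V' ⊔ U') ≤ term B T U U' V' := by
  have e2 : tgt B T U U' ⊔ pw J (img B (V' ⊔ U')) = tgt B T U U' ⊔ pw J (img B V') := by
    rw [img_sup, pw_sup, tgt]
    apply le_antisymm
    · exact sup_le le_sup_left (sup_le le_sup_right (le_sup_of_le_left le_sup_right))
    · exact sup_le le_sup_left (le_sup_of_le_right le_sup_left)
  have h1 : finrank F (dom B T U U' ⊓ pw J V' : Submodule F (J → V)) ≤
      finrank F (dom B T U U' ⊓ pw J (V' ⊔ U') : Submodule F (J → V)) :=
    Submodule.finrank_mono (inf_le_inf_left _ (pw_mono le_sup_left))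
  rw [term, term, e2]
  have h1' : (finrank F (dom B T U U' ⊓ pw J V' : Submodule F (J → V)) : ℤ) ≤
      finrank F (dom B T U U' ⊓ pw J (V' ⊔ U') : Submodule F (J → V)) := by exact_mod_cast h1
  linarith

/-- all chains have potential at most `β` times the size of `T` -/
def Bd (β : ℝ) : Prop :=
  ∀ (G : ℕ) (c : ℕ → Submodule F V), Antitone c → c G = ⊥ →
    ((∑ g ∈ Finset.range G, gap B T (c g) (c (g + 1)) : ℤ) : ℝ) ≤ β * Fintype.card J

/-- the interleaved chain -/
def weave {α : Type*} (c v : ℕ → α) (i : ℕ) : α := if i % 2 = 0 then c (i / 2) else v (i / 2)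

theorem weave_even {α : Type*} (c v : ℕ → α) (g : ℕ) : weave c v (2 * g) = c g := by
  rw [weave, if_pos (by omega)]
  congr 1
  omega

theorem weave_odd {α : Type*} (c v : ℕ → α) (g : ℕ) : weave c v (2 * g + 1) = v g := by
  rw [weave, if_neg (by omega)]
  congr 1
  omega

theorem weave_antitone {c v : ℕ → Submodule F V} (h1 : ∀ g, c (g + 1) ≤ v g)
    (h2 : ∀ g, v g ≤ c g) : Antitone (weave c v) := by
  refine antitone_nat_of_succ_le fun i => ?_
  rcases Nat.even_or_odd' i with ⟨g, rfl | rfl⟩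
  · rw [weave_even, weave_odd]
    exact h2 g
  · rw [show 2 * g + 1 + 1 = 2 * (g + 1) by ring, weave_even, weave_odd]
    exact h1 g

theorem sum_weave (f : Submodule F V → Submodule F V → ℤ) (c v : ℕ → Submodule F V) (G : ℕ) :
    ∑ i ∈ Finset.range (2 * G), f (weave c v i) (weave c v (i + 1)) =
      ∑ g ∈ Finset.range G, (f (c g) (v g) + f (v g) (c (g + 1))) := by
  induction G with
  | zero => simp
  | succ G ih =>
    rw [show 2 * (G + 1) = 2 * G + 1 + 1 by ring, Finset.sum_range_succ, Finset.sum_range_succ,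
      Finset.sum_range_succ, ih, weave_even, weave_odd,
      show 2 * G + 1 + 1 = 2 * (G + 1) by ring, weave_even]
    ring

theorem sum_term {β : ℝ} (h : Bd B T β) {G : ℕ} {c v : ℕ → Submodule F V} (hG : c G = ⊥)
    (h1 : ∀ g, c (g + 1) ≤ v g) (h2 : ∀ g, v g ≤ c g) :
    2 * ((∑ g ∈ Finset.range G, gap B T (c g) (c (g + 1)) : ℤ) : ℝ) - β * Fintype.card J ≤
      ((∑ g ∈ Finset.range G, term B T (c g) (c (g + 1)) (v g) : ℤ) : ℝ) := by
  have h3 := h (2 * G) (weave c v) (weave_antitone h1 h2) (by rw [weave_even]; exact hG)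
  rw [sum_weave (gap B T)] at h3
  have h4 : ∑ g ∈ Finset.range G, term B T (c g) (c (g + 1)) (v g) =
      2 * ∑ g ∈ Finset.range G, gap B T (c g) (c (g + 1)) -
        ∑ g ∈ Finset.range G, (gap B T (c g) (v g) + gap B T (v g) (c (g + 1))) := by
    rw [Finset.mul_sum, ← Finset.sum_sub_distrib]
    refine Finset.sum_congr rfl fun g _ => ?_
    rw [term_eq B T (h1 g) (h2 g)]
    ring
  rw [h4]
  push_cast at h3 ⊢
  linarith

end Gap

end Pool.Agent.Lib.MP_64d474_lc.Nc
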