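import Pool.Agent.Lib.MP_64d474_lc.Nc.Stmts
import Pool.Agent.Lib.MP_64d474_lc.YnCompress

set_option autoImplicit false

/-! NC-COMP: compression of a family of linear maps to a square family without shrunk subspace. -/

open Matrix Module

namespace Pool.Agent.Lib.MP_64d474_lc.Nc

theorem stComp.{u} : StComp.{u} := by
  intro F _ _ κ _ E E' _ _ _ _ _ _ C
  classical
  let n := finrank F E
  let n' := finrank F E'
  let ι : Type := Fin n ⊕ Fin n'
  let eE : E ≃ₗ[F] (Fin n → F) := (Module.finBasis F E).equivFun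
  let eE' : E' ≃ₗ[F] (Fin n' → F) := (Module.finBasis F E').equivFun
  -- the surjection
  let pr : (ι → F) →ₗ[F] E := eE.symm.toLinearMap ∘ₗ LinearMap.funLeft F F Sum.inl
  have hpr : Function.Surjective pr := by
    intro x
    refine ⟨Sum.elim (eE x) 0, ?_⟩
    simp only [pr, LinearMap.comp_apply, LinearEquiv.coe_coe]
    have : (LinearMap.funLeft F F Sum.inl) (Sum.elim (eE x) (0 : Fin n' → F)) = eE x := by
      ext i
      rfl
    rw [this, LinearEquiv.symm_apply_apply]
  -- the injection
  let inj : E' →ₗ[F] (ι → F) := LinearMap.pi fun s : ι =>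
    Sum.elim (fun _ => (0 : E' →ₗ[F] F)) (fun j => LinearMap.proj j ∘ₗ eE'.toLinearMap) s
  have hinj : Function.Injective inj := by
    intro x y h
    apply eE'.injective
    ext j
    exact congrFun h (Sum.inr j)
  let Ct : κ → Matrix ι ι F := fun k => LinearMap.toMatrix' (inj ∘ₗ C k ∘ₗ pr)
  have hCt : ∀ k, (Ct k).mulVecLin = inj ∘ₗ C k ∘ₗ pr := by
    intro k
    apply LinearMap.ext
    intro x
    rw [Matrix.mulVecLin_apply, ← Matrix.toLin'_apply, Matrix.toLin'_toMatrix']
  obtain ⟨Ut, r, S, T, h1, h2, h3⟩ := exists_compression (0 : Matrix ι ι F) Ct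
  have hcard : Fintype.card ι = finrank F E + n' := by
    simp [ι, n]
  -- the image
  have himg : imageSum (0 : Matrix ι ι F) Ct Ut = (img C (Ut.map pr)).map inj := by
    rw [imageSum, img, Submodule.map_iSup]
    have h0 : Ut.map (0 : Matrix ι ι F).mulVecLin = ⊥ := by
      rw [Matrix.mulVecLin_zero, Submodule.map_zero]
    rw [h0, bot_sup_eq]
    refine iSup_congr fun k => ?_
    rw [hCt, Submodule.map_comp, Submodule.map_comp]
  have hfin : finrank F (imageSum (0 : Matrix ι ι F) Ct Ut) = finrank F (img C (Ut.map pr)) := by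
    rw [himg]
    exact (Submodule.equivMapOfInjective inj hinj _).finrank_eq.symm
  have hker : finrank F (LinearMap.ker pr) = n' := by
    have h4 := LinearMap.finrank_range_add_finrank_ker pr
    rw [LinearMap.range_eq_top.mpr hpr, finrank_top, Module.finrank_fintype_fun_eq_card,
      hcard] at h4
    omega
  have hdom : finrank F Ut ≤ finrank F (Ut.map pr) + n' := by
    have h4 := finrank_map_add_inf pr Ut
    have h6 : finrank F (Ut ⊓ LinearMap.ker pr : Submodule F (ι → F)) ≤
        finrank F (LinearMap.ker pr) := Submodule.finrank_mono inf_le_right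
    omega
  refine ⟨Ut.map pr, r, S.mulVecLin ∘ₗ inj, pr ∘ₗ T.mulVecLin, ?_, ?_⟩
  · rw [hfin, hcard] at h1
    omega
  · intro X
    have h5 : imageSum (S * (0 : Matrix ι ι F) * T) (fun k => S * Ct k * T) X =
        img (fun k => (S.mulVecLin ∘ₗ inj) ∘ₗ C k ∘ₗ (pr ∘ₗ T.mulVecLin)) X := by
      rw [imageSum, img]
      have h0 : X.map (S * (0 : Matrix ι ι F) * T).mulVecLin = ⊥ := by
        rw [Matrix.mul_zero, Matrix.zero_mul, Matrix.mulVecLin_zero, Submodule.map_zero]
      rw [h0, bot_sup_eq]
      refine iSup_congr fun k => ?_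
      have h6 : (S * Ct k * T).mulVecLin =
          (S.mulVecLin ∘ₗ inj) ∘ₗ C k ∘ₗ (pr ∘ₗ T.mulVecLin) := by
        rw [Matrix.mulVecLin_mul, Matrix.mulVecLin_mul, hCt]
        apply LinearMap.ext
        intro x
        rfl
      rw [h6]
    rw [← h5]
    by_contra h
    exact h3 ⟨X, not_le.mp h⟩

end Pool.Agent.Lib.MP_64d474_lc.Nc
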