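import Mathlib
import Pool.Agent.Lib.MP_64d474_lc.Nc.Stmts

set_option autoImplicit false
set_option linter.unusedSectionVars false

/-!
# NC-CORE

If all signed translations vanish between `R` and `L` and the family of all matrix units between
`R` and `L` has no shrunk subspace, then the size is at most `2 δ n 2 ^ t`: operator scaling, a
change of basis of `ℂ ^ n` making the partial trace of `L* L` the identity (up to `η`), and the
estimate `StErr` for the projection `Q = L* (L L*)⁻¹ L`.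
-/

open Matrix Module
open scoped ComplexOrder

namespace Pool.Agent.Lib.MP_64d474_lc.Nc

open Pool.Agent.Lib.MP_64d474_lc.Op (fro sgn)

namespace Core

section fro

variable {ι κ μ : Type*} [Fintype ι] [Fintype κ] [Fintype μ]

lemma fro_nn (M : Matrix ι κ ℂ) : 0 ≤ fro M :=
  Finset.sum_nonneg fun _ _ => Finset.sum_nonneg fun _ _ => sq_nonneg _

lemma fro_tr (M : Matrix ι κ ℂ) : (M * Mᴴ).trace = ((fro M : ℝ) : ℂ) := by
  simp only [Matrix.trace, Matrix.diag, Matrix.mul_apply, Matrix.conjTranspose_apply, fro]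
  push_cast
  refine Finset.sum_congr rfl fun i _ => Finset.sum_congr rfl fun j _ => ?_
  rw [← Complex.mul_conj']
  rfl

lemma fro_ct (M : Matrix ι κ ℂ) : fro Mᴴ = fro M := by
  unfold fro
  rw [Finset.sum_comm]
  simp only [Matrix.conjTranspose_apply, norm_star]

lemma fro_tr' (M : Matrix ι κ ℂ) : (Mᴴ * M).trace = ((fro M : ℝ) : ℂ) := by
  rw [← fro_ct M, ← fro_tr, Matrix.conjTranspose_conjTranspose]

lemma fro_comm (M : Matrix ι κ ℂ) : fro (M * Mᴴ) = fro (Mᴴ * M) := by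
  have h : ((fro (M * Mᴴ) : ℝ) : ℂ) = ((fro (Mᴴ * M) : ℝ) : ℂ) := by
    rw [← fro_tr, ← fro_tr]
    simp only [Matrix.conjTranspose_mul, Matrix.conjTranspose_conjTranspose]
    rw [Matrix.trace_mul_comm (Mᴴ * M) (Mᴴ * M), Matrix.mul_assoc, Matrix.trace_mul_comm M,
      Matrix.mul_assoc, Matrix.mul_assoc, Matrix.mul_assoc]
  exact_mod_cast h

lemma cs (M K : Matrix ι κ ℂ) : ‖(M * Kᴴ).trace‖ ^ 2 ≤ fro M * fro K := by
  have h1 : (M * Kᴴ).trace = ∑ p : ι × κ, M p.1 p.2 * star (K p.1 p.2) := by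
    rw [Fintype.sum_prod_type]
    simp only [Matrix.trace, Matrix.diag, Matrix.mul_apply, Matrix.conjTranspose_apply]
  have h2 : ‖(M * Kᴴ).trace‖ ≤ ∑ p : ι × κ, ‖M p.1 p.2‖ * ‖K p.1 p.2‖ := by
    rw [h1]
    refine (norm_sum_le _ _).trans (le_of_eq ?_)
    refine Finset.sum_congr rfl fun p _ => ?_
    rw [norm_mul, norm_star]
  have h3 := Finset.sum_mul_sq_le_sq_mul_sq Finset.univ (fun p : ι × κ => ‖M p.1 p.2‖)
    (fun p => ‖K p.1 p.2‖)
  have h4 : ∀ M : Matrix ι κ ℂ, ∑ p : ι × κ, ‖M p.1 p.2‖ ^ 2 = fro M := by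
    intro M
    rw [Fintype.sum_prod_type]
    rfl
  rw [h4, h4] at h3
  exact (pow_le_pow_left₀ (norm_nonneg _) h2 2).trans h3

lemma fro_mul (M : Matrix ι κ ℂ) (K : Matrix κ μ ℂ) : fro (M * K) ≤ fro M * fro K := by
  have h1 : ∀ i j, ‖(M * K) i j‖ ^ 2 ≤ (∑ l, ‖M i l‖ ^ 2) * ∑ l, ‖K l j‖ ^ 2 := by
    intro i j
    have h2 : ‖(M * K) i j‖ ≤ ∑ l, ‖M i l‖ * ‖K l j‖ := by
      rw [Matrix.mul_apply]
      refine (norm_sum_le _ _).trans (le_of_eq ?_)
      exact Finset.sum_congr rfl fun l _ => norm_mul _ _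
    exact (pow_le_pow_left₀ (norm_nonneg _) h2 2).trans
      (Finset.sum_mul_sq_le_sq_mul_sq _ _ _)
  calc fro (M * K) ≤ ∑ i, ∑ j, (∑ l, ‖M i l‖ ^ 2) * ∑ l, ‖K l j‖ ^ 2 :=
        Finset.sum_le_sum fun i _ => Finset.sum_le_sum fun j _ => h1 i j
    _ = (∑ i, ∑ l, ‖M i l‖ ^ 2) * ∑ j, ∑ l, ‖K l j‖ ^ 2 := by
        rw [Finset.sum_mul_sum]
    _ = fro M * fro K := by
        unfold fro
        rw [Finset.sum_comm (s := (Finset.univ : Finset μ))]

/-- distance to a multiple of the identity -/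
lemma fro_sub {N : ℕ} (X : Matrix (Fin N) (Fin N) ℂ) (c : ℝ) (hX : Xᴴ = X)
    (htr : X.trace = ((c * N : ℝ) : ℂ)) :
    fro (X - (c : ℂ) • (1 : Matrix (Fin N) (Fin N) ℂ)) = fro X - c ^ 2 * N := by
  have h : ((fro (X - (c : ℂ) • (1 : Matrix (Fin N) (Fin N) ℂ)) : ℝ) : ℂ) =
      ((fro X - c ^ 2 * N : ℝ) : ℂ) := by
    rw [← fro_tr]
    have e1 : (X - (c : ℂ) • (1 : Matrix (Fin N) (Fin N) ℂ))ᴴ =
        X - (c : ℂ) • (1 : Matrix (Fin N) (Fin N) ℂ) := by
      rw [Matrix.conjTranspose_sub, hX, Matrix.conjTranspose_smul, Matrix.conjTranspose_one]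
      simp
    have e2 : (X - (c : ℂ) • (1 : Matrix (Fin N) (Fin N) ℂ)) *
        (X - (c : ℂ) • (1 : Matrix (Fin N) (Fin N) ℂ)) =
        X * Xᴴ - (2 * (c : ℂ)) • X + ((c : ℂ) ^ 2) • (1 : Matrix (Fin N) (Fin N) ℂ) := by
      rw [hX, Matrix.sub_mul, Matrix.mul_sub, Matrix.mul_sub, Matrix.smul_mul, Matrix.smul_mul,
        Matrix.mul_smul, Matrix.mul_smul, Matrix.one_mul, Matrix.mul_one, Matrix.one_mul, smul_smul,
        two_mul, add_smul, pow_two]
      abel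
    rw [e1, e2, Matrix.trace_add, Matrix.trace_sub, Matrix.trace_smul, Matrix.trace_smul, fro_tr,
      htr, Matrix.trace_one, Fintype.card_fin]
    push_cast
    simp only [smul_eq_mul]
    ring
  exact_mod_cast h

end fro

section kr

variable {J : Type} [Fintype J] [DecidableEq J] {n : ℕ}

/-- a matrix on `Fin n`, acting on `J × Fin n` -/
noncomputable def kr (J : Type) [DecidableEq J] {n : ℕ} (g : Matrix (Fin n) (Fin n) ℂ) :
    Matrix (J × Fin n) (J × Fin n) ℂ :=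
  Matrix.kroneckerMap (· * ·) (1 : Matrix J J ℂ) g

lemma kr_mul (g h : Matrix (Fin n) (Fin n) ℂ) : kr J (g * h) = kr J g * kr J h := by
  have := Matrix.mul_kronecker_mul (1 : Matrix J J ℂ) (1 : Matrix J J ℂ) g h
  rw [Matrix.one_mul] at this
  exact this

lemma kr_one : kr J (1 : Matrix (Fin n) (Fin n) ℂ) = 1 := Matrix.one_kronecker_one

lemma kr_ct (g : Matrix (Fin n) (Fin n) ℂ) : (kr J g)ᴴ = kr J gᴴ := by
  have := Matrix.conjTranspose_kronecker (1 : Matrix J J ℂ) g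
  rw [Matrix.conjTranspose_one] at this
  exact this

lemma lif_kr (M : Matrix J J ℂ) (g : Matrix (Fin n) (Fin n) ℂ) :
    lif M * kr J g = kr J g * lif M := by
  have h1 := Matrix.mul_kronecker_mul M (1 : Matrix J J ℂ) (1 : Matrix (Fin n) (Fin n) ℂ) g
  have h2 := Matrix.mul_kronecker_mul (1 : Matrix J J ℂ) M g (1 : Matrix (Fin n) (Fin n) ℂ)
  rw [Matrix.mul_one, Matrix.one_mul] at h1
  rw [Matrix.one_mul, Matrix.mul_one] at h2
  exact h1.symm.trans h2

lemma lif_ct (M : Matrix J J ℂ) : (lif M : Matrix (J × Fin n) (J × Fin n) ℂ)ᴴ = lif Mᴴ := by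
  have := Matrix.conjTranspose_kronecker M (1 : Matrix (Fin n) (Fin n) ℂ)
  rw [Matrix.conjTranspose_one] at this
  exact this

lemma kr_apply (g : Matrix (Fin n) (Fin n) ℂ) (x y : J × Fin n) :
    kr J g x y = if x.1 = y.1 then g x.2 y.2 else 0 := by
  unfold kr
  rw [Matrix.kroneckerMap_apply, Matrix.one_apply]
  split_ifs <;> simp

/-- the average over the matrix units -/
lemma sum_units (P : Matrix (J × Fin n) (J × Fin n) ℂ) :
    ∑ p : J × J, (lif (Matrix.single p.1 p.2 (1 : ℂ)) : Matrix (J × Fin n) (J × Fin n) ℂ) * P *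
      (lif (Matrix.single p.1 p.2 (1 : ℂ)))ᴴ = kr J (ptr P) := by
  ext ⟨x, a⟩ ⟨y, b⟩
  rw [Matrix.sum_apply, kr_apply, Fintype.sum_prod_type]
  have key : ∀ j j' : J, ((lif (Matrix.single j j' (1 : ℂ)) * P *
      (lif (Matrix.single j j' (1 : ℂ)))ᴴ : Matrix (J × Fin n) (J × Fin n) ℂ)) (x, a) (y, b) =
      if j = x ∧ j = y then P (j', a) (j', b) else 0 := by
    intro j j'
    have e1 : ∀ z : J × Fin n, ((lif (Matrix.single j j' (1 : ℂ)) * P :
        Matrix (J × Fin n) (J × Fin n) ℂ)) (x, a) z = if j = x then P (j', a) z else 0 := by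
      intro z
      rw [Matrix.mul_apply, Fintype.sum_prod_type]
      simp only [lif, Matrix.kroneckerMap_apply, Matrix.one_apply, Matrix.single_apply]
      by_cases hx : j = x
      · simp [hx]
      · simp [hx]
    rw [Matrix.mul_apply, Fintype.sum_prod_type]
    simp only [e1]
    simp only [lif, Matrix.conjTranspose_apply, Matrix.kroneckerMap_apply, Matrix.one_apply,
      Matrix.single_apply]
    by_cases hx : j = x
    · by_cases hy : j = y
      · subst hx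
        subst hy
        rw [Finset.sum_eq_single j', Finset.sum_eq_single b]
        · simp
        · intro b' _ hb'
          simp [Ne.symm hb']
        · simp
        · intro x _ hx'
          simp [Ne.symm hx']
        · simp
      · simp [hx]
        subst hx
        simp [hy]
    · simp [hx]
  simp only [key]
  by_cases hxy : x = y
  · subst hxy
    simp [ptr]
  · rw [if_neg hxy]
    apply Finset.sum_eq_zero
    intro j _
    apply Finset.sum_eq_zero
    intro j' _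
    rw [if_neg]
    rintro ⟨rfl, rfl⟩
    exact hxy rfl

lemma sum_units' (P : Matrix (J × Fin n) (J × Fin n) ℂ) :
    ∑ p : J × J, (lif (Matrix.single p.1 p.2 (1 : ℂ)) : Matrix (J × Fin n) (J × Fin n) ℂ)ᴴ * P *
      (lif (Matrix.single p.1 p.2 (1 : ℂ))) = kr J (ptr P) := by
  rw [← sum_units P, ← (Equiv.prodComm J J).sum_comp]
  refine Finset.sum_congr rfl fun p _ => ?_
  simp only [Equiv.prodComm_apply, Prod.fst_swap, Prod.snd_swap, lif_ct,
    Matrix.conjTranspose_single, star_one]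

lemma tr_kr (Q : Matrix (J × Fin n) (J × Fin n) ℂ) (ρ : Matrix (Fin n) (Fin n) ℂ) :
    (Q * kr J ρ).trace = (ptr Q * ρ).trace := by
  simp only [Matrix.trace, Matrix.diag, Matrix.mul_apply, Fintype.sum_prod_type, kr_apply, ptr]
  simp only [mul_ite, mul_zero]
  have : ∀ (j : J) (a : Fin n), ∑ j' : J, ∑ b : Fin n,
      (if j' = j then Q (j, a) (j', b) * ρ b a else 0) = ∑ b, Q (j, a) (j, b) * ρ b a := by
    intro j a
    rw [Finset.sum_eq_single j]
    · simp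
    · intro j' _ hj'
      simp [hj']
    · simp
  simp only [this]
  rw [Finset.sum_comm]
  refine Finset.sum_congr rfl fun a _ => ?_
  rw [Finset.sum_comm]
  refine Finset.sum_congr rfl fun b _ => ?_
  rw [Finset.sum_mul]

lemma ptr_kr (g : Matrix (Fin n) (Fin n) ℂ) (P : Matrix (J × Fin n) (J × Fin n) ℂ) :
    ptr (kr J g * P * (kr J g)ᴴ) = g * ptr P * gᴴ := by
  have e1 : ∀ (j : J) (a : Fin n) (z : J × Fin n), (kr J g * P) (j, a) z =
      ∑ b, g a b * P (j, b) z := by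
    intro j a z
    rw [Matrix.mul_apply, Fintype.sum_prod_type, Finset.sum_eq_single j]
    · simp [kr_apply]
    · intro j' _ hj'
      simp [kr_apply, Ne.symm hj']
    · simp
  ext a c
  simp only [ptr]
  have e2 : ∀ j : J, (kr J g * P * (kr J g)ᴴ) (j, a) (j, c) =
      ∑ c', (∑ b, g a b * P (j, b) (j, c')) * gᴴ c' c := by
    intro j
    rw [kr_ct, Matrix.mul_apply, Fintype.sum_prod_type, Finset.sum_eq_single j]
    · simp only [kr_apply, e1, if_true]
    · intro j' _ hj'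
      simp [kr_apply, hj']
    · simp
  simp only [e2]
  rw [Matrix.mul_apply, Finset.sum_comm]
  refine Finset.sum_congr rfl fun c' _ => ?_
  rw [← Finset.sum_mul, Matrix.mul_apply, Finset.sum_comm]
  congr 1
  refine Finset.sum_congr rfl fun b _ => ?_
  simp only [ptr]
  rw [Finset.mul_sum]

lemma ptr_tr (P : Matrix (J × Fin n) (J × Fin n) ℂ) : (ptr P).trace = P.trace := by
  have := tr_kr P (1 : Matrix (Fin n) (Fin n) ℂ)
  rw [kr_one, Matrix.mul_one, Matrix.mul_one] at this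
  exact this.symm

lemma ptr_psd {N : ℕ} (L : Matrix (Fin N) (J × Fin n) ℂ) : (ptr (Lᴴ * L)).PosSemidef := by
  have h : ptr (Lᴴ * L) = ∑ j : J, (L.submatrix id fun a => (j, a))ᴴ *
      (L.submatrix id fun a => (j, a)) := by
    ext a b
    rw [Matrix.sum_apply]
    simp only [ptr, Matrix.mul_apply, Matrix.conjTranspose_apply, Matrix.submatrix_apply, id]
  rw [h]
  exact Matrix.posSemidef_sum _ fun j _ => Matrix.posSemidef_conjTranspose_mul_self _

end kr

open scoped MatrixOrder in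
lemma exists_factor {n : ℕ} {M : Matrix (Fin n) (Fin n) ℂ} (hM : M.PosDef) :
    ∃ g : Matrix (Fin n) (Fin n) ℂ, IsUnit g.det ∧ gᴴ * g = M := by
  obtain ⟨B, hB⟩ := CStarAlgebra.nonneg_iff_eq_star_mul_self.mp hM.posSemidef.nonneg
  refine ⟨B, ?_, hB.symm⟩
  have h1 : IsUnit M.det := (Matrix.isUnit_iff_isUnit_det _).1 hM.isUnit
  rw [hB, Matrix.det_mul] at h1
  exact isUnit_of_mul_isUnit_right h1

/-- a matrix close to a nonzero multiple of the identity is injective -/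
lemma ne_zero_of_close {N : ℕ} {X : Matrix (Fin N) (Fin N) ℂ} {c ε : ℝ} (hc : 0 < c)
    (hεN : ε * N < 1)
    (hX : fro (X - (c : ℂ) • (1 : Matrix (Fin N) (Fin N) ℂ)) ≤ ε * (c ^ 2 * N))
    {v : Fin N → ℂ} (hv : X *ᵥ v = 0) : v = 0 := by
  by_contra hv0
  set M := X - (c : ℂ) • (1 : Matrix (Fin N) (Fin N) ℂ) with hM
  set V : Matrix (Fin N) Unit ℂ := Matrix.of fun i _ => v i with hV
  have h1 : M * V = -((c : ℂ) • V) := by
    have h2 : X * V = 0 := by
      ext i u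
      have := congrFun hv i
      rw [Matrix.mulVec, dotProduct] at this
      rw [Matrix.mul_apply]
      simpa [hV] using this
    rw [hM, Matrix.sub_mul, h2, Matrix.smul_mul, Matrix.one_mul, zero_sub]
  have h3 := fro_mul M V
  have h4 : fro (M * V) = c ^ 2 * fro V := by
    rw [h1]
    unfold fro
    rw [Finset.mul_sum]
    refine Finset.sum_congr rfl fun i _ => ?_
    rw [Finset.mul_sum]
    refine Finset.sum_congr rfl fun j _ => ?_
    rw [Matrix.neg_apply, Matrix.smul_apply, norm_neg, smul_eq_mul, norm_mul, Complex.norm_real,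
      Real.norm_of_nonneg hc.le, mul_pow]
  have h5 : 0 < fro V := by
    rcases (fro_nn V).eq_or_lt with h | h
    · exfalso
      apply hv0
      funext i
      unfold fro at h
      have h6 := (Finset.sum_eq_zero_iff_of_nonneg (fun i _ => Finset.sum_nonneg
        fun _ _ => sq_nonneg _)).1 h.symm i (Finset.mem_univ _)
      simpa [hV] using h6
    · exact h
  rw [h4] at h3
  have h6 : c ^ 2 ≤ fro M := le_of_mul_le_mul_right h3 h5
  have h7 : ε * (c ^ 2 * N) = (ε * N) * c ^ 2 := by ring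
  have h8 : (ε * N) * c ^ 2 < 1 * c ^ 2 := mul_lt_mul_of_pos_right hεN (by positivity)
  linarith

theorem core_eta (hE : StErr) {t n N : ℕ} {S : Type} [Fintype S] [Nonempty S]
    {v : S → Fin t → ZMod 2} {δ : ℝ} (hB : Bias v δ) (hδ : 0 ≤ δ)
    (L : Matrix (Fin N) ((Fin t → ZMod 2) × Fin n) ℂ)
    (R : Matrix ((Fin t → ZMod 2) × Fin n) (Fin N) ℂ)
    (h0 : ∀ s s', btw L (cwop (v s) (v s')) R = 0) {c ε : ℝ} (hc : 0 < c)
    (hε : 0 ≤ ε) (hεN : ε * N < 1)
    (hXtr : (L * kr (Fin t → ZMod 2) (ptr (R * Rᴴ)) * Lᴴ).trace = ((c * N : ℝ) : ℂ))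
    (hX : fro (L * kr (Fin t → ZMod 2) (ptr (R * Rᴴ)) * Lᴴ) ≤ (1 + ε) * (c ^ 2 * N))
    {η : ℝ} (hη : 0 < η) :
    c * (N : ℝ) ^ 2 * (1 - Real.sqrt (ε * N)) ≤ 2 * δ * 2 ^ t * n * (Real.sqrt N *
      Real.sqrt (fro (Rᴴ * kr (Fin t → ZMod 2) (ptr (Lᴴ * L)) * R + (η : ℂ) • (Rᴴ * R)))) := by
  -- the change of basis
  set τ := ptr (Lᴴ * L) with hτ
  have hpd : (τ + (η : ℂ) • (1 : Matrix (Fin n) (Fin n) ℂ)).PosDef := by
    apply Matrix.PosDef.posSemidef_add (ptr_psd L)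
    apply Matrix.PosDef.smul Matrix.PosDef.one
    exact_mod_cast hη
  obtain ⟨g, hg, hgg⟩ := exists_factor hpd
  have hgi : g * g⁻¹ = 1 := Matrix.mul_nonsing_inv g hg
  have hig : g⁻¹ * g = 1 := Matrix.nonsing_inv_mul g hg
  have hkig : kr (Fin t → ZMod 2) g⁻¹ * kr (Fin t → ZMod 2) g = 1 := by rw [← kr_mul, hig, kr_one]
  set L' := L * kr (Fin t → ZMod 2) g⁻¹ with hL'
  set R' := kr (Fin t → ZMod 2) g * R with hR'
  set X := L * kr (Fin t → ZMod 2) (ptr (R * Rᴴ)) * Lᴴ with hXdef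
  -- `X` does not change
  have hX' : L' * kr (Fin t → ZMod 2) (ptr (R' * R'ᴴ)) * L'ᴴ = X := by
    have e1 : ptr (R' * R'ᴴ) = g * ptr (R * Rᴴ) * gᴴ := by
      rw [← ptr_kr, hR', Matrix.conjTranspose_mul, Matrix.mul_assoc, Matrix.mul_assoc,
        Matrix.mul_assoc]
    have e2 : kr (Fin t → ZMod 2) g⁻¹ * kr (Fin t → ZMod 2) (g * ptr (R * Rᴴ) * gᴴ) * (kr (Fin t → ZMod 2) g⁻¹)ᴴ = kr (Fin t → ZMod 2) (ptr (R * Rᴴ)) := by
      rw [kr_ct, ← kr_mul, ← kr_mul]
      congr 1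
      rw [← Matrix.mul_assoc, ← Matrix.mul_assoc, hig, Matrix.one_mul, Matrix.mul_assoc,
        ← Matrix.conjTranspose_mul, hig, Matrix.conjTranspose_one, Matrix.mul_one]
    rw [e1, hL', hXdef, Matrix.conjTranspose_mul, ← e2]
    simp only [Matrix.mul_assoc]
  have hXh : Xᴴ = X := by
    have e1 : (ptr (R * Rᴴ))ᴴ = ptr (R * Rᴴ) := by
      have := (ptr_psd (J := Fin t → ZMod 2) Rᴴ).isHermitian.eq
      rwa [Matrix.conjTranspose_conjTranspose] at this
    rw [hXdef, Matrix.conjTranspose_mul, Matrix.conjTranspose_mul, Matrix.conjTranspose_conjTranspose,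
      kr_ct, e1, Matrix.mul_assoc]
  have hclose : fro (X - (c : ℂ) • (1 : Matrix (Fin N) (Fin N) ℂ)) ≤ ε * (c ^ 2 * N) := by
    rw [fro_sub X c hXh hXtr]
    linarith
  -- the Gram matrix
  set A := L' * L'ᴴ with hA
  have hAunit : IsUnit A.det := by
    rw [isUnit_iff_ne_zero]
    intro hdet
    obtain ⟨w, hw0, hw⟩ := Matrix.exists_mulVec_eq_zero_iff.2 hdet
    apply hw0
    apply ne_zero_of_close hc hεN hclose
    rw [hA, Matrix.self_mul_conjTranspose_mulVec_eq_zero] at hw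
    rw [← hX', ← Matrix.mulVec_mulVec, hw, Matrix.mulVec_zero]
  have hAi : A * A⁻¹ = 1 := Matrix.mul_nonsing_inv A hAunit
  have hiA : A⁻¹ * A = 1 := Matrix.nonsing_inv_mul A hAunit
  have hAh : Aᴴ = A := by
    rw [hA, Matrix.conjTranspose_mul, Matrix.conjTranspose_conjTranspose]
  have hAih : (A⁻¹)ᴴ = A⁻¹ := by
    rw [Matrix.conjTranspose_nonsing_inv, hAh]
  set K := A⁻¹ * L' with hK
  have hKK : K * Kᴴ = A⁻¹ := by
    rw [hK, Matrix.conjTranspose_mul, hAih]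
    calc A⁻¹ * L' * (L'ᴴ * A⁻¹) = A⁻¹ * (L' * L'ᴴ) * A⁻¹ := by simp only [Matrix.mul_assoc]
      _ = A⁻¹ := by rw [← hA, hiA, Matrix.one_mul]
  have hKtr : (A⁻¹).trace = ((fro K : ℝ) : ℂ) := by rw [← hKK, fro_tr]
  -- `fro L' ≤ n`
  have hLn : fro L' ≤ n := by
    have e1 : ((fro L' : ℝ) : ℂ) = ((n - η * fro g⁻¹ : ℝ) : ℂ) := by
      have e2 : ptr (L'ᴴ * L') = (g⁻¹)ᴴ * τ * g⁻¹ := by
        have e3 : L'ᴴ * L' = kr (Fin t → ZMod 2) (g⁻¹)ᴴ * (Lᴴ * L) * (kr (Fin t → ZMod 2) (g⁻¹)ᴴ)ᴴ := by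
          rw [hL', Matrix.conjTranspose_mul, kr_ct, kr_ct, Matrix.conjTranspose_conjTranspose]
          simp only [Matrix.mul_assoc]
        rw [e3, ptr_kr, Matrix.conjTranspose_conjTranspose]
      have e4 : (g⁻¹)ᴴ * τ * g⁻¹ = 1 - (η : ℂ) • ((g⁻¹)ᴴ * g⁻¹) := by
        have e5 : τ = gᴴ * g - (η : ℂ) • (1 : Matrix (Fin n) (Fin n) ℂ) := by
          rw [hgg]
          abel
        rw [e5, Matrix.mul_sub, Matrix.sub_mul, Matrix.mul_smul, Matrix.mul_one, Matrix.smul_mul]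
        congr 1
        rw [← Matrix.mul_assoc, ← Matrix.conjTranspose_mul, hgi, Matrix.conjTranspose_one,
          Matrix.one_mul, hgi]
      rw [← fro_tr', ← ptr_tr, e2, e4, Matrix.trace_sub, Matrix.trace_smul, fro_tr',
        Matrix.trace_one, Fintype.card_fin]
      push_cast
      rfl
    have e6 : fro L' = n - η * fro g⁻¹ := by exact_mod_cast e1
    have := mul_nonneg hη.le (fro_nn g⁻¹)
    linarith
  -- `N ^ 2 ≤ fro K * n`
  have hNK : (N : ℝ) ^ 2 ≤ fro K * n := by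
    have e1 : (K * L'ᴴ).trace = N := by
      rw [hK, Matrix.mul_assoc, ← hA, hiA, Matrix.trace_one, Fintype.card_fin]
    have e2 := cs K L'
    rw [e1, Complex.norm_natCast] at e2
    exact e2.trans (mul_le_mul_of_nonneg_left hLn (fro_nn K))
  -- the projection
  set Q := L'ᴴ * K with hQ
  have hQh : Qᴴ = Q := by
    rw [hQ, hK, Matrix.conjTranspose_mul, Matrix.conjTranspose_mul, hAih,
      Matrix.conjTranspose_conjTranspose, Matrix.mul_assoc]
  have hQQ : Q * Q = Q := by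
    rw [hQ]
    calc L'ᴴ * K * (L'ᴴ * K) = L'ᴴ * (A⁻¹ * (L' * L'ᴴ) * K) := by
          rw [hK]
          simp only [Matrix.mul_assoc]
      _ = L'ᴴ * K := by rw [← hA, hiA, Matrix.one_mul]
  have hQf : fro Q = N := by
    have e1 : ((fro Q : ℝ) : ℂ) = N := by
      rw [← fro_tr, hQh, hQQ, hQ, Matrix.trace_mul_comm, hK, Matrix.mul_assoc, ← hA, hiA,
        Matrix.trace_one, Fintype.card_fin]
    exact_mod_cast e1
  set P := R' * R'ᴴ with hP
  set WW : S → S → Matrix ((Fin t → ZMod 2) × Fin n) ((Fin t → ZMod 2) × Fin n) ℂ :=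
    fun s s' => lif (cwop (v s) (v s')) with hWW
  have hWg : ∀ s s', WW s s' * kr (Fin t → ZMod 2) g = kr (Fin t → ZMod 2) g * WW s s' :=
    fun s s' => lif_kr _ _
  have hLWR : ∀ s s', L' * (WW s s') * R' = 0 := by
    intro s s'
    have e1 := h0 s s'
    unfold btw at e1
    have e2 : kr (Fin t → ZMod 2) g⁻¹ * WW s s' * kr (Fin t → ZMod 2) g = WW s s' := by
      rw [Matrix.mul_assoc, hWg, ← Matrix.mul_assoc, hkig, Matrix.one_mul]
    calc L' * (WW s s') * R' =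
        L * (kr (Fin t → ZMod 2) g⁻¹ * (WW s s') * kr (Fin t → ZMod 2) g) * R := by
          rw [hL', hR']
          simp only [Matrix.mul_assoc]
      _ = L * (WW s s') * R := by rw [e2]
      _ = 0 := e1
  have hzero : ∀ s s', (Q * ((WW s s') * P *
      (WW s s')ᴴ)).trace.re = 0 := by
    intro s s'
    have e1 : Q * ((WW s s') * P * (WW s s')ᴴ) = 0 := by
      calc Q * ((WW s s') * P * (WW s s')ᴴ) =
          L'ᴴ * A⁻¹ * (L' * (WW s s') * R') *
            (R'ᴴ * (WW s s')ᴴ) := by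
            rw [hQ, hK, hP]
            simp only [Matrix.mul_assoc]
        _ = 0 := by rw [hLWR, Matrix.mul_zero, Matrix.zero_mul]
    rw [e1, Matrix.trace_zero, Complex.zero_re]
  have herr : |(∑ s, ∑ s', (Q * (WW s s' * P * (WW s s')ᴴ)).trace.re) -
      (Fintype.card S : ℝ) ^ 2 / 2 ^ t * (ptr Q * ptr P).trace.re| ≤
      2 * δ * (Fintype.card S : ℝ) ^ 2 * (Real.sqrt (fro Q) * Real.sqrt (fro P)) :=
    hE t n S v δ hB hδ P Q
  simp only [hzero, Finset.sum_const_zero, zero_sub, abs_neg] at herr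
  -- the main term
  have hmain : (ptr Q * ptr P).trace = (A⁻¹ * X).trace := by
    rw [← tr_kr, ← hX', hQ, hK]
    rw [Matrix.mul_assoc, Matrix.trace_mul_comm]
    simp only [Matrix.mul_assoc]
  have hlow : c * fro K * (1 - Real.sqrt (ε * N)) ≤ (ptr Q * ptr P).trace.re := by
    have e1 : A⁻¹ * X = (c : ℂ) • A⁻¹ +
        A⁻¹ * (X - (c : ℂ) • (1 : Matrix (Fin N) (Fin N) ℂ)) := by
      rw [Matrix.mul_sub, Matrix.mul_smul, Matrix.mul_one]
      abel
    have e2 := cs A⁻¹ (X - (c : ℂ) • (1 : Matrix (Fin N) (Fin N) ℂ))ᴴ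
    rw [Matrix.conjTranspose_conjTranspose, fro_ct] at e2
    have e3 : fro A⁻¹ ≤ fro K ^ 2 := by
      have := fro_mul K Kᴴ
      rw [hKK, fro_ct] at this
      rw [pow_two]
      exact this
    have e4 : ‖(A⁻¹ * (X - (c : ℂ) • (1 : Matrix (Fin N) (Fin N) ℂ))).trace‖ ≤
        c * fro K * Real.sqrt (ε * N) := by
      apply le_of_sq_le_sq _ (by have := fro_nn K; positivity)
      refine e2.trans ?_
      calc fro A⁻¹ * fro (X - (c : ℂ) • (1 : Matrix (Fin N) (Fin N) ℂ))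
          ≤ fro K ^ 2 * (ε * (c ^ 2 * N)) := mul_le_mul e3 hclose (fro_nn _) (sq_nonneg _)
        _ = (c * fro K * Real.sqrt (ε * N)) ^ 2 := by
            rw [mul_pow, mul_pow, Real.sq_sqrt (by positivity)]
            ring
    have e5 : (A⁻¹ * X).trace.re = c * fro K +
        (A⁻¹ * (X - (c : ℂ) • (1 : Matrix (Fin N) (Fin N) ℂ))).trace.re := by
      rw [e1, Matrix.trace_add, Matrix.trace_smul, hKtr, Complex.add_re]
      simp
    have e6 := (abs_le.1 (Complex.abs_re_le_norm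
      (A⁻¹ * (X - (c : ℂ) • (1 : Matrix (Fin N) (Fin N) ℂ))).trace)).1
    rw [hmain, e5]
    have e7 : c * fro K * (1 - Real.sqrt (ε * N)) =
        c * fro K - c * fro K * Real.sqrt (ε * N) := by ring
    rw [e7]
    linarith
  have hup : (ptr Q * ptr P).trace.re ≤ 2 * δ * 2 ^ t * (Real.sqrt N * Real.sqrt (fro P)) := by
    have e1 := (le_abs_self _).trans herr
    rw [hQf] at e1
    have hS : (0 : ℝ) < (Fintype.card S : ℝ) ^ 2 := by
      have : 0 < Fintype.card S := Fintype.card_pos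
      positivity
    have e2 : (Fintype.card S : ℝ) ^ 2 / 2 ^ t * (ptr Q * ptr P).trace.re =
        (Fintype.card S : ℝ) ^ 2 * ((ptr Q * ptr P).trace.re / 2 ^ t) := by ring
    have e3 : 2 * δ * (Fintype.card S : ℝ) ^ 2 * (Real.sqrt N * Real.sqrt (fro P)) =
        (Fintype.card S : ℝ) ^ 2 * (2 * δ * (Real.sqrt N * Real.sqrt (fro P))) := by ring
    rw [e2, e3] at e1
    have e4 := le_of_mul_le_mul_left e1 hS
    rw [div_le_iff₀ (by positivity)] at e4
    calc (ptr Q * ptr P).trace.re ≤ 2 * δ * (Real.sqrt N * Real.sqrt (fro P)) * 2 ^ t := e4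
      _ = _ := by ring
  have hPf : fro P = fro (Rᴴ * kr (Fin t → ZMod 2) τ * R + (η : ℂ) • (Rᴴ * R)) := by
    rw [hP, fro_comm]
    congr 1
    have e1 : R'ᴴ * R' = Rᴴ * kr (Fin t → ZMod 2) (gᴴ * g) * R := by
      rw [hR', Matrix.conjTranspose_mul, kr_ct, kr_mul]
      simp only [Matrix.mul_assoc]
    have e2 : kr (Fin t → ZMod 2) (τ + (η : ℂ) • (1 : Matrix (Fin n) (Fin n) ℂ)) =
        kr (Fin t → ZMod 2) τ + (η : ℂ) • (1 : Matrix ((Fin t → ZMod 2) × Fin n) ((Fin t → ZMod 2) × Fin n) ℂ) := by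
      rw [← kr_one]
      ext x y
      simp only [kr_apply, Matrix.add_apply, Matrix.smul_apply]
      split_ifs <;> simp
    rw [e1, hgg, e2, Matrix.mul_add, Matrix.add_mul, Matrix.mul_smul, Matrix.mul_one,
      Matrix.smul_mul]
  rw [← hPf]
  have hr1 : 0 ≤ 1 - Real.sqrt (ε * N) := by
    rw [sub_nonneg]
    exact Real.sqrt_le_one.2 hεN.le
  calc c * (N : ℝ) ^ 2 * (1 - Real.sqrt (ε * N)) ≤
      c * (fro K * n) * (1 - Real.sqrt (ε * N)) := by
        apply mul_le_mul_of_nonneg_right _ hr1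
        exact mul_le_mul_of_nonneg_left hNK hc.le
    _ = n * (c * fro K * (1 - Real.sqrt (ε * N))) := by ring
    _ ≤ n * (2 * δ * 2 ^ t * (Real.sqrt N * Real.sqrt (fro P))) :=
        mul_le_mul_of_nonneg_left (hlow.trans hup) (Nat.cast_nonneg _)
    _ = _ := by ring

lemma fro_cont {N : ℕ} (Y Z : Matrix (Fin N) (Fin N) ℂ) :
    Continuous fun η : ℝ => fro (Y + (η : ℂ) • Z) := by
  unfold fro
  refine continuous_finsetSum _ fun i _ => continuous_finsetSum _ fun j _ => ?_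
  simp only [Matrix.add_apply, Matrix.smul_apply, smul_eq_mul]
  fun_prop

lemma btw_mul_ct {t n N : ℕ} (L : Matrix (Fin N) ((Fin t → ZMod 2) × Fin n) ℂ)
    (M : Matrix (Fin t → ZMod 2) (Fin t → ZMod 2) ℂ)
    (R : Matrix ((Fin t → ZMod 2) × Fin n) (Fin N) ℂ) :
    btw L M R * (btw L M R)ᴴ = L * (lif M * (R * Rᴴ) * (lif M)ᴴ) * Lᴴ := by
  unfold btw
  rw [Matrix.conjTranspose_mul, Matrix.conjTranspose_mul]
  simp only [Matrix.mul_assoc]

lemma btw_ct_mul {t n N : ℕ} (L : Matrix (Fin N) ((Fin t → ZMod 2) × Fin n) ℂ)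
    (M : Matrix (Fin t → ZMod 2) (Fin t → ZMod 2) ℂ)
    (R : Matrix ((Fin t → ZMod 2) × Fin n) (Fin N) ℂ) :
    (btw L M R)ᴴ * btw L M R = Rᴴ * ((lif M)ᴴ * (Lᴴ * L) * lif M) * R := by
  unfold btw
  rw [Matrix.conjTranspose_mul, Matrix.conjTranspose_mul]
  simp only [Matrix.mul_assoc]

/-- the estimate with the precision `ε` of the scaling -/
theorem core_eps (hE : StErr) (hS : StScale) {t n N : ℕ} {S : Type} [Fintype S] [Nonempty S]
    {v : S → Fin t → ZMod 2} {δ : ℝ} (hB : Bias v δ) (hδ : 0 ≤ δ)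
    (L : Matrix (Fin N) ((Fin t → ZMod 2) × Fin n) ℂ)
    (R : Matrix ((Fin t → ZMod 2) × Fin n) (Fin N) ℂ)
    (hNsh : Nsh fun p : (Fin t → ZMod 2) × (Fin t → ZMod 2) =>
        (btw L (Matrix.single p.1 p.2 1) R).mulVecLin)
    (h0 : ∀ s s', btw L (cwop (v s) (v s')) R = 0) (hN : 0 < N) {ε : ℝ} (hε : 0 < ε)
    (hεN : ε * N < 1) :
    (N : ℝ) * (1 - Real.sqrt (ε * N)) ≤ 2 * δ * 2 ^ t * n * Real.sqrt (1 + ε) := by
  obtain ⟨S0, T0, hs, hX, hY⟩ := hS ((Fin t → ZMod 2) × (Fin t → ZMod 2)) N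
    (fun p => btw L (Matrix.single p.1 p.2 1) R) hN hNsh ε hε
  have hNR : (0 : ℝ) < N := by exact_mod_cast hN
  set L₁ := S0 * L with hL₁
  set R₁ := R * T0 with hR₁
  have hbtw : ∀ M : Matrix (Fin t → ZMod 2) (Fin t → ZMod 2) ℂ,
      S0 * btw L M R * T0 = btw L₁ M R₁ := by
    intro M
    unfold btw
    rw [hL₁, hR₁]
    simp only [Matrix.mul_assoc]
  simp only [hbtw] at hs hX hY
  set s : ℝ := ∑ p : (Fin t → ZMod 2) × (Fin t → ZMod 2),
    fro (btw L₁ (Matrix.single p.1 p.2 1) R₁) with hsdef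
  have hXe : ∑ p : (Fin t → ZMod 2) × (Fin t → ZMod 2), btw L₁ (Matrix.single p.1 p.2 1) R₁ *
      (btw L₁ (Matrix.single p.1 p.2 1) R₁)ᴴ =
      L₁ * kr (Fin t → ZMod 2) (ptr (R₁ * R₁ᴴ)) * L₁ᴴ := by
    rw [← sum_units, Matrix.mul_sum, Matrix.sum_mul]
    exact Finset.sum_congr rfl fun p _ => btw_mul_ct _ _ _
  have hYe : ∑ p : (Fin t → ZMod 2) × (Fin t → ZMod 2),
      (btw L₁ (Matrix.single p.1 p.2 1) R₁)ᴴ * btw L₁ (Matrix.single p.1 p.2 1) R₁ =
      R₁ᴴ * kr (Fin t → ZMod 2) (ptr (L₁ᴴ * L₁)) * R₁ := by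
    rw [← sum_units', Matrix.mul_sum, Matrix.sum_mul]
    exact Finset.sum_congr rfl fun p _ => btw_ct_mul _ _ _
  rw [hXe] at hX
  rw [hYe] at hY
  set c : ℝ := s / N with hc
  have hc0 : 0 < c := div_pos hs hNR
  have hcs : s = c * N := by
    rw [hc]
    field_simp
  have hXtr : (L₁ * kr (Fin t → ZMod 2) (ptr (R₁ * R₁ᴴ)) * L₁ᴴ).trace = ((c * N : ℝ) : ℂ) := by
    rw [← hXe, Matrix.trace_sum, ← hcs, hsdef]
    push_cast
    exact Finset.sum_congr rfl fun p _ => fro_tr _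
  have hX' : fro (L₁ * kr (Fin t → ZMod 2) (ptr (R₁ * R₁ᴴ)) * L₁ᴴ) ≤ (1 + ε) * (c ^ 2 * N) := by
    rw [hcs] at hX
    have e1 : (1 + ε) * (c * N) ^ 2 = N * ((1 + ε) * (c ^ 2 * N)) := by ring
    rw [e1] at hX
    exact le_of_mul_le_mul_left hX hNR
  have hY' : fro (R₁ᴴ * kr (Fin t → ZMod 2) (ptr (L₁ᴴ * L₁)) * R₁) ≤ (1 + ε) * (c ^ 2 * N) := by
    rw [hcs] at hY
    have e1 : (1 + ε) * (c * N) ^ 2 = N * ((1 + ε) * (c ^ 2 * N)) := by ring
    rw [e1] at hY
    exact le_of_mul_le_mul_left hY hNR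
  have h0' : ∀ s s', btw L₁ (cwop (v s) (v s')) R₁ = 0 := by
    intro s s'
    rw [← hbtw, h0, Matrix.mul_zero, Matrix.zero_mul]
  -- the limit `η → 0`
  set Y := R₁ᴴ * kr (Fin t → ZMod 2) (ptr (L₁ᴴ * L₁)) * R₁ with hYdef
  have hlim : c * (N : ℝ) ^ 2 * (1 - Real.sqrt (ε * N)) ≤
      2 * δ * 2 ^ t * n * (Real.sqrt N * Real.sqrt (fro Y)) := by
    have hcont : Continuous fun η : ℝ => 2 * δ * 2 ^ t * n * (Real.sqrt N *
        Real.sqrt (fro (Y + (η : ℂ) • (R₁ᴴ * R₁)))) :=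
      continuous_const.mul (continuous_const.mul (fro_cont Y (R₁ᴴ * R₁)).sqrt)
    have ht := (hcont.tendsto 0).mono_left (nhdsWithin_le_nhds (s := Set.Ioi 0))
    have h1 := ge_of_tendsto ht (Filter.eventually_of_mem self_mem_nhdsWithin fun η hη =>
      core_eta hE hB hδ L₁ R₁ h0' hc0 hε.le hεN hXtr hX' hη)
    simpa using h1
  have h2 : Real.sqrt N * Real.sqrt (fro Y) ≤ c * N * Real.sqrt (1 + ε) := by
    rw [← Real.sqrt_mul hNR.le]
    apply Real.sqrt_le_iff.2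
    refine ⟨by positivity, ?_⟩
    rw [mul_pow, Real.sq_sqrt (by positivity)]
    calc (N : ℝ) * fro Y ≤ N * ((1 + ε) * (c ^ 2 * N)) := mul_le_mul_of_nonneg_left hY' hNR.le
      _ = (c * N) ^ 2 * (1 + ε) := by ring
  have h3 : (c * N) * ((N : ℝ) * (1 - Real.sqrt (ε * N))) ≤
      (c * N) * (2 * δ * 2 ^ t * n * Real.sqrt (1 + ε)) := by
    calc (c * N) * ((N : ℝ) * (1 - Real.sqrt (ε * N))) =
          c * (N : ℝ) ^ 2 * (1 - Real.sqrt (ε * N)) := by ring
      _ ≤ 2 * δ * 2 ^ t * n * (Real.sqrt N * Real.sqrt (fro Y)) := hlim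
      _ ≤ 2 * δ * 2 ^ t * n * (c * N * Real.sqrt (1 + ε)) :=
          mul_le_mul_of_nonneg_left h2 (by positivity)
      _ = _ := by ring
  exact le_of_mul_le_mul_left h3 (by positivity)

end Core

theorem stCore (hE : StErr) (hS : StScale) : StCore := by
  intro t n N S _ _ v δ hB hδ L R hNsh h0
  rcases Nat.eq_zero_or_pos N with rfl | hN
  · simp only [Nat.cast_zero]
    positivity
  have hNR : (0 : ℝ) < N := by exact_mod_cast hN
  have hcont : Continuous fun ε : ℝ => 2 * δ * 2 ^ t * n * Real.sqrt (1 + ε) -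
      (N : ℝ) * (1 - Real.sqrt (ε * N)) := by
    fun_prop
  have ht := (hcont.tendsto 0).mono_left (nhdsWithin_le_nhds (s := Set.Ioi 0))
  have hmem : Set.Ioo (0 : ℝ) (1 / N) ∈ nhdsWithin (0 : ℝ) (Set.Ioi 0) :=
    Ioo_mem_nhdsGT (by positivity)
  have h1 : (0 : ℝ) ≤ _ := ge_of_tendsto ht (Filter.eventually_of_mem hmem fun ε hε => by
    have hεN : ε * N < 1 := by
      have := hε.2
      rwa [lt_div_iff₀ hNR] at this
    have := Core.core_eps hE hS hB hδ L R hNsh h0 hN hε.1 hεN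
    linarith)
  simp only [add_zero, Real.sqrt_one, zero_mul, Real.sqrt_zero, sub_zero, mul_one] at h1
  calc (N : ℝ) ≤ 2 * δ * 2 ^ t * n := by linarith
    _ = _ := by ring

end Pool.Agent.Lib.MP_64d474_lc.Nc
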