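import Mathlib
import Pool.Agent.Lib.MP_64d474_lc.Nc.Stmts
import Pool.Agent.Lib.MP_64d474_lc.Op.StmtsN

/-!
The definitions of the explicit tuples and of the twists.
-/

open Matrix Module

set_option linter.unusedSectionVars false

namespace Pool.Agent.Lib.MP_64d474_lc.Nc

open Pool.Agent.Lib.MP_64d474_lc.Op (sgn)

/-- block diagonal matrices with the blocks `[[T, A ω], [0, T]]` -/
def dbl {κ J Ω R : Type*} [DecidableEq Ω] [Zero R] (T : κ → Matrix J J R)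
    (A : Ω → κ → Matrix J J R) : κ → Matrix (Ω × Bool × J) (Ω × Bool × J) R :=
  fun k x y => if x.1 = y.1 then (if x.2.1 = y.2.1 then T k x.2.2 y.2.2 else
    if x.2.1 = false then A x.1 k x.2.2 y.2.2 else 0) else 0

/-- the decomposition of a vector into its first `t` coordinates, a pair of vectors of length `l`
and a bit -/
def dec {t l : ℕ} (x : Fin (t + (l + l + 1)) → ZMod 2) :
    ((Fin l → ZMod 2) × (Fin l → ZMod 2)) × Bool × (Fin t → ZMod 2) :=
  ((fun i => x (Fin.natAdd t (Fin.castAdd 1 (Fin.castAdd l i))),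
    fun i => x (Fin.natAdd t (Fin.castAdd 1 (Fin.natAdd l i)))),
    decide (x (Fin.natAdd t (Fin.natAdd (l + l) 0)) = 1), fun i => x (Fin.castAdd _ i))

/-- the perturbations: signed sums of signed translations -/
def iprt {t m : ℕ} {S Ω : Type} [Fintype S] (v : S → Fin t → ZMod 2)
    (a : Ω → Fin m × S × S → ℤ) (ω : Ω) (k : Fin m) :
    Matrix (Fin t → ZMod 2) (Fin t → ZMod 2) ℤ :=
  ∑ s, ∑ s', a ω (k, s, s') • wop (v s) (v s')

section

variable {K₁ K₂ : Type} [Field K₁] [Field K₂] [Fintype K₁] {l₁ l₂ m : ℕ}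
  (φ₁ : K₁ → Fin l₁ → ZMod 2) (φ₂ : K₂ → Fin l₂ → ZMod 2)
  (α : Fin m × (K₁ × (Fin l₁ → ZMod 2)) × (K₁ × (Fin l₁ → ZMod 2)) → K₂)

/-- the next tuple: block diagonal with the blocks `[[T, A ω], [0, T]]` -/
def step {t : ℕ} (T : Fin m → Matrix (Fin t → ZMod 2) (Fin t → ZMod 2) ℤ) :
    Fin m → Matrix (Fin (t + (l₂ + l₂ + 1)) → ZMod 2) (Fin (t + (l₂ + l₂ + 1)) → ZMod 2) ℤ :=
  fun k x y => dbl T (iprt (bvec φ₁ t) (svec φ₂ α)) k (dec x) (dec y)

/-- the tuples of integer matrices -/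
def tower : (L : ℕ) → Fin m → Matrix (Fin ((l₂ + l₂ + 1) * L) → ZMod 2)
    (Fin ((l₂ + l₂ + 1) * L) → ZMod 2) ℤ
  | 0 => 0
  | L + 1 => step φ₁ φ₂ α (tower L)

end

/-- the tuple over another ring -/
def cst {κ J : Type*} (R : Type*) [Ring R] (T : κ → Matrix J J ℤ) : κ → Matrix J J R :=
  fun k => (T k).map fun z : ℤ => (z : R)

section Tens

variable {F : Type*} [Field F] {κ J : Type*} [Fintype κ] [Fintype J]

/-- `∑ T_k ⊗ B_k` -/
def tens {n : ℕ} (T : κ → Matrix J J F) (B : κ → Matrix (Fin n) (Fin n) F) :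
    Matrix (J × Fin n) (J × Fin n) F := ∑ k, Matrix.kroneckerMap (· * ·) (T k) (B k)

/-- some matrix `∑ x_k B_k` is nonsingular -/
def Nonsing {F : Type*} [Field F] {n m : ℕ} (B : Fin m → Matrix (Fin n) (Fin n) F) : Prop :=
  ∃ x : Fin m → F, (∑ k, x k • B k).det ≠ 0

/-- `∑ Y_k ⊗ B_k` is nonsingular for some square matrices `Y_k` -/
def NcNonsing {F : Type*} [Field F] {n m : ℕ} (B : Fin m → Matrix (Fin n) (Fin n) F) : Prop :=
  ∃ D : ℕ, 0 < D ∧ ∃ Y : Fin m → Matrix (Fin D) (Fin D) F, (tens Y B).det ≠ 0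

end Tens

/-- the twist of the matrix `T` with parameters `c, e`: the part of `T` along the signed
translation with parameters `S, u` is multiplied by `2 ^ t ∏_{S_i = 1} c_i ∏_{u_i = 1} e_i` -/
def twist {t : ℕ} (c e : Fin t → ℤ) (T : Matrix (Fin t → ZMod 2) (Fin t → ZMod 2) ℤ) :
    Matrix (Fin t → ZMod 2) (Fin t → ZMod 2) ℤ := fun x y =>
  (∑ z, (∏ i, (1 + sgn (x i + z i) * c i)) * T z (z + x + y)) *
    ∏ i, if x i = y i then 1 else e i

/-- the data of the test: coordinates `φ₁, φ₂` of two fields of characteristic 2 and an injective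
map `α`, such that the first field and the number `L` of steps are large enough -/
structure IsData {K₁ K₂ : Type} [Field K₁] [Field K₂] [Fintype K₁] {l₁ l₂ m : ℕ}
    (φ₁ : K₁ → Fin l₁ → ZMod 2) (φ₂ : K₂ → Fin l₂ → ZMod 2)
    (α : Fin m × (K₁ × (Fin l₁ → ZMod 2)) × (K₁ × (Fin l₁ → ZMod 2)) → K₂) (n L : ℕ) : Prop where
  add₁ : ∀ x y, φ₁ (x + y) = φ₁ x + φ₁ y
  inj₁ : Function.Injective φ₁
  add₂ : ∀ x y, φ₂ (x + y) = φ₂ x + φ₂ y
  inj₂ : Function.Injective φ₂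
  inj : Function.Injective α
  card_ge : 4 * (m + 1) * ((l₂ + l₂ + 1) * L) * n ^ 2 ≤ Fintype.card K₁
  steps : 2 * 5 ^ L * n < 6 ^ L

/-- the data of the test for symbolic matrices of size `n` in `m` variables -/
structure Data (n m : ℕ) where
  K₁ : Type
  K₂ : Type
  [field₁ : Field K₁]
  [field₂ : Field K₂]
  [char₁ : CharP K₁ 2]
  [char₂ : CharP K₂ 2]
  [fin₁ : Fintype K₁]
  l₁ : ℕ
  l₂ : ℕ
  L : ℕ
  φ₁ : K₁ → Fin l₁ → ZMod 2
  φ₂ : K₂ → Fin l₂ → ZMod 2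
  α : Fin m × (K₁ × (Fin l₁ → ZMod 2)) × (K₁ × (Fin l₁ → ZMod 2)) → K₂
  isData : IsData φ₁ φ₂ α n L

namespace Data

attribute [instance] field₁ field₂ char₁ char₂ fin₁

variable {n m : ℕ} (X : Data n m)

/-- the tuple has size `2 ^ t` -/
def t : ℕ := (X.l₂ + X.l₂ + 1) * X.L

/-- the tuple of integer matrices -/
def T : Fin m → Matrix (Fin X.t → ZMod 2) (Fin X.t → ZMod 2) ℤ := tower X.φ₁ X.φ₂ X.α X.L

/-- the twists of the tuple with parameters between `0` and `n 2 ^ t` -/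
def twists : Finset (Fin m → Matrix (Fin X.t → ZMod 2) (Fin X.t → ZMod 2) ℤ) :=
  Finset.univ.image fun p : (Fin X.t → Fin (n * 2 ^ X.t + 1)) ×
    (Fin X.t → Fin (n * 2 ^ X.t + 1)) =>
      fun k => twist (fun i => (p.1 i : ℤ)) (fun i => (p.2 i : ℤ)) (X.T k)

end Data

end Pool.Agent.Lib.MP_64d474_lc.Nc
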