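import Mathlib
import Pool.Agent.Lib.MP_64d474_lc.Nc.Defs
import Pool.Agent.Lib.MP_64d474_lc.Op.S7
import Pool.Agent.Lib.MP_64d474_lc.YnPoint

/-!
# From rank to determinants: quantum torus twists

If `rank (∑ T_k ⊗ B_k) > (n - 1) 2 ^ t` then some twist `T_k(c, e)` of the tuple `T`, with
`c, e ∈ {0, .., n 2 ^ t} ^ t`, has `det (∑ T_k(c, e) ⊗ B_k) ≠ 0`.
-/

open Matrix Module MvPolynomial

set_option linter.unusedSectionVars false

namespace Pool.Agent.Lib.MP_64d474_lc.Nc

open Pool.Agent.Lib.MP_64d474_lc.Op (sgn)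

namespace Hit

variable {t : ℕ}

/-- the twist over an arbitrary commutative ring -/
def tw {R : Type*} [CommRing R] (c e : Fin t → R)
    (T : Matrix (Fin t → ZMod 2) (Fin t → ZMod 2) ℤ) (x y : Fin t → ZMod 2) : R :=
  (∑ z, (∏ i, (1 + ((sgn (x i + z i) : ℤ) : R) * c i)) * ((T z (z + x + y) : ℤ) : R)) *
    ∏ i, if x i = y i then 1 else e i

theorem tw_int (c e : Fin t → ℤ) (T : Matrix (Fin t → ZMod 2) (Fin t → ZMod 2) ℤ) :
    twist c e T = tw c e T := by
  ext x y
  simp [twist, tw]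

theorem tw_hom {R S : Type*} [CommRing R] [CommRing S] (f : R →+* S) (c e : Fin t → R)
    (T : Matrix (Fin t → ZMod 2) (Fin t → ZMod 2) ℤ) (x y : Fin t → ZMod 2) :
    f (tw c e T x y) = tw (fun i => f (c i)) (fun i => f (e i)) T x y := by
  rw [tw, tw, map_mul, map_sum, map_prod]
  congr 1
  · refine Finset.sum_congr rfl fun z _ => ?_
    rw [map_mul, map_prod, map_intCast]
    congr 1
    refine Finset.prod_congr rfl fun i _ => ?_
    rw [map_add, map_one, map_mul, map_intCast]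
  · refine Finset.prod_congr rfl fun i _ => ?_
    split_ifs
    · exact map_one f
    · rfl

theorem sgn_sum {ι : Type*} (s : Finset ι) (f : ι → ZMod 2) :
    sgn (∑ i ∈ s, f i) = ∏ i ∈ s, sgn (f i) := by
  classical
  induction s using Finset.induction_on with
  | empty => rfl
  | insert a s ha ih => rw [Finset.sum_insert ha, Finset.prod_insert ha, Op.S7Aux.sgn_add, ih]

theorem sgn_mul_self (a : ZMod 2) : sgn a * sgn a = 1 := by
  rw [← Op.S7Aux.sgn_add, CharTwo.add_self_eq_zero]; rfl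

theorem sgn_pow (a : ZMod 2) (n : ℕ) : sgn a ^ n = sgn (a * (n : ZMod 2)) := by
  induction n with
  | zero => simp [sgn]
  | succ n ih => rw [pow_succ, ih, Nat.cast_succ, mul_add, mul_one, Op.S7Aux.sgn_add]

theorem sgn_sq_cast {R : Type*} [CommRing R] (a : ZMod 2) :
    ((sgn a : ℤ) : R) * ((sgn a : ℤ) : R) = 1 := by
  rw [← Int.cast_mul, sgn_mul_self, Int.cast_one]

/-- changing the signs of the parameters is a conjugation by a signed translation -/
theorem tw_flip {R : Type*} [CommRing R] (c e : Fin t → R)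
    (T : Matrix (Fin t → ZMod 2) (Fin t → ZMod 2) ℤ) (τ σ x y : Fin t → ZMod 2) :
    tw (fun i => ((sgn (τ i) : ℤ) : R) * c i) (fun i => ((sgn (σ i) : ℤ) : R) * e i) T x y =
      ((sgn (σ ⬝ᵥ (x + y)) : ℤ) : R) * tw c e T (x + τ) (y + τ) := by
  have h1 : ∀ z : Fin t → ZMod 2, z + (x + τ) + (y + τ) = z + x + y := by
    intro z
    have : τ + τ = 0 := by ext i; exact CharTwo.add_self_eq_zero _
    calc z + (x + τ) + (y + τ) = z + x + y + (τ + τ) := by abel
      _ = z + x + y := by rw [this, add_zero]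
  have h2 : ∏ i, (if x i = y i then (1 : R) else ((sgn (σ i) : ℤ) : R) * e i) =
      ((sgn (σ ⬝ᵥ (x + y)) : ℤ) : R) *
        ∏ i, (if (x + τ) i = (y + τ) i then (1 : R) else e i) := by
    rw [dotProduct, sgn_sum, Int.cast_prod, ← Finset.prod_mul_distrib]
    refine Finset.prod_congr rfl fun i _ => ?_
    by_cases h : x i = y i
    · have h3 : (x + τ) i = (y + τ) i := by rw [Pi.add_apply, Pi.add_apply, h]
      rw [if_pos h, if_pos h3, Pi.add_apply, h, CharTwo.add_self_eq_zero, mul_zero]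
      simp [sgn]
    · have h3 : ¬ (x + τ) i = (y + τ) i := by
        rw [Pi.add_apply, Pi.add_apply]
        intro h4
        exact h (add_right_cancel h4)
      have h5 : x i + y i = 1 := by
        generalize x i = p at h
        generalize y i = q at h
        revert h p q
        decide
      rw [if_neg h, if_neg h3, Pi.add_apply, h5, mul_one]
  rw [tw, tw, h2]
  have h3 : ∑ z, (∏ i, (1 + ((sgn (x i + z i) : ℤ) : R) * (((sgn (τ i) : ℤ) : R) * c i))) *
        ((T z (z + x + y) : ℤ) : R) =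
      ∑ z, (∏ i, (1 + ((sgn ((x + τ) i + z i) : ℤ) : R) * c i)) *
        ((T z (z + (x + τ) + (y + τ)) : ℤ) : R) := by
    refine Finset.sum_congr rfl fun z _ => ?_
    rw [h1]
    congr 1
    refine Finset.prod_congr rfl fun i _ => ?_
    rw [Pi.add_apply, show x i + τ i + z i = (x i + z i) + τ i by ring,
      Op.S7Aux.sgn_add (x i + z i), Int.cast_mul, mul_assoc]
  rw [h3]
  ring

theorem tw_one {R : Type*} [CommRing R]
    (T : Matrix (Fin t → ZMod 2) (Fin t → ZMod 2) ℤ) (x y : Fin t → ZMod 2) :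
    tw (fun _ => (1 : R)) (fun _ => 1) T x y = 2 ^ t * ((T x y : ℤ) : R) := by
  have h1 : ∀ z : Fin t → ZMod 2, ∏ i, (1 + ((sgn (x i + z i) : ℤ) : R) * 1) =
      if z = x then 2 ^ t else 0 := by
    intro z
    by_cases h : z = x
    · rw [if_pos h, h]
      have : ∀ i, (1 + ((sgn (x i + x i) : ℤ) : R) * 1) = 2 := by
        intro i
        rw [CharTwo.add_self_eq_zero]
        simp [sgn]
        norm_num
      rw [Finset.prod_congr rfl fun i _ => this i, Finset.prod_const, Finset.card_univ,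
        Fintype.card_fin]
    · rw [if_neg h]
      obtain ⟨i, hi⟩ := Function.ne_iff.mp h
      refine Finset.prod_eq_zero (Finset.mem_univ i) ?_
      have h5 : x i + z i = 1 := by
        generalize x i = p at hi
        generalize z i = q at hi
        revert hi p q
        decide
      rw [h5]
      simp [sgn]
  rw [tw, Finset.sum_congr rfl fun z _ => by rw [h1 z]]
  simp only [ite_mul, zero_mul, Finset.sum_ite_eq', Finset.mem_univ, if_true, ite_self,
    Finset.prod_const_one, mul_one]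
  have : x + x + y = y := by
    ext i
    rw [Pi.add_apply, Pi.add_apply, CharTwo.add_self_eq_zero, zero_add]
  rw [this]

theorem sum_sgn (w : Fin t → ZMod 2) :
    ∑ σ : Fin t → ZMod 2, sgn (σ ⬝ᵥ w) = if w = 0 then 2 ^ t else 0 := by
  split_ifs with h
  · rw [h]
    simp [sgn]
  · obtain ⟨i, hi⟩ := Function.ne_iff.1 h
    have h1 : ∑ σ : Fin t → ZMod 2, sgn (σ ⬝ᵥ w) = ∑ σ : Fin t → ZMod 2, -sgn (σ ⬝ᵥ w) := by
      rw [← Equiv.sum_comp (Equiv.addRight (Pi.single i 1 : Fin t → ZMod 2))]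
      refine Finset.sum_congr rfl fun σ _ => ?_
      rw [Equiv.coe_addRight, add_dotProduct, single_dotProduct, one_mul,
        Op.S7Aux.zmod2 (w i) hi, Op.S7Aux.sgn_add_one]
    rw [Finset.sum_neg_distrib] at h1
    omega

section Poly

variable {F : Type*} [Field F]

/-- the change of signs of the variables -/
noncomputable def flip (τ σ : Fin t → ZMod 2) :
    MvPolynomial (Fin t ⊕ Fin t) F →ₐ[F] MvPolynomial (Fin t ⊕ Fin t) F :=
  aeval (Sum.elim (fun i => ((sgn (τ i) : ℤ) : MvPolynomial (Fin t ⊕ Fin t) F) * X (Sum.inl i))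
    fun i => ((sgn (σ i) : ℤ) : MvPolynomial (Fin t ⊕ Fin t) F) * X (Sum.inr i))

/-- the parity of the exponents -/
def par1 (γ : Fin t ⊕ Fin t →₀ ℕ) : Fin t → ZMod 2 := fun i => (γ (Sum.inl i) : ZMod 2)

/-- the parity of the exponents -/
def par2 (γ : Fin t ⊕ Fin t →₀ ℕ) : Fin t → ZMod 2 := fun i => (γ (Sum.inr i) : ZMod 2)

theorem prod_sgn_pow (ρ : Fin t → ZMod 2) (f : Fin t → ℕ) :
    ∏ i, ((sgn (ρ i) : ℤ) : MvPolynomial (Fin t ⊕ Fin t) F) ^ f i =
      C ((sgn (ρ ⬝ᵥ fun i => (f i : ZMod 2)) : ℤ) : F) := by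
  rw [dotProduct, sgn_sum, Int.cast_prod, map_prod]
  refine Finset.prod_congr rfl fun i _ => ?_
  rw [← sgn_pow, Int.cast_pow, map_pow, map_intCast]

theorem flip_monomial (τ σ : Fin t → ZMod 2) (γ : Fin t ⊕ Fin t →₀ ℕ) (a : F) :
    flip τ σ (monomial γ a) =
      monomial γ (((sgn (τ ⬝ᵥ par1 γ) * sgn (σ ⬝ᵥ par2 γ) : ℤ) : F) * a) := by
  have h2 : (∏ i : Fin t, (X (Sum.inl i) : MvPolynomial (Fin t ⊕ Fin t) F) ^ γ (Sum.inl i)) *
      ∏ i : Fin t, (X (Sum.inr i) : MvPolynomial (Fin t ⊕ Fin t) F) ^ γ (Sum.inr i) =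
      monomial γ 1 := by
    rw [monomial_eq, Finsupp.prod_fintype _ _ (fun i => pow_zero _), Fintype.prod_sum_type]
    simp
  have h3 := prod_sgn_pow (F := F) τ (fun i => γ (Sum.inl i))
  have h4 := prod_sgn_pow (F := F) σ (fun i => γ (Sum.inr i))
  have h5 : (fun i => ((γ (Sum.inl i) : ℕ) : ZMod 2)) = par1 γ := rfl
  have h6 : (fun i => ((γ (Sum.inr i) : ℕ) : ZMod 2)) = par2 γ := rfl
  rw [h5] at h3
  rw [h6] at h4
  rw [Int.cast_mul]
  rw [flip, aeval_monomial, Finsupp.prod_fintype _ _ (fun i => pow_zero _), Fintype.prod_sum_type]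
  simp only [Sum.elim_inl, Sum.elim_inr, mul_pow, Finset.prod_mul_distrib]
  rw [h3, h4]
  generalize ((sgn (τ ⬝ᵥ par1 γ) : ℤ) : F) = p
  generalize ((sgn (σ ⬝ᵥ par2 γ) : ℤ) : F) = q
  have h7 : monomial γ (p * q * a) = C (p * q * a) * monomial γ 1 := by
    rw [C_mul_monomial, mul_one]
  rw [h7, ← h2, map_mul, map_mul, algebraMap_eq]
  generalize (∏ i : Fin t, (X (Sum.inl i) : MvPolynomial (Fin t ⊕ Fin t) F) ^ γ (Sum.inl i)) = A
  generalize (∏ i : Fin t, (X (Sum.inr i) : MvPolynomial (Fin t ⊕ Fin t) F) ^ γ (Sum.inr i)) = B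
  generalize (C p : MvPolynomial (Fin t ⊕ Fin t) F) = P
  generalize (C q : MvPolynomial (Fin t ⊕ Fin t) F) = Q
  generalize (C a : MvPolynomial (Fin t ⊕ Fin t) F) = Z
  ring

theorem coeff_flip (τ σ : Fin t → ZMod 2) (γ : Fin t ⊕ Fin t →₀ ℕ)
    (f : MvPolynomial (Fin t ⊕ Fin t) F) :
    coeff γ (flip τ σ f) = ((sgn (τ ⬝ᵥ par1 γ) * sgn (σ ⬝ᵥ par2 γ) : ℤ) : F) * coeff γ f := by
  classical
  induction f using MvPolynomial.induction_on' with
  | monomial u a =>
    rw [flip_monomial, coeff_monomial, coeff_monomial]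
    split_ifs with h
    · rw [h]
    · rw [mul_zero]
  | add p q hp hq => rw [map_add, coeff_add, hp, hq, coeff_add, mul_add]

theorem flip_C (τ σ : Fin t → ZMod 2) (a : F) : flip τ σ (C a) = C a := by
  rw [flip, aeval_C]
  rfl

end Poly

section Big

variable {κ ι : Type*} [Fintype κ] [Fintype ι]

/-- the matrix `∑ T_k(c, e) ⊗ B_k` -/
def big {R : Type*} [CommRing R] (c e : Fin t → R)
    (T : κ → Matrix (Fin t → ZMod 2) (Fin t → ZMod 2) ℤ) (b : κ → Matrix ι ι R) :
    Matrix ((Fin t → ZMod 2) × ι) ((Fin t → ZMod 2) × ι) R :=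
  fun p q => ∑ k, tw c e (T k) p.1 q.1 * b k p.2 q.2

theorem big_map {R S : Type*} [CommRing R] [CommRing S] (f : R →+* S) (c e : Fin t → R)
    (T : κ → Matrix (Fin t → ZMod 2) (Fin t → ZMod 2) ℤ) (b : κ → Matrix ι ι R) :
    (big c e T b).map f = big (fun i => f (c i)) (fun i => f (e i)) T fun k => (b k).map f := by
  ext p q
  rw [Matrix.map_apply, big, big, map_sum]
  refine Finset.sum_congr rfl fun k _ => ?_
  rw [map_mul, tw_hom]
  rfl

variable {F : Type*} [Field F] (T : κ → Matrix (Fin t → ZMod 2) (Fin t → ZMod 2) ℤ)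
  (B : κ → Matrix ι ι F)

/-- the generic twist -/
noncomputable def gen : Matrix ((Fin t → ZMod 2) × ι) ((Fin t → ZMod 2) × ι)
    (MvPolynomial (Fin t ⊕ Fin t) F) :=
  big (fun i => X (Sum.inl i)) (fun i => X (Sum.inr i)) T fun k => (B k).map C

theorem flip_gen (τ σ : Fin t → ZMod 2) (p q : (Fin t → ZMod 2) × ι) :
    flip τ σ (gen T B p q) = ((sgn (σ ⬝ᵥ (p.1 + q.1)) : ℤ) : MvPolynomial (Fin t ⊕ Fin t) F) *
      gen T B (p.1 + τ, p.2) (q.1 + τ, q.2) := by
  rw [gen, big, big, map_sum, Finset.mul_sum]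
  refine Finset.sum_congr rfl fun k _ => ?_
  rw [map_mul, Matrix.map_apply, flip_C, ← mul_assoc]
  congr 1
  have h1 := tw_hom (flip (F := F) τ σ).toRingHom (fun i => X (Sum.inl i))
    (fun i => X (Sum.inr i)) (T k) p.1 q.1
  have h2 : ∀ i, (flip (F := F) τ σ).toRingHom (X (Sum.inl i)) =
      ((sgn (τ i) : ℤ) : MvPolynomial (Fin t ⊕ Fin t) F) * X (Sum.inl i) := by
    intro i
    exact aeval_X _ _
  have h3 : ∀ i, (flip (F := F) τ σ).toRingHom (X (Sum.inr i)) =
      ((sgn (σ i) : ℤ) : MvPolynomial (Fin t ⊕ Fin t) F) * X (Sum.inr i) := by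
    intro i
    exact aeval_X _ _
  simp only [h2, h3] at h1
  rw [tw_flip] at h1
  exact h1

/-- the transform of a vector by a signed translation -/
noncomputable def tr (τ σ : Fin t → ZMod 2)
    (v : (Fin t → ZMod 2) × ι → MvPolynomial (Fin t ⊕ Fin t) F) :
    (Fin t → ZMod 2) × ι → MvPolynomial (Fin t ⊕ Fin t) F :=
  fun p => ((sgn (σ ⬝ᵥ p.1) : ℤ) : MvPolynomial (Fin t ⊕ Fin t) F) *
    flip τ σ (v (p.1 + τ, p.2))

theorem add_self_vec (τ : Fin t → ZMod 2) : τ + τ = 0 := by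
  ext i
  exact CharTwo.add_self_eq_zero _

theorem gen_tr (τ σ : Fin t → ZMod 2)
    (v : (Fin t → ZMod 2) × ι → MvPolynomial (Fin t ⊕ Fin t) F)
    (hv : gen T B *ᵥ v = 0) : gen T B *ᵥ tr τ σ v = 0 := by
  ext1 p
  have h1 := congrArg (flip τ σ) (congrFun hv (p.1 + τ, p.2))
  rw [Pi.zero_apply, map_zero, mulVec, dotProduct, map_sum] at h1
  rw [Pi.zero_apply, mulVec, dotProduct]
  let E : (Fin t → ZMod 2) × ι ≃ (Fin t → ZMod 2) × ι :=
    (Equiv.addRight τ).prodCongr (Equiv.refl ι)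
  rw [← Equiv.sum_comp E] at h1
  have h2 : ∀ q : (Fin t → ZMod 2) × ι, flip τ σ (gen T B (p.1 + τ, p.2) (E q) * v (E q)) =
      ((sgn (σ ⬝ᵥ p.1) : ℤ) : MvPolynomial (Fin t ⊕ Fin t) F) *
        (gen T B p q * tr τ σ v q) := by
    intro q
    have e1 : E q = (q.1 + τ, q.2) := rfl
    rw [map_mul, flip_gen, e1, tr]
    have e2 : p.1 + τ + (q.1 + τ) = p.1 + q.1 := by
      calc p.1 + τ + (q.1 + τ) = p.1 + q.1 + (τ + τ) := by abel
        _ = p.1 + q.1 := by rw [add_self_vec, add_zero]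
    have e3 : ((p.1 + τ + τ, p.2) : (Fin t → ZMod 2) × ι) = p := by
      rw [add_assoc, add_self_vec, add_zero]
    have e4 : ((q.1 + τ + τ, q.2) : (Fin t → ZMod 2) × ι) = q := by
      rw [add_assoc, add_self_vec, add_zero]
    simp only
    rw [e2, e3, e4, dotProduct_add, Op.S7Aux.sgn_add, Int.cast_mul]
    ring
  rw [Finset.sum_congr rfl fun q _ => h2 q, ← Finset.mul_sum] at h1
  have h3 := congrArg (fun z => ((sgn (σ ⬝ᵥ p.1) : ℤ) : MvPolynomial (Fin t ⊕ Fin t) F) * z) h1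
  simp only [mul_zero] at h3
  rw [← mul_assoc, sgn_sq_cast, one_mul] at h3
  exact h3

theorem exists_order.{u} (σ : Type u) [Finite σ] : Nonempty (MonomialOrder.{u, u} σ) := by
  classical
  obtain ⟨n, ⟨e⟩⟩ := Finite.exists_equiv_fin σ
  let _ : LinearOrder σ := LinearOrder.lift' e e.injective
  exact ⟨MonomialOrder.lex⟩

theorem degree_le_of {σ R : Type*} [CommRing R] (m : MonomialOrder σ) (γ : σ →₀ ℕ)
    (f : MvPolynomial σ R) (h : ∀ δ, m.toSyn γ < m.toSyn δ → coeff δ f = 0) :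
    m.toSyn (m.degree f) ≤ m.toSyn γ := by
  rw [m.degree_le_iff]
  intro δ hδ
  by_contra h1
  rw [not_le] at h1
  exact (mem_support_iff.mp hδ) (h δ h1)

theorem coeff_prod_of {σ R α : Type*} [CommRing R] (m : MonomialOrder σ) (γ : σ →₀ ℕ)
    (s : Finset α) (f : α → MvPolynomial σ R) (h : ∀ i ∈ s, m.toSyn (m.degree (f i)) ≤ m.toSyn γ) :
    m.toSyn (m.degree (∏ i ∈ s, f i)) ≤ m.toSyn (∑ _i ∈ s, γ) ∧
      coeff (∑ _i ∈ s, γ) (∏ i ∈ s, f i) = ∏ i ∈ s, coeff γ (f i) := by
  classical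
  induction s using Finset.induction_on with
  | empty =>
    simp only [Finset.prod_empty, Finset.sum_empty]
    refine ⟨?_, ?_⟩
    · rw [← C_1, m.degree_C]
    · simp
  | insert a s ha ih =>
    obtain ⟨ih1, ih2⟩ := ih fun i hi => h i (Finset.mem_insert_of_mem hi)
    rw [Finset.prod_insert ha, Finset.sum_insert ha, Finset.prod_insert ha]
    refine ⟨?_, ?_⟩
    · refine le_trans m.degree_mul_le ?_
      rw [map_add, map_add]
      exact add_le_add (h a (Finset.mem_insert_self a s)) ih1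
    · rw [m.coeff_mul_of_add_of_degree_le (h a (Finset.mem_insert_self a s)) ih1, ih2]

theorem coeff_det {σ R α : Type*} [CommRing R] [Fintype α] [DecidableEq α] (m : MonomialOrder σ)
    (γ : σ →₀ ℕ) (U : Matrix α α (MvPolynomial σ R))
    (h : ∀ i j, m.toSyn (m.degree (U i j)) ≤ m.toSyn γ) :
    coeff (∑ _i : α, γ) U.det = (U.map (coeff γ)).det := by
  rw [Matrix.det_apply, Matrix.det_apply, coeff_sum]
  refine Finset.sum_congr rfl fun π _ => ?_
  have h1 := (coeff_prod_of m γ Finset.univ (fun i => U (π i) i) fun i _ => h _ _).2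
  simp only [Matrix.map_apply]
  rw [← h1]
  rcases Int.units_eq_one_or (Equiv.Perm.sign π) with h2 | h2
  · rw [h2, one_smul, one_smul]
  · rw [h2]
    simp [Units.neg_smul]

theorem exists_lead {σ R α : Type*} [CommRing R] [Fintype α] (m : MonomialOrder σ)
    (v : α → MvPolynomial σ R) (hv : v ≠ 0) :
    ∃ (γ : σ →₀ ℕ) (p : α), coeff γ (v p) ≠ 0 ∧
      ∀ q δ, m.toSyn γ < m.toSyn δ → coeff δ (v q) = 0 := by
  classical
  let S : Finset (σ →₀ ℕ) := Finset.univ.biUnion fun p => (v p).support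
  have hS : S.Nonempty := by
    obtain ⟨p, hp⟩ := Function.ne_iff.mp hv
    obtain ⟨γ, hγ⟩ := support_nonempty.mpr hp
    exact ⟨γ, Finset.mem_biUnion.mpr ⟨p, Finset.mem_univ _, hγ⟩⟩
  obtain ⟨γ, hγ, hmax⟩ := Finset.exists_max_image S m.toSyn hS
  obtain ⟨p, -, hp⟩ := Finset.mem_biUnion.mp hγ
  refine ⟨γ, p, mem_support_iff.mp hp, fun q δ hδ => ?_⟩
  by_contra h
  have h1 := hmax δ (Finset.mem_biUnion.mpr ⟨q, Finset.mem_univ _, mem_support_iff.mpr h⟩)
  exact absurd hδ (not_lt.mpr h1)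

/-- the kernel vector with index `x` -/
noncomputable def kv (v : (Fin t → ZMod 2) × ι → MvPolynomial (Fin t ⊕ Fin t) F)
    (γ : Fin t ⊕ Fin t →₀ ℕ) (y x : Fin t → ZMod 2) :
    (Fin t → ZMod 2) × ι → MvPolynomial (Fin t ⊕ Fin t) F :=
  ∑ σ : Fin t → ZMod 2, ((sgn (σ ⬝ᵥ (x + par2 γ)) * sgn ((x + y) ⬝ᵥ par1 γ) : ℤ) :
    MvPolynomial (Fin t ⊕ Fin t) F) • tr (x + y) σ v

theorem gen_kv (v : (Fin t → ZMod 2) × ι → MvPolynomial (Fin t ⊕ Fin t) F)
    (γ : Fin t ⊕ Fin t →₀ ℕ) (y x : Fin t → ZMod 2) (hv : gen T B *ᵥ v = 0) :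
    gen T B *ᵥ kv v γ y x = 0 := by
  rw [kv, Matrix.mulVec_sum]
  refine Finset.sum_eq_zero fun σ _ => ?_
  rw [Matrix.mulVec_smul, gen_tr T B _ _ _ hv, smul_zero]

theorem coeff_kv (v : (Fin t → ZMod 2) × ι → MvPolynomial (Fin t ⊕ Fin t) F)
    (γ δ : Fin t ⊕ Fin t →₀ ℕ) (y x z : Fin t → ZMod 2) (a : ι) :
    coeff δ (kv v γ y x (z, a)) = ((∑ σ : Fin t → ZMod 2,
      sgn (σ ⬝ᵥ (x + par2 γ)) * sgn ((x + y) ⬝ᵥ par1 γ) * (sgn (σ ⬝ᵥ z) *
        (sgn ((x + y) ⬝ᵥ par1 δ) * sgn (σ ⬝ᵥ par2 δ))) : ℤ) : F) *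
        coeff δ (v (z + (x + y), a)) := by
  rw [kv, Finset.sum_apply, coeff_sum, Int.cast_sum, Finset.sum_mul]
  refine Finset.sum_congr rfl fun σ _ => ?_
  rw [Pi.smul_apply, smul_eq_mul, tr]
  simp only
  have h1 : ∀ (n : ℤ) (f : MvPolynomial (Fin t ⊕ Fin t) F),
      coeff δ ((n : MvPolynomial (Fin t ⊕ Fin t) F) * f) = (n : F) * coeff δ f := by
    intro n f
    rw [← map_intCast (C : F →+* MvPolynomial (Fin t ⊕ Fin t) F), coeff_C_mul]
  rw [h1, h1, coeff_flip]
  push_cast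
  ring

theorem coeff_kv_self (v : (Fin t → ZMod 2) × ι → MvPolynomial (Fin t ⊕ Fin t) F)
    (γ : Fin t ⊕ Fin t →₀ ℕ) (y x z : Fin t → ZMod 2) (a : ι) :
    coeff γ (kv v γ y x (z, a)) = if z = x then 2 ^ t * coeff γ (v (y, a)) else 0 := by
  rw [coeff_kv]
  have h1 : ∑ σ : Fin t → ZMod 2,
      sgn (σ ⬝ᵥ (x + par2 γ)) * sgn ((x + y) ⬝ᵥ par1 γ) * (sgn (σ ⬝ᵥ z) *
        (sgn ((x + y) ⬝ᵥ par1 γ) * sgn (σ ⬝ᵥ par2 γ))) =
      ∑ σ : Fin t → ZMod 2, sgn (σ ⬝ᵥ (x + z)) := by
    refine Finset.sum_congr rfl fun σ _ => ?_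
    have e1 := sgn_mul_self ((x + y) ⬝ᵥ par1 γ)
    have e2 := sgn_mul_self (σ ⬝ᵥ par2 γ)
    rw [dotProduct_add, dotProduct_add, Op.S7Aux.sgn_add, Op.S7Aux.sgn_add]
    generalize sgn ((x + y) ⬝ᵥ par1 γ) = p at *
    generalize sgn (σ ⬝ᵥ par2 γ) = q at *
    generalize sgn (σ ⬝ᵥ x) = r at *
    generalize sgn (σ ⬝ᵥ z) = s at *
    calc r * q * p * (s * (p * q)) = r * s * (p * p) * (q * q) := by ring
      _ = r * s := by rw [e1, e2]; ring
  rw [h1, sum_sgn]
  by_cases h : z = x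
  · rw [if_pos h, h, add_self_vec, if_pos rfl, ← add_assoc, add_self_vec, zero_add]
    push_cast
    rfl
  · rw [if_neg h]
    have h2 : ¬ x + z = 0 := by
      intro h3
      apply h
      have := congrArg (fun w => x + w) h3
      simp only [← add_assoc, add_self_vec, zero_add, add_zero] at this
      exact this
    rw [if_neg h2, Int.cast_zero, zero_mul]

theorem rank_of_det_ne_zero {K : Type*} [Field K] {α : Type*} [Fintype α] [DecidableEq α]
    (A : Matrix α α K) (h : A.det ≠ 0) : A.rank = Fintype.card α :=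
  Matrix.rank_of_isUnit A ((Matrix.isUnit_iff_isUnit_det A).mpr (isUnit_iff_ne_zero.mpr h))

/-- the rank does not increase under specialisation -/
theorem rank_specialise {R K L α : Type*} [CommRing R] [IsDomain R] [Field K] [Algebra R K]
    [IsFractionRing R K] [Field L] [Fintype α] [DecidableEq α] (f : R →+* L) (M : Matrix α α R) :
    (M.map f).rank ≤ (M.map (algebraMap R K)).rank := by
  obtain ⟨a, b, hab⟩ := exists_minor (M.map f)
  have h1 : f ((M.submatrix a b).det) ≠ 0 := by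
    rw [RingHom.map_det]
    exact hab
  have h2 : (M.submatrix a b).det ≠ 0 := by
    intro h
    rw [h, map_zero] at h1
    exact h1 rfl
  have h3 : (((M.map (algebraMap R K)).submatrix a b).det) ≠ 0 := by
    have : ((M.map (algebraMap R K)).submatrix a b).det =
        algebraMap R K ((M.submatrix a b).det) := by
      rw [RingHom.map_det]
      rfl
    rw [this]
    intro h
    exact h2 ((IsFractionRing.injective R K) (by rw [h, map_zero]))
  have h4 := rank_of_det_ne_zero _ h3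
  have h5 := Matrix.rank_submatrix_le (M.map (algebraMap R K)) a b
  rw [Fintype.card_fin] at h4
  omega

theorem corank [CharZero F] [DecidableEq ι] (K : Type*) [Field K]
    [Algebra (MvPolynomial (Fin t ⊕ Fin t) F) K]
    [IsFractionRing (MvPolynomial (Fin t ⊕ Fin t) F) K] (hdet : (gen T B).det = 0) :
    ((gen T B).map (algebraMap (MvPolynomial (Fin t ⊕ Fin t) F) K)).rank + 2 ^ t ≤
      2 ^ t * Fintype.card ι := by
  classical
  obtain ⟨v, hv, hMv⟩ := Matrix.exists_mulVec_eq_zero_iff.mpr hdet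
  obtain ⟨m⟩ := exists_order (Fin t ⊕ Fin t)
  obtain ⟨γ, ⟨y, a⟩, hγ, hmax⟩ := exists_lead m v hv
  let U : Matrix (Fin t → ZMod 2) (Fin t → ZMod 2) (MvPolynomial (Fin t ⊕ Fin t) F) :=
    fun z x => kv v γ y x (z, a)
  have hdeg : ∀ z x, m.toSyn (m.degree (U z x)) ≤ m.toSyn γ := by
    intro z x
    refine degree_le_of m γ _ fun δ hδ => ?_
    rw [coeff_kv, hmax _ δ hδ, mul_zero]
  have hU : U.det ≠ 0 := by
    intro h0
    have h1 := coeff_det m γ U hdeg
    rw [h0, coeff_zero] at h1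
    have h2 : U.map (coeff γ) = Matrix.diagonal fun _ => 2 ^ t * coeff γ (v (y, a)) := by
      ext z x
      rw [Matrix.map_apply, Matrix.diagonal_apply, coeff_kv_self]
    rw [h2, Matrix.det_diagonal, Finset.prod_const] at h1
    have h3 : (2 ^ t * coeff γ (v (y, a)) : F) ≠ 0 := mul_ne_zero (pow_ne_zero _ two_ne_zero) hγ
    exact pow_ne_zero _ h3 h1.symm
  let ψ := algebraMap (MvPolynomial (Fin t ⊕ Fin t) F) K
  have hψ : Function.Injective ψ := IsFractionRing.injective _ _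
  have hUK : (U.map ψ).det ≠ 0 := by
    have : (U.map ψ).det = ψ U.det := by
      rw [RingHom.map_det]
      rfl
    rw [this]
    intro h
    exact hU (hψ (by rw [h, map_zero]))
  have hli := Matrix.linearIndependent_cols_of_det_ne_zero hUK
  let w : (Fin t → ZMod 2) → ((Fin t → ZMod 2) × ι → K) := fun x p => ψ (kv v γ y x p)
  have hw : ∀ x, w x ∈ LinearMap.ker ((gen T B).map ψ).mulVecLin := by
    intro x
    rw [LinearMap.mem_ker, Matrix.mulVecLin_apply]
    have h1 := gen_kv T B v γ y x hMv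
    have h2 : (gen T B).map ψ *ᵥ w x = fun p => ψ ((gen T B *ᵥ kv v γ y x) p) := by
      ext1 p
      rw [RingHom.map_mulVec]
      rfl
    rw [h2, h1]
    ext1 p
    exact map_zero ψ
  let P : ((Fin t → ZMod 2) × ι → K) →ₗ[K] ((Fin t → ZMod 2) → K) :=
    LinearMap.funLeft K K fun z => (z, a)
  have hwli : LinearIndependent K w := by
    refine LinearIndependent.of_comp P ?_
    exact hli
  have hwli' : LinearIndependent K fun x =>
      (⟨w x, hw x⟩ : LinearMap.ker ((gen T B).map ψ).mulVecLin) := by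
    refine LinearIndependent.of_comp (Submodule.subtype _) ?_
    exact hwli
  have h1 := hwli'.fintype_card_le_finrank
  have h2 := LinearMap.finrank_range_add_finrank_ker ((gen T B).map ψ).mulVecLin
  rw [Module.finrank_fintype_fun_eq_card, Fintype.card_prod] at h2
  have h3 : Fintype.card (Fin t → ZMod 2) = 2 ^ t := by
    rw [Fintype.card_fun, ZMod.card, Fintype.card_fin]
  have h4 : ((gen T B).map ψ).rank =
    finrank K (LinearMap.range ((gen T B).map ψ).mulVecLin) := rfl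
  change ((gen T B).map ψ).rank + 2 ^ t ≤ _
  rw [h3] at h2
  have h5 : 2 ^ t ≤ finrank K (LinearMap.ker ((gen T B).map ψ).mulVecLin) := by
    rw [← h3]
    exact h1
  omega

theorem degreeOf_tw (j : Fin t ⊕ Fin t) (T : Matrix (Fin t → ZMod 2) (Fin t → ZMod 2) ℤ)
    (x y : Fin t → ZMod 2) :
    degreeOf j (tw (fun i => (X (Sum.inl i) : MvPolynomial (Fin t ⊕ Fin t) F))
      (fun i => X (Sum.inr i)) T x y) ≤ 1 := by
  classical
  have hint : ∀ n : ℤ, degreeOf j ((n : ℤ) : MvPolynomial (Fin t ⊕ Fin t) F) = 0 := by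
    intro n
    rw [← map_intCast (C : F →+* MvPolynomial (Fin t ⊕ Fin t) F), degreeOf_C]
  have hX : ∀ i, degreeOf j (X i : MvPolynomial (Fin t ⊕ Fin t) F) = if j = i then 1 else 0 := by
    intro i
    exact degreeOf_X j i
  have h1 : ∀ z : Fin t → ZMod 2, degreeOf j (∏ i, (1 + ((sgn (x i + z i) : ℤ) :
      MvPolynomial (Fin t ⊕ Fin t) F) * X (Sum.inl i))) ≤ ∑ i, if j = Sum.inl i then 1 else 0 := by
    intro z
    refine (degreeOf_prod_le _ _ _).trans (Finset.sum_le_sum fun i _ => ?_)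
    refine (degreeOf_add_le _ _ _).trans (max_le ?_ ?_)
    · rw [← C_1, degreeOf_C]
      exact Nat.zero_le _
    · refine (degreeOf_mul_le _ _ _).trans ?_
      rw [hint, hX, zero_add]
  have h2 : degreeOf j (∏ i, if x i = y i then (1 : MvPolynomial (Fin t ⊕ Fin t) F)
      else X (Sum.inr i)) ≤ ∑ i, if j = Sum.inr i then 1 else 0 := by
    refine (degreeOf_prod_le _ _ _).trans (Finset.sum_le_sum fun i _ => ?_)
    split_ifs with h3 h4 h4
    · rw [← C_1, degreeOf_C]
      exact Nat.zero_le _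
    · rw [← C_1, degreeOf_C]
    · rw [hX, if_pos h4]
    · rw [hX, if_neg h4]
  rw [tw]
  refine (degreeOf_mul_le _ _ _).trans ?_
  have h3 : degreeOf j (∑ z, (∏ i, (1 + ((sgn (x i + z i) : ℤ) :
      MvPolynomial (Fin t ⊕ Fin t) F) * X (Sum.inl i))) * ((T z (z + x + y) : ℤ) :
        MvPolynomial (Fin t ⊕ Fin t) F)) ≤ ∑ i, if j = Sum.inl i then 1 else 0 := by
    refine (degreeOf_sum_le _ _ _).trans (Finset.sup_le fun z _ => ?_)
    refine (degreeOf_mul_le _ _ _).trans ?_
    rw [hint, add_zero]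
    exact h1 z
  refine (add_le_add h3 h2).trans ?_
  rcases j with j | j
  · simp
  · simp

theorem degreeOf_gen (j : Fin t ⊕ Fin t) (p q : (Fin t → ZMod 2) × ι) :
    degreeOf j (gen T B p q) ≤ 1 := by
  rw [gen, big]
  refine (degreeOf_sum_le _ _ _).trans (Finset.sup_le fun k _ => ?_)
  refine (degreeOf_mul_le _ _ _).trans ?_
  rw [Matrix.map_apply, degreeOf_C, add_zero]
  exact degreeOf_tw j _ _ _

theorem degreeOf_det {σ R α : Type*} [CommRing R] [Fintype α] [DecidableEq α] (j : σ)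
    (M : Matrix α α (MvPolynomial σ R)) (h : ∀ p q, degreeOf j (M p q) ≤ 1) :
    degreeOf j M.det ≤ Fintype.card α := by
  rw [Matrix.det_apply]
  refine (degreeOf_sum_le _ _ _).trans (Finset.sup_le fun π _ => ?_)
  have h1 : degreeOf j (∏ i, M (π i) i) ≤ Fintype.card α := by
    refine (degreeOf_prod_le _ _ _).trans ?_
    refine (Finset.sum_le_sum fun i _ => h (π i) i).trans ?_
    simp
  rcases Int.units_eq_one_or (Equiv.Perm.sign π) with h2 | h2
  · rw [h2, one_smul]
    exact h1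
  · rw [h2, Units.neg_smul, one_smul, degreeOf_neg]
    exact h1

end Big

end Hit

open Hit in
/-- NC-HIT: if `rank (∑ T_k ⊗ B_k) > (n - 1) 2 ^ t` then some twist of the tuple `T` with small
parameters makes the determinant nonzero -/
theorem hit {F : Type*} [Field F] [CharZero F] {t n m : ℕ}
    (T : Fin m → Matrix (Fin t → ZMod 2) (Fin t → ZMod 2) ℤ) (B : Fin m → Matrix (Fin n) (Fin n) F)
    (h : (n - 1) * 2 ^ t <
      (∑ k, kroneckerMap (· * ·) ((T k).map fun z : ℤ => (z : F)) (B k)).rank) :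
    ∃ c e : Fin t → ℕ, (∀ i, c i ≤ n * 2 ^ t) ∧ (∀ i, e i ≤ n * 2 ^ t) ∧
      (∑ k, kroneckerMap (· * ·) ((twist (fun i => (c i : ℤ)) (fun i => (e i : ℤ))
        (T k)).map fun z : ℤ => (z : F)) (B k)).det ≠ 0 := by
  classical
  have hcard : Fintype.card ((Fin t → ZMod 2) × Fin n) = n * 2 ^ t := by
    rw [Fintype.card_prod, Fintype.card_fun, ZMod.card, Fintype.card_fin, Fintype.card_fin,
      mul_comm]
  -- evaluation of the generic twist
  have hbig : ∀ c e : Fin t → ℤ, ∀ x : Fin t ⊕ Fin t → F, (∀ i, x (Sum.inl i) = (c i : F)) →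
      (∀ i, x (Sum.inr i) = (e i : F)) →
      (gen T B).map (eval x) =
        ∑ k, kroneckerMap (· * ·) ((twist c e (T k)).map fun z : ℤ => (z : F)) (B k) := by
    intro c e x hc he
    have h1 : (gen T B).map (eval x) = big (fun i => (c i : F)) (fun i => (e i : F)) T B := by
      rw [gen, big_map]
      congr 1
      · ext1 i
        rw [eval_X, hc]
      · ext1 i
        rw [eval_X, he]
      · ext1 k
        ext i j
        rw [Matrix.map_apply, Matrix.map_apply, eval_C]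
    rw [h1]
    ext p q
    rw [big, Matrix.sum_apply]
    refine Finset.sum_congr rfl fun k _ => ?_
    rw [kroneckerMap_apply, Matrix.map_apply, tw_int]
    have h2 := tw_hom (Int.castRingHom F) c e (T k) p.1 q.1
    rw [show ((tw c e (T k) p.1 q.1 : ℤ) : F) = Int.castRingHom F (tw c e (T k) p.1 q.1) from rfl,
      h2]
    rfl
  have hdet : (gen T B).det ≠ 0 := by
    intro h0
    have h1 := corank T B (FractionRing (MvPolynomial (Fin t ⊕ Fin t) F)) h0
    have h2 := rank_specialise (K := FractionRing (MvPolynomial (Fin t ⊕ Fin t) F))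
      (eval fun _ => (1 : F)) (gen T B)
    have h3 : (gen T B).map (eval fun _ => (1 : F)) = (2 ^ t : F) •
        ∑ k, kroneckerMap (· * ·) ((T k).map fun z : ℤ => (z : F)) (B k) := by
      rw [hbig (fun _ => 1) (fun _ => 1) _ (fun i => by simp) fun i => by simp, Finset.smul_sum]
      refine Finset.sum_congr rfl fun k _ => ?_
      ext p q
      rw [Matrix.smul_apply, kroneckerMap_apply, kroneckerMap_apply, Matrix.map_apply,
        Matrix.map_apply, tw_int, tw_one, smul_eq_mul]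
      push_cast
      ring
    have h4 : ((2 ^ t : F) •
        ∑ k, kroneckerMap (· * ·) ((T k).map fun z : ℤ => (z : F)) (B k)).rank =
        (∑ k, kroneckerMap (· * ·) ((T k).map fun z : ℤ => (z : F)) (B k)).rank := by
      have h5 : IsUnit ((2 ^ t : F) • (1 : Matrix ((Fin t → ZMod 2) × Fin n)
          ((Fin t → ZMod 2) × Fin n) F)).det := by
        rw [Matrix.det_smul, Matrix.det_one, mul_one]
        exact isUnit_iff_ne_zero.mpr (pow_ne_zero _ (pow_ne_zero _ two_ne_zero))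
      have h6 := Matrix.rank_mul_eq_right_of_isUnit_det _
        (∑ k, kroneckerMap (· * ·) ((T k).map fun z : ℤ => (z : F)) (B k)) h5
      rw [Matrix.smul_mul, Matrix.one_mul] at h6
      exact h6
    rw [h3, h4] at h2
    rw [Fintype.card_fin] at h1
    have h5 := h.trans_le h2
    generalize ((gen T B).map (algebraMap (MvPolynomial (Fin t ⊕ Fin t) F)
      (FractionRing (MvPolynomial (Fin t ⊕ Fin t) F)))).rank = ρ at h1 h5
    rcases Nat.eq_zero_or_pos n with hn | hn
    · have h7 : 2 ^ t * n = 0 := by rw [hn, mul_zero]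
      have := Nat.pos_of_ne_zero (pow_ne_zero t (two_ne_zero : (2 : ℕ) ≠ 0))
      omega
    · have h6 : (n - 1) * 2 ^ t + 2 ^ t = 2 ^ t * n := by
        obtain ⟨n', rfl⟩ := Nat.exists_eq_succ_of_ne_zero hn.ne'
        rw [Nat.succ_sub_one, Nat.succ_eq_add_one]
        ring
      omega
  by_contra hcon
  apply hdet
  refine eq_zero_of_eval_zero_at_prod_finset _
    (fun _ => (Finset.range (n * 2 ^ t + 1)).image fun i : ℕ => (i : F)) ?_ ?_
  · intro j
    rw [Finset.card_image_of_injective _ Nat.cast_injective, Finset.card_range]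
    have h1 := degreeOf_det j (gen T B) fun p q => degreeOf_gen T B j p q
    rw [hcard] at h1
    omega
  · intro x hx
    have hx' : ∀ i, ∃ a : ℕ, a ≤ n * 2 ^ t ∧ (a : F) = x i := by
      intro i
      obtain ⟨a, ha, hax⟩ := Finset.mem_image.mp (hx i)
      exact ⟨a, by have := Finset.mem_range.mp ha; omega, hax⟩
    choose a ha hax using hx'
    by_contra h1
    apply hcon
    refine ⟨fun i => a (Sum.inl i), fun i => a (Sum.inr i), fun i => ha _, fun i => ha _, ?_⟩
    rw [← hbig (fun i => (a (Sum.inl i) : ℤ)) (fun i => (a (Sum.inr i) : ℤ)) x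
      (fun i => by rw [← hax]; push_cast; rfl) fun i => by rw [← hax]; push_cast; rfl]
    have h2 : ((gen T B).map (eval x)).det = eval x (gen T B).det := by
      rw [RingHom.map_det]
      rfl
    rw [h2]
    exact h1

end Pool.Agent.Lib.MP_64d474_lc.Nc
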