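import Pool.Agent.Lib.MP_64d474_lc.Nc.Stmts
import Pool.Agent.Lib.MP_64d474_lc.Op.S7

set_option autoImplicit false

/-! NC-ERR: the signed translations from a small-bias set are a quantum expander. -/

open Matrix Module

namespace Pool.Agent.Lib.MP_64d474_lc.Nc

open Pool.Agent.Lib.MP_64d474_lc.Op (fro sgn)

namespace ErrAux

open Pool.Agent.Lib.MP_64d474_lc.Op.S7Aux (sgn_add sgn_zero zmod2)

variable {t : ℕ}

/-- the sign as a complex number -/
noncomputable def cs (x : ZMod 2) : ℂ := ((sgn x : ℤ) : ℂ)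

theorem cs_add (a b : ZMod 2) : cs (a + b) = cs a * cs b := by
  unfold cs
  rw [sgn_add]
  push_cast
  rfl

theorem cs_zero : cs 0 = 1 := by simp [cs, sgn_zero]

theorem cs_one : cs 1 = -1 := by
  unfold cs sgn
  simp

theorem conj_cs (a : ZMod 2) : (starRingEnd ℂ) (cs a) = cs a := by
  unfold cs
  simp

theorem sum_cs (x : Fin t → ZMod 2) :
    ∑ b : Fin t → ZMod 2, cs (b ⬝ᵥ x) = if x = 0 then (2 : ℂ) ^ t else 0 := by
  split_ifs with h
  · subst h
    simp [cs_zero]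
  · obtain ⟨i, hi⟩ := Function.ne_iff.1 h
    have hc : (Pi.single i 1 : Fin t → ZMod 2) ⬝ᵥ x = 1 := by
      simp [zmod2 (x i) hi]
    have h1 : ∑ b : Fin t → ZMod 2, cs (b ⬝ᵥ x) = ∑ b : Fin t → ZMod 2, -cs (b ⬝ᵥ x) := by
      rw [← Equiv.sum_comp (Equiv.addRight (Pi.single i 1 : Fin t → ZMod 2))]
      refine Finset.sum_congr rfl fun b _ => ?_
      rw [Equiv.coe_addRight, add_dotProduct, hc, cs_add, cs_one]
      ring
    rw [Finset.sum_neg_distrib] at h1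
    exact self_eq_neg.1 h1

/-- the Fourier transform -/
noncomputable def ft (f : (Fin t → ZMod 2) → ℂ) (b : Fin t → ZMod 2) : ℂ :=
  ∑ x, cs (b ⬝ᵥ x) * f x

theorem add_self (x : Fin t → ZMod 2) : x + x = 0 := by
  funext i
  exact CharTwo.add_self_eq_zero (x i)

theorem zero_iff (τ x y : Fin t → ZMod 2) : τ + x + y = 0 ↔ y = x + τ := by
  constructor
  · intro h
    have : x + τ + (τ + x + y) = x + τ := by rw [h, add_zero]
    rw [← this]
    have e : x + τ + (τ + x + y) = (x + x) + (τ + τ) + y := by ring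
    rw [e, add_self, add_self]
    simp
  · rintro rfl
    have e : τ + x + (x + τ) = (x + x) + (τ + τ) := by ring
    rw [e, add_self, add_self]
    simp

theorem conv (f g : (Fin t → ZMod 2) → ℂ) (τ : Fin t → ZMod 2) :
    ∑ b, cs (b ⬝ᵥ τ) * (ft f b * ft g b) = 2 ^ t * ∑ x, f x * g (x + τ) := by
  have h1 : ∀ b : Fin t → ZMod 2, cs (b ⬝ᵥ τ) * (ft f b * ft g b) =
      ∑ x, ∑ y, cs (b ⬝ᵥ (τ + x + y)) * (f x * g y) := by
    intro b
    unfold ft
    rw [Finset.sum_mul_sum, Finset.mul_sum]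
    refine Finset.sum_congr rfl fun x _ => ?_
    rw [Finset.mul_sum]
    refine Finset.sum_congr rfl fun y _ => ?_
    rw [dotProduct_add, dotProduct_add, cs_add, cs_add]
    ring
  simp_rw [h1]
  rw [Finset.sum_comm, Finset.mul_sum]
  refine Finset.sum_congr rfl fun x _ => ?_
  rw [Finset.sum_comm]
  simp_rw [← Finset.sum_mul, sum_cs, zero_iff]
  simp

theorem ft_conj (f : (Fin t → ZMod 2) → ℂ) (b : Fin t → ZMod 2) :
    ft (fun x => (starRingEnd ℂ) (f x)) b = (starRingEnd ℂ) (ft f b) := by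
  unfold ft
  rw [map_sum]
  refine Finset.sum_congr rfl fun x _ => ?_
  rw [map_mul, conj_cs]

theorem parseval (f : (Fin t → ZMod 2) → ℂ) :
    ∑ b, ‖ft f b‖ ^ 2 = 2 ^ t * ∑ x, ‖f x‖ ^ 2 := by
  have h := conv f (fun x => (starRingEnd ℂ) (f x)) 0
  simp only [dotProduct_zero, cs_zero, one_mul, ft_conj, add_zero, Complex.mul_conj'] at h
  exact_mod_cast h

variable {S : Type} [Fintype S] (v : S → Fin t → ZMod 2) (δ : ℝ)

/-- the sum of the signs -/
noncomputable def bs (b : Fin t → ZMod 2) : ℂ := ∑ s, cs (b ⬝ᵥ v s)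

theorem bs_zero : bs v 0 = (Fintype.card S : ℂ) := by
  simp [bs, cs_zero]

theorem bs_le (hv : Bias v δ) (b : Fin t → ZMod 2) (hb : b ≠ 0) :
    ‖bs v b‖ ≤ δ * Fintype.card S := by
  have h := hv b hb
  have e : bs v b = ((∑ s, sgn (b ⬝ᵥ v s) : ℤ) : ℂ) := by
    unfold bs cs
    push_cast
    rfl
  rw [e]
  rw [Complex.norm_intCast]
  exact h

theorem four (hv : Bias v δ) (hδ : 0 ≤ δ) (f g : (Fin t → ZMod 2) → ℂ) :
    ‖∑ s, ∑ x, f x * g (x + v s) -
        (Fintype.card S : ℂ) / 2 ^ t * ((∑ x, f x) * ∑ x, g x)‖ ≤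
      δ * Fintype.card S * (Real.sqrt (∑ x, ‖f x‖ ^ 2) * Real.sqrt (∑ x, ‖g x‖ ^ 2)) := by
  have h2 : (2 : ℂ) ^ t ≠ 0 := pow_ne_zero _ two_ne_zero
  have h2r : (0 : ℝ) < 2 ^ t := by positivity
  have e1 : (2 : ℂ) ^ t * ∑ s, ∑ x, f x * g (x + v s) = ∑ b, bs v b * (ft f b * ft g b) := by
    rw [Finset.mul_sum]
    simp_rw [← conv]
    rw [Finset.sum_comm]
    refine Finset.sum_congr rfl fun b _ => ?_
    unfold bs
    rw [Finset.sum_mul]
  have e0 : ∀ h : (Fin t → ZMod 2) → ℂ, ft h 0 = ∑ x, h x := by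
    intro h
    simp [ft, cs_zero]
  have e2 : ∑ b, bs v b * (ft f b * ft g b) = (Fintype.card S : ℂ) * ((∑ x, f x) * ∑ x, g x) +
      ∑ b ∈ Finset.univ.erase 0, bs v b * (ft f b * ft g b) := by
    rw [← Finset.add_sum_erase _ _ (Finset.mem_univ (0 : Fin t → ZMod 2)), bs_zero, e0, e0]
  have e3 : ∑ s, ∑ x, f x * g (x + v s) -
      (Fintype.card S : ℂ) / 2 ^ t * ((∑ x, f x) * ∑ x, g x) =
      (∑ b ∈ Finset.univ.erase 0, bs v b * (ft f b * ft g b)) / 2 ^ t := by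
    rw [eq_div_iff h2, sub_mul]
    have : (Fintype.card S : ℂ) / 2 ^ t * ((∑ x, f x) * ∑ x, g x) * 2 ^ t =
        (Fintype.card S : ℂ) * ((∑ x, f x) * ∑ x, g x) := by
      field_simp
    rw [this, mul_comm _ ((2 : ℂ) ^ t), e1, e2]
    ring
  rw [e3, norm_div, norm_pow, Complex.norm_ofNat, div_le_iff₀ h2r]
  have e4 : ‖∑ b ∈ Finset.univ.erase 0, bs v b * (ft f b * ft g b)‖ ≤
      ∑ b, δ * Fintype.card S * (‖ft f b‖ * ‖ft g b‖) := by
    refine (norm_sum_le _ _).trans ?_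
    refine (Finset.sum_le_sum fun b hb => ?_).trans
      (Finset.sum_le_sum_of_subset_of_nonneg (Finset.erase_subset 0 Finset.univ)
        fun b _ _ => by positivity)
    rw [norm_mul, norm_mul]
    exact mul_le_mul_of_nonneg_right (bs_le v δ hv b (Finset.ne_of_mem_erase hb))
      (by positivity)
  have e5 : ∑ b, ‖ft f b‖ * ‖ft g b‖ ≤
      2 ^ t * (Real.sqrt (∑ x, ‖f x‖ ^ 2) * Real.sqrt (∑ x, ‖g x‖ ^ 2)) := by
    refine (Real.sum_mul_le_sqrt_mul_sqrt _ _ _).trans ?_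
    rw [parseval, parseval, Real.sqrt_mul (by positivity), Real.sqrt_mul (by positivity)]
    have : Real.sqrt (2 ^ t) * Real.sqrt (2 ^ t) = 2 ^ t := Real.mul_self_sqrt (by positivity)
    calc _ = (Real.sqrt (2 ^ t) * Real.sqrt (2 ^ t)) *
        (Real.sqrt (∑ x, ‖f x‖ ^ 2) * Real.sqrt (∑ x, ‖g x‖ ^ 2)) := by ring
      _ ≤ _ := by rw [this]
  refine e4.trans ?_
  rw [← Finset.mul_sum]
  refine (mul_le_mul_of_nonneg_left e5 (by positivity)).trans ?_
  apply le_of_eq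
  ring

/-! ### The trace -/

variable {n : ℕ}

theorem lif_apply (σ τ : Fin t → ZMod 2) (p q : (Fin t → ZMod 2) × Fin n) :
    lif (cwop σ τ) p q = if q = (p.1 + τ, p.2) then cs (σ ⬝ᵥ p.1) else 0 := by
  have h0 : lif (cwop σ τ) p q =
      (((if q.1 = p.1 + τ then sgn (σ ⬝ᵥ p.1) else 0 : ℤ)) : ℂ) * (if p.2 = q.2 then 1 else 0) := by
    rw [← Matrix.one_apply]
    rfl
  rw [h0]
  unfold cs
  by_cases h1 : q.1 = p.1 + τ
  · by_cases h2 : p.2 = q.2
    · have : q = (p.1 + τ, p.2) := Prod.ext h1 h2.symm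
      rw [if_pos h1, if_pos h2, if_pos this, mul_one]
    · have : ¬ q = (p.1 + τ, p.2) := fun h => h2 (by rw [h])
      rw [if_neg h2, if_neg this, mul_zero]
  · have : ¬ q = (p.1 + τ, p.2) := fun h => h1 (by rw [h])
    rw [if_neg h1, if_neg this]
    push_cast
    rw [zero_mul]

theorem left_apply (σ τ : Fin t → ZMod 2)
    (P : Matrix ((Fin t → ZMod 2) × Fin n) ((Fin t → ZMod 2) × Fin n) ℂ)
    (p r : (Fin t → ZMod 2) × Fin n) :
    ((lif (cwop σ τ) * P : Matrix ((Fin t → ZMod 2) × Fin n) ((Fin t → ZMod 2) × Fin n) ℂ)) p r =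
      cs (σ ⬝ᵥ p.1) * P (p.1 + τ, p.2) r := by
  rw [Matrix.mul_apply]
  simp_rw [lif_apply]
  rw [Finset.sum_eq_single ((p.1 + τ, p.2) : (Fin t → ZMod 2) × Fin n)]
  · rw [if_pos rfl]
  · intro b _ hb
    rw [if_neg hb, zero_mul]
  · intro h
    exact absurd (Finset.mem_univ _) h

theorem conj_apply (σ τ : Fin t → ZMod 2)
    (P : Matrix ((Fin t → ZMod 2) × Fin n) ((Fin t → ZMod 2) × Fin n) ℂ)
    (p q : (Fin t → ZMod 2) × Fin n) :
    ((lif (cwop σ τ) * P * (lif (cwop σ τ))ᴴ :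
      Matrix ((Fin t → ZMod 2) × Fin n) ((Fin t → ZMod 2) × Fin n) ℂ)) p q =
      cs (σ ⬝ᵥ (p.1 + q.1)) * P (p.1 + τ, p.2) (q.1 + τ, q.2) := by
  rw [Matrix.mul_apply]
  simp_rw [left_apply, Matrix.conjTranspose_apply, lif_apply]
  rw [Finset.sum_eq_single ((q.1 + τ, q.2) : (Fin t → ZMod 2) × Fin n)]
  · rw [if_pos rfl, dotProduct_add, cs_add]
    have : star (cs (σ ⬝ᵥ q.1)) = cs (σ ⬝ᵥ q.1) := conj_cs _
    rw [this]
    ring
  · intro b _ hb
    rw [if_neg hb]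
    simp
  · intro h
    exact absurd (Finset.mem_univ _) h

theorem trace_apply (σ τ : Fin t → ZMod 2)
    (P Q : Matrix ((Fin t → ZMod 2) × Fin n) ((Fin t → ZMod 2) × Fin n) ℂ) :
    (Q * (lif (cwop σ τ) * P * (lif (cwop σ τ))ᴴ)).trace =
      ∑ q, ∑ p, Q q p * (cs (σ ⬝ᵥ (p.1 + q.1)) * P (p.1 + τ, p.2) (q.1 + τ, q.2)) := by
  rw [Matrix.trace]
  refine Finset.sum_congr rfl fun q _ => ?_
  rw [Matrix.diag_apply, Matrix.mul_apply]
  refine Finset.sum_congr rfl fun p _ => ?_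
  rw [conj_apply]

/-- the diagonal part of the sum -/
noncomputable def dg
    (P Q : Matrix ((Fin t → ZMod 2) × Fin n) ((Fin t → ZMod 2) × Fin n) ℂ) : ℂ :=
  ∑ q, ∑ p, Q q p * ((if p.1 = q.1 then (Fintype.card S : ℂ) else 0) *
    ∑ s', P (p.1 + v s', p.2) (q.1 + v s', q.2))

theorem sum_trace (P Q : Matrix ((Fin t → ZMod 2) × Fin n) ((Fin t → ZMod 2) × Fin n) ℂ) :
    ∑ s, ∑ s', (Q * (lif (cwop (v s) (v s')) * P * (lif (cwop (v s) (v s')))ᴴ)).trace =
      ∑ q, ∑ p, Q q p * (bs v (p.1 + q.1) *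
        ∑ s', P (p.1 + v s', p.2) (q.1 + v s', q.2)) := by
  simp_rw [trace_apply]
  have h : ∀ q p : (Fin t → ZMod 2) × Fin n, Q q p * (bs v (p.1 + q.1) *
      ∑ s', P (p.1 + v s', p.2) (q.1 + v s', q.2)) = ∑ s, ∑ s', Q q p *
      (cs (v s ⬝ᵥ (p.1 + q.1)) * P (p.1 + v s', p.2) (q.1 + v s', q.2)) := by
    intro q p
    unfold bs
    rw [Finset.sum_mul_sum, Finset.mul_sum]
    refine Finset.sum_congr rfl fun s _ => ?_
    rw [Finset.mul_sum]
    refine Finset.sum_congr rfl fun s' _ => ?_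
    rw [dotProduct_comm]
  simp_rw [h]
  calc _ = ∑ s, ∑ q, ∑ s', ∑ p, Q q p *
      (cs (v s ⬝ᵥ (p.1 + q.1)) * P (p.1 + v s', p.2) (q.1 + v s', q.2)) :=
        Finset.sum_congr rfl fun s _ => Finset.sum_comm
    _ = ∑ q, ∑ s, ∑ s', ∑ p, Q q p *
      (cs (v s ⬝ᵥ (p.1 + q.1)) * P (p.1 + v s', p.2) (q.1 + v s', q.2)) := Finset.sum_comm
    _ = ∑ q, ∑ s, ∑ p, ∑ s', Q q p *
      (cs (v s ⬝ᵥ (p.1 + q.1)) * P (p.1 + v s', p.2) (q.1 + v s', q.2)) :=
        Finset.sum_congr rfl fun q _ => Finset.sum_congr rfl fun s _ => Finset.sum_comm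
    _ = _ := Finset.sum_congr rfl fun q _ => Finset.sum_comm

/-- the shift of both coordinates preserves the Frobenius norm -/
theorem fro_shift (P : Matrix ((Fin t → ZMod 2) × Fin n) ((Fin t → ZMod 2) × Fin n) ℂ)
    (τ : Fin t → ZMod 2) :
    ∑ q : (Fin t → ZMod 2) × Fin n, ∑ p : (Fin t → ZMod 2) × Fin n,
      ‖P (p.1 + τ, p.2) (q.1 + τ, q.2)‖ ^ 2 = fro P := by
  unfold fro
  rw [Finset.sum_comm]
  let e : (Fin t → ZMod 2) × Fin n ≃ (Fin t → ZMod 2) × Fin n :=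
    (Equiv.addRight τ).prodCongr (Equiv.refl _)
  rw [← Equiv.sum_comp e (fun p => ∑ q, ‖P p q‖ ^ 2)]
  refine Finset.sum_congr rfl fun p _ => ?_
  rw [← Equiv.sum_comp e (fun q => ‖P (e p) q‖ ^ 2)]
  rfl

theorem off_le (hv : Bias v δ) (hδ : 0 ≤ δ)
    (P Q : Matrix ((Fin t → ZMod 2) × Fin n) ((Fin t → ZMod 2) × Fin n) ℂ) :
    ‖∑ q, ∑ p, Q q p * (bs v (p.1 + q.1) *
        ∑ s', P (p.1 + v s', p.2) (q.1 + v s', q.2)) - dg v P Q‖ ≤
      δ * (Fintype.card S : ℝ) ^ 2 * (Real.sqrt (fro Q) * Real.sqrt (fro P)) := by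
  unfold dg
  rw [← Finset.sum_sub_distrib]
  have h1 : ∀ q p : (Fin t → ZMod 2) × Fin n,
      ‖Q q p * (bs v (p.1 + q.1) * ∑ s', P (p.1 + v s', p.2) (q.1 + v s', q.2)) -
        Q q p * ((if p.1 = q.1 then (Fintype.card S : ℂ) else 0) *
          ∑ s', P (p.1 + v s', p.2) (q.1 + v s', q.2))‖ ≤
        ∑ s', δ * Fintype.card S * (‖Q q p‖ * ‖P (p.1 + v s', p.2) (q.1 + v s', q.2)‖) := by
    intro q p
    have e : Q q p * (bs v (p.1 + q.1) * ∑ s', P (p.1 + v s', p.2) (q.1 + v s', q.2)) -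
        Q q p * ((if p.1 = q.1 then (Fintype.card S : ℂ) else 0) *
          ∑ s', P (p.1 + v s', p.2) (q.1 + v s', q.2)) =
        (bs v (p.1 + q.1) - (if p.1 = q.1 then (Fintype.card S : ℂ) else 0)) *
          (Q q p * ∑ s', P (p.1 + v s', p.2) (q.1 + v s', q.2)) := by ring
    have b : ‖bs v (p.1 + q.1) - (if p.1 = q.1 then (Fintype.card S : ℂ) else 0)‖ ≤
        δ * Fintype.card S := by
      split_ifs with h
      · rw [h, add_self, bs_zero, sub_self, norm_zero]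
        positivity
      · rw [sub_zero]
        refine bs_le v δ hv _ fun h0 => h ?_
        have := (zero_iff 0 p.1 q.1).1 (by rw [zero_add, h0])
        rw [this, add_zero]
    rw [e, norm_mul, norm_mul]
    calc _ ≤ δ * Fintype.card S *
        (‖Q q p‖ * ∑ s', ‖P (p.1 + v s', p.2) (q.1 + v s', q.2)‖) := by
          refine mul_le_mul b ?_ (by positivity) (by positivity)
          exact mul_le_mul_of_nonneg_left (norm_sum_le _ _) (by positivity)
      _ = _ := by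
          rw [Finset.mul_sum, Finset.mul_sum]
  have h2 : ∀ s' : S, ∑ q : (Fin t → ZMod 2) × Fin n, ∑ p : (Fin t → ZMod 2) × Fin n,
      ‖Q q p‖ * ‖P (p.1 + v s', p.2) (q.1 + v s', q.2)‖ ≤
      Real.sqrt (fro Q) * Real.sqrt (fro P) := by
    intro s'
    rw [← Fintype.sum_prod_type' (f := fun q p : (Fin t → ZMod 2) × Fin n =>
      ‖Q q p‖ * ‖P (p.1 + v s', p.2) (q.1 + v s', q.2)‖)]
    refine (Real.sum_mul_le_sqrt_mul_sqrt _ _ _).trans ?_
    rw [Fintype.sum_prod_type' (f := fun q p : (Fin t → ZMod 2) × Fin n => ‖Q q p‖ ^ 2),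
      Fintype.sum_prod_type' (f := fun q p : (Fin t → ZMod 2) × Fin n =>
        ‖P (p.1 + v s', p.2) (q.1 + v s', q.2)‖ ^ 2), fro_shift]
    exact le_rfl
  calc _ ≤ ∑ q : (Fin t → ZMod 2) × Fin n, ∑ p : (Fin t → ZMod 2) × Fin n,
      ∑ s', δ * Fintype.card S * (‖Q q p‖ * ‖P (p.1 + v s', p.2) (q.1 + v s', q.2)‖) := by
        refine (norm_sum_le _ _).trans (Finset.sum_le_sum fun q _ => ?_)
        rw [← Finset.sum_sub_distrib]
        refine (norm_sum_le _ _).trans (Finset.sum_le_sum fun p _ => h1 q p)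
    _ = ∑ s', δ * Fintype.card S * ∑ q : (Fin t → ZMod 2) × Fin n,
        ∑ p : (Fin t → ZMod 2) × Fin n,
          ‖Q q p‖ * ‖P (p.1 + v s', p.2) (q.1 + v s', q.2)‖ := by
        simp_rw [Finset.mul_sum]
        rw [Finset.sum_comm]
        refine (Finset.sum_congr rfl fun p _ => Finset.sum_comm).trans ?_
        rw [Finset.sum_comm]
        refine Finset.sum_congr rfl fun s' _ => ?_
        rw [Finset.sum_comm]
    _ ≤ ∑ _s' : S, δ * Fintype.card S * (Real.sqrt (fro Q) * Real.sqrt (fro P)) :=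
        Finset.sum_le_sum fun s' _ => mul_le_mul_of_nonneg_left (h2 s') (by positivity)
    _ = _ := by
        rw [Finset.sum_const, Finset.card_univ, nsmul_eq_mul]
        ring

theorem dg_eq (P Q : Matrix ((Fin t → ZMod 2) × Fin n) ((Fin t → ZMod 2) × Fin n) ℂ) :
    dg v P Q = ∑ a' : Fin n, ∑ a : Fin n, (Fintype.card S : ℂ) *
      ∑ s', ∑ x, Q (x, a') (x, a) * P (x + v s', a) (x + v s', a') := by
  unfold dg
  rw [Fintype.sum_prod_type, Finset.sum_comm]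
  refine Finset.sum_congr rfl fun a' _ => ?_
  have h : ∀ x' : Fin t → ZMod 2, ∑ p : (Fin t → ZMod 2) × Fin n, Q (x', a') p *
      ((if p.1 = (x', a').1 then (Fintype.card S : ℂ) else 0) *
        ∑ s', P (p.1 + v s', p.2) ((x', a').1 + v s', (x', a').2)) =
      ∑ a : Fin n, (Fintype.card S : ℂ) * ∑ s', Q (x', a') (x', a) *
        P (x' + v s', a) (x' + v s', a') := by
    intro x'
    rw [Fintype.sum_prod_type, Finset.sum_eq_single x']
    · refine Finset.sum_congr rfl fun a _ => ?_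
      simp only [if_true]
      rw [← Finset.mul_sum]
      ring
    · intro b _ hb
      simp [hb]
    · intro h
      exact absurd (Finset.mem_univ _) h
  simp_rw [h]
  rw [Finset.sum_comm]
  refine Finset.sum_congr rfl fun a _ => ?_
  rw [← Finset.mul_sum, Finset.sum_comm]

theorem diag_le (M : Matrix ((Fin t → ZMod 2) × Fin n) ((Fin t → ZMod 2) × Fin n) ℂ) :
    ∑ a' : Fin n, ∑ a : Fin n, ∑ x, ‖M (x, a') (x, a)‖ ^ 2 ≤ fro M := by
  unfold fro
  rw [Fintype.sum_prod_type]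
  have h : ∑ a' : Fin n, ∑ a : Fin n, ∑ x, ‖M (x, a') (x, a)‖ ^ 2 =
      ∑ x, ∑ a' : Fin n, ∑ a : Fin n, ‖M (x, a') (x, a)‖ ^ 2 := by
    rw [Finset.sum_comm (s := (Finset.univ : Finset (Fin t → ZMod 2)))]
    exact Finset.sum_congr rfl fun a' _ => Finset.sum_comm
  rw [h]
  refine Finset.sum_le_sum fun x _ => Finset.sum_le_sum fun a' _ => ?_
  rw [Fintype.sum_prod_type]
  exact Finset.single_le_sum (f := fun y : Fin t → ZMod 2 => ∑ a : Fin n, ‖M (x, a') (y, a)‖ ^ 2)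
    (fun y _ => by positivity) (Finset.mem_univ x)

theorem dg_le (hv : Bias v δ) (hδ : 0 ≤ δ)
    (P Q : Matrix ((Fin t → ZMod 2) × Fin n) ((Fin t → ZMod 2) × Fin n) ℂ) :
    ‖dg v P Q - (Fintype.card S : ℂ) ^ 2 / 2 ^ t * (ptr Q * ptr P).trace‖ ≤
      δ * (Fintype.card S : ℝ) ^ 2 * (Real.sqrt (fro Q) * Real.sqrt (fro P)) := by
  have e : dg v P Q - (Fintype.card S : ℂ) ^ 2 / 2 ^ t * (ptr Q * ptr P).trace =
      ∑ a' : Fin n, ∑ a : Fin n, (Fintype.card S : ℂ) *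
        (∑ s', ∑ x, Q (x, a') (x, a) * P (x + v s', a) (x + v s', a') -
          (Fintype.card S : ℂ) / 2 ^ t * ((∑ x, Q (x, a') (x, a)) * ∑ x, P (x, a) (x, a'))) := by
    rw [dg_eq, Matrix.trace, Finset.mul_sum, ← Finset.sum_sub_distrib]
    refine Finset.sum_congr rfl fun a' _ => ?_
    rw [Matrix.diag_apply, Matrix.mul_apply, Finset.mul_sum, ← Finset.sum_sub_distrib]
    refine Finset.sum_congr rfl fun a _ => ?_
    unfold ptr
    ring
  have h1 : ∀ a' a : Fin n, ‖(Fintype.card S : ℂ) *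
      (∑ s', ∑ x, Q (x, a') (x, a) * P (x + v s', a) (x + v s', a') -
        (Fintype.card S : ℂ) / 2 ^ t * ((∑ x, Q (x, a') (x, a)) * ∑ x, P (x, a) (x, a')))‖ ≤
      δ * (Fintype.card S : ℝ) ^ 2 * (Real.sqrt (∑ x, ‖Q (x, a') (x, a)‖ ^ 2) *
        Real.sqrt (∑ x, ‖P (x, a) (x, a')‖ ^ 2)) := by
    intro a' a
    have h := four v δ hv hδ (fun x => Q (x, a') (x, a)) (fun x => P (x, a) (x, a'))
    rw [norm_mul, Complex.norm_natCast]
    refine (mul_le_mul_of_nonneg_left h (by positivity)).trans (le_of_eq ?_)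
    ring
  rw [e]
  refine (norm_sum_le _ _).trans ((Finset.sum_le_sum fun a' _ =>
    (norm_sum_le _ _).trans (Finset.sum_le_sum fun a _ => h1 a' a)).trans ?_)
  simp_rw [← Finset.mul_sum]
  refine mul_le_mul_of_nonneg_left ?_ (by positivity)
  rw [← Fintype.sum_prod_type' (f := fun a' a : Fin n =>
    Real.sqrt (∑ x, ‖Q (x, a') (x, a)‖ ^ 2) * Real.sqrt (∑ x, ‖P (x, a) (x, a')‖ ^ 2))]
  refine (Real.sum_sqrt_mul_sqrt_le _ (fun p => by positivity) (fun p => by positivity)).trans ?_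
  rw [Fintype.sum_prod_type' (f := fun a' a : Fin n => ∑ x, ‖Q (x, a') (x, a)‖ ^ 2),
    Fintype.sum_prod_type' (f := fun a' a : Fin n => ∑ x, ‖P (x, a) (x, a')‖ ^ 2)]
  refine mul_le_mul (Real.sqrt_le_sqrt (diag_le Q)) (Real.sqrt_le_sqrt ?_) (by positivity)
    (by positivity)
  rw [Finset.sum_comm]
  exact diag_le P

end ErrAux

open ErrAux in
theorem stErr : StErr := by
  intro t n S _ v δ hv hδ P Q
  have h1 := off_le v δ hv hδ P Q
  have h2 := dg_le v δ hv hδ P Q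
  rw [← sum_trace] at h1
  have e : (∑ s, ∑ s', (Q * (lif (cwop (v s) (v s')) * P * (lif (cwop (v s) (v s')))ᴴ)).trace.re) -
      (Fintype.card S : ℝ) ^ 2 / 2 ^ t * (ptr Q * ptr P).trace.re =
      (∑ s, ∑ s', (Q * (lif (cwop (v s) (v s')) * P * (lif (cwop (v s) (v s')))ᴴ)).trace -
      (Fintype.card S : ℂ) ^ 2 / 2 ^ t * (ptr Q * ptr P).trace).re := by
    have e1 : ((Fintype.card S : ℂ) ^ 2 / 2 ^ t * (ptr Q * ptr P).trace).re =
        (Fintype.card S : ℝ) ^ 2 / 2 ^ t * (ptr Q * ptr P).trace.re := by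
      have : (Fintype.card S : ℂ) ^ 2 / 2 ^ t = (((Fintype.card S : ℝ) ^ 2 / 2 ^ t : ℝ) : ℂ) := by
        push_cast
        rfl
      rw [this, Complex.re_ofReal_mul]
    rw [Complex.sub_re, e1, Complex.re_sum]
    simp_rw [Complex.re_sum]
  rw [e]
  refine (Complex.abs_re_le_norm _).trans ?_
  refine (norm_sub_le_norm_sub_add_norm_sub _ (dg v P Q) _).trans ?_
  linarith

end Pool.Agent.Lib.MP_64d474_lc.Nc
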