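import Mathlib
import Pool.Agent.Lib.MP_64d474_lc.Nc.Chain
import Pool.Agent.Lib.MP_64d474_lc.Nc.Defs

/-!
The doubling of a tuple of matrices.
-/

open Matrix Module

set_option linter.unusedSectionVars false

namespace Pool.Agent.Lib.MP_64d474_lc.Nc

section

variable {F V W κ J Ω : Type*} [Field F] [AddCommGroup V] [Module F V] [FiniteDimensional F V]
  [AddCommGroup W] [Module F W] [FiniteDimensional F W] [Fintype κ] [Fintype J] [Fintype Ω]
  [DecidableEq Ω] (B : κ → V →ₗ[F] W) (T : κ → Matrix J J F) (A : Ω → κ → Matrix J J F)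

theorem ev_dbl_true (z : Ω × Bool × J → V) (ω : Ω) (i : J) :
    ev B (dbl T A) z (ω, true, i) = ev B T (fun j => z (ω, true, j)) i := by
  rw [ev_apply, ev_apply]
  refine Finset.sum_congr rfl fun k _ => ?_
  rw [Fintype.sum_prod_type, Finset.sum_eq_single ω]
  · rw [Fintype.sum_prod_type, Fintype.sum_bool]
    simp [dbl]
  · intro ω' _ hω
    refine Finset.sum_eq_zero fun y _ => ?_
    simp [dbl, hω.symm]
  · intro h
    exact absurd (Finset.mem_univ ω) h

theorem ev_dbl_false (z : Ω × Bool × J → V) (ω : Ω) (i : J) :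
    ev B (dbl T A) z (ω, false, i) = ev B T (fun j => z (ω, false, j)) i +
      ev B (A ω) (fun j => z (ω, true, j)) i := by
  rw [ev_apply, ev_apply, ev_apply, ← Finset.sum_add_distrib]
  refine Finset.sum_congr rfl fun k _ => ?_
  rw [Fintype.sum_prod_type, Finset.sum_eq_single ω]
  · rw [Fintype.sum_prod_type, Fintype.sum_bool, add_comm]
    simp [dbl]
  · intro ω' _ hω
    refine Finset.sum_eq_zero fun y _ => ?_
    simp [dbl, hω.symm]
  · intro h
    exact absurd (Finset.mem_univ ω) h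

/-- the coordinates with a given bit -/
def prt (F : Type*) [Field F] {W : Type*} [AddCommGroup W] [Module F W] (Ω J : Type*) (b : Bool) :
    (Ω × Bool × J → W) →ₗ[F] (Ω → J → W) where
  toFun z ω j := z (ω, b, j)
  map_add' _ _ := rfl
  map_smul' _ _ := rfl

/-- the functions that vanish at the bit `true` -/
def ins (F : Type*) [Field F] {W : Type*} [AddCommGroup W] [Module F W] (Ω J : Type*) :
    (Ω → J → W) →ₗ[F] (Ω × Bool × J → W) where
  toFun y x := if x.2.1 = true then 0 else y x.1 x.2.2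
  map_add' y y' := by
    funext x
    simp only [Pi.add_apply]
    split_ifs
    · rw [add_zero]
    · rfl
  map_smul' a y := by
    funext x
    simp only [Pi.smul_apply, RingHom.id_apply]
    split_ifs
    · rw [smul_zero]
    · rfl

theorem ins_injective : Function.Injective (ins F (W := W) Ω J) := by
  intro y y' h
  funext ω j
  have := congrFun h (ω, false, j)
  simpa [ins] using this

theorem finrank_tgt_dbl (U U' : Submodule F V) :
    Fintype.card Ω * finrank F (tgt B T U U') +
      ∑ ω, finrank F (tgt B T U U' ⊔ (dom B T U U').map (ev B (A ω)) : Submodule F (J → W)) ≤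
    finrank F (tgt B (dbl T A) U U') := by
  set X := tgt B (dbl T A) U U' with hX
  have h1 : (Submodule.pi Set.univ fun _ : Ω => tgt B T U U') ≤ X.map (prt F Ω J true) := by
    intro y hy
    have h : ∀ ω, ∃ x ∈ pw J U, ∃ w ∈ pw J (img B U'), ev B T x + w = y ω := by
      intro ω
      obtain ⟨a, ⟨x, hx, rfl⟩, w, hw, e⟩ := Submodule.mem_sup.mp (hy ω (Set.mem_univ ω))
      exact ⟨x, hx, w, hw, e⟩
    choose x hx w hw hxw using h
    refine ⟨ev B (dbl T A) (fun p => if p.2.1 = true then x p.1 p.2.2 else 0) +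
      (fun p => if p.2.1 = true then w p.1 p.2.2 else 0), ?_, ?_⟩
    · refine Submodule.add_mem _ (le_sup_left (a := (pw (Ω × Bool × J) U).map (ev B (dbl T A)))
        ⟨_, mem_pw.mpr fun p => ?_, rfl⟩)
        (le_sup_right (a := (pw (Ω × Bool × J) U).map (ev B (dbl T A))) (mem_pw.mpr fun p => ?_))
      · split_ifs
        · exact mem_pw.mp (hx p.1) _
        · exact Submodule.zero_mem _
      · split_ifs
        · exact mem_pw.mp (hw p.1) _
        · exact Submodule.zero_mem _
    · funext ω j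
      show ev B (dbl T A) _ (ω, true, j) + _ = _
      rw [ev_dbl_true, ← hxw ω]
      simp
  have h2 : (Submodule.pi Set.univ fun ω : Ω => tgt B T U U' ⊔
      (dom B T U U').map (ev B (A ω))).map (ins F Ω J) ≤ X ⊓ LinearMap.ker (prt F Ω J true) := by
    rintro _ ⟨y, hy, rfl⟩
    have h : ∀ ω, ∃ x ∈ pw J U, ∃ w ∈ pw J (img B U'), ∃ d ∈ dom B T U U',
        ev B T x + w + ev B (A ω) d = y ω := by
      intro ω
      obtain ⟨a, ha, b, ⟨d, hd, rfl⟩, e⟩ := Submodule.mem_sup.mp (hy ω (Set.mem_univ ω))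
      obtain ⟨a', ⟨x, hx, rfl⟩, w, hw, e'⟩ := Submodule.mem_sup.mp ha
      exact ⟨x, hx, w, hw, d, hd, by rw [e', e]⟩
    choose x hx w hw d hd hxw using h
    refine ⟨?_, ?_⟩
    · have e : ins F Ω J y = ev B (dbl T A)
          (fun p => if p.2.1 = true then d p.1 p.2.2 else x p.1 p.2.2) +
          (fun p => if p.2.1 = true then - ev B T (d p.1) p.2.2 else w p.1 p.2.2) := by
        funext p
        obtain ⟨ω, b, j⟩ := p
        cases b
        · show y ω j = ev B (dbl T A) _ (ω, false, j) + _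
          rw [ev_dbl_false, ← hxw ω]
          simp only [Pi.add_apply, reduceIte]
          show _ = ev B T (x ω) j + ev B (A ω) (d ω) j + w ω j
          abel
        · show (0 : W) = ev B (dbl T A) _ (ω, true, j) + _
          rw [ev_dbl_true]
          simp
      rw [e]
      refine Submodule.add_mem _ (le_sup_left (a := (pw (Ω × Bool × J) U).map (ev B (dbl T A)))
        ⟨_, mem_pw.mpr fun p => ?_, rfl⟩)
        (le_sup_right (a := (pw (Ω × Bool × J) U).map (ev B (dbl T A))) (mem_pw.mpr fun p => ?_))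
      · split_ifs
        · exact mem_pw.mp (hd p.1).1 _
        · exact mem_pw.mp (hx p.1) _
      · split_ifs
        · exact Submodule.neg_mem _ (mem_pw.mp (hd p.1).2 _)
        · exact mem_pw.mp (hw p.1) _
    · rw [SetLike.mem_coe, LinearMap.mem_ker]
      funext ω j
      show (if (true : Bool) = true then (0 : W) else y ω j) = 0
      rw [if_pos rfl]
  have h3 := Submodule.finrank_mono h1
  have h4 := Submodule.finrank_mono h2
  rw [finrank_pi_sub, Finset.sum_const, Finset.card_univ, smul_eq_mul] at h3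
  rw [← (Submodule.equivMapOfInjective _ (ins_injective (F := F) (W := W) (Ω := Ω) (J := J))
    _).finrank_eq, finrank_pi_sub] at h4
  have h5 := finrank_map_sup (prt F Ω J true) X ⊥
  rw [sup_bot_eq, finrank_bot] at h5
  have h6 : X ⊓ (⊥ : Submodule F (Ω → J → W)).comap (prt F Ω J true) =
      X ⊓ LinearMap.ker (prt F Ω J true) := rfl
  rw [h6] at h5
  omega

/-- the rank of `B(A)` between `dom` and the quotient by `tgt` -/
noncomputable def crk (A : κ → Matrix J J F) (U U' : Submodule F V) : ℕ :=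
  finrank F (tgt B T U U' ⊔ (dom B T U U').map (ev B A) : Submodule F (J → W)) -
    finrank F (tgt B T U U')

theorem crk_add (A : κ → Matrix J J F) (U U' : Submodule F V) :
    crk B T A U U' + finrank F (tgt B T U U') =
      finrank F (tgt B T U U' ⊔ (dom B T U U').map (ev B A) : Submodule F (J → W)) := by
  have := Submodule.finrank_mono (le_sup_left : tgt B T U U' ≤
    tgt B T U U' ⊔ (dom B T U U').map (ev B A))
  rw [crk]
  omega

theorem gap_dbl (U U' : Submodule F V) :
    gap B (dbl T A) U U' ≤ 2 * Fintype.card Ω * gap B T U U' -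
      ∑ ω, (crk B T (A ω) U U' : ℤ) := by
  have h1 := finrank_tgt_dbl B T A U U'
  simp only [← crk_add, Finset.sum_add_distrib, Finset.sum_const, Finset.card_univ,
    smul_eq_mul] at h1
  rw [gap, gap, Fintype.card_prod, Fintype.card_prod, Fintype.card_bool]
  zify at h1
  push_cast
  linarith

/-- the phase -/
theorem bd_dbl {B : κ → V →ₗ[F] W} {T : κ → Matrix J J F} {A : Ω → κ → Matrix J J F} {β ℓ lam : ℝ}
    (h : Bd B T β) (hℓ : 0 ≤ ℓ) (hlam : ℓ * finrank F V ≤ lam * Fintype.card J)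
    (hlev : ∀ U U' : Submodule F V, U' ≤ U → ∃ V' : Submodule F V, U' ≤ V' ∧ V' ≤ U ∧
      (Fintype.card Ω : ℝ) * (term B T U U' V' : ℤ) ≤ 3 * (∑ ω, crk B T (A ω) U U' : ℕ) +
        Fintype.card Ω * (ℓ * ((finrank F U : ℝ) - finrank F U'))) :
    Bd B (dbl T A) ((5 * β + lam) / 6) := by
  intro G c hc hG
  have hlev' : ∀ g, ∃ V' : Submodule F V, c (g + 1) ≤ V' ∧ V' ≤ c g ∧
      (Fintype.card Ω : ℝ) * (term B T (c g) (c (g + 1)) V' : ℤ) ≤
        3 * (∑ ω, crk B T (A ω) (c g) (c (g + 1)) : ℕ) +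
        Fintype.card Ω * (ℓ * ((finrank F (c g) : ℝ) - finrank F (c (g + 1)))) := fun g =>
    hlev _ _ (hc (Nat.le_succ g))
  choose v hv1 hv2 hv3 using hlev'
  have h1 := sum_term B T h hG hv1 hv2
  have h2 := h G c hc hG
  set Φ : ℝ := ((∑ g ∈ Finset.range G, gap B T (c g) (c (g + 1)) : ℤ) : ℝ) with hΦ
  set R : ℝ := ((∑ g ∈ Finset.range G, ∑ ω, crk B T (A ω) (c g) (c (g + 1)) : ℕ) : ℝ) with hR
  have h3 : ((∑ g ∈ Finset.range G, gap B (dbl T A) (c g) (c (g + 1)) : ℤ) : ℝ) ≤
      2 * Fintype.card Ω * Φ - R := by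
    have h4 : ∑ g ∈ Finset.range G, gap B (dbl T A) (c g) (c (g + 1)) ≤
        ∑ g ∈ Finset.range G, (2 * Fintype.card Ω * gap B T (c g) (c (g + 1)) -
          ∑ ω, (crk B T (A ω) (c g) (c (g + 1)) : ℤ)) :=
      Finset.sum_le_sum fun g _ => gap_dbl B T A _ _
    rw [Finset.sum_sub_distrib, ← Finset.mul_sum] at h4
    have h5 : ((∑ g ∈ Finset.range G, gap B (dbl T A) (c g) (c (g + 1)) : ℤ) : ℝ) ≤
        ((2 * Fintype.card Ω * ∑ g ∈ Finset.range G, gap B T (c g) (c (g + 1)) -
          ∑ g ∈ Finset.range G, ∑ ω, (crk B T (A ω) (c g) (c (g + 1)) : ℤ) : ℤ) : ℝ) := by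
      exact_mod_cast h4
    refine h5.trans (le_of_eq ?_)
    rw [hΦ, hR]
    push_cast
    ring
  have h4 : (Fintype.card Ω : ℝ) * ((∑ g ∈ Finset.range G,
      term B T (c g) (c (g + 1)) (v g) : ℤ) : ℝ) ≤ 3 * R +
      Fintype.card Ω * (ℓ * finrank F V) := by
    have h5 : (Fintype.card Ω : ℝ) * ((∑ g ∈ Finset.range G,
        term B T (c g) (c (g + 1)) (v g) : ℤ) : ℝ) ≤ ∑ g ∈ Finset.range G,
        (3 * ((∑ ω, crk B T (A ω) (c g) (c (g + 1)) : ℕ) : ℝ) +
        Fintype.card Ω * (ℓ * ((finrank F (c g) : ℝ) - finrank F (c (g + 1))))) := by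
      push_cast
      rw [Finset.mul_sum]
      refine Finset.sum_le_sum fun g _ => ?_
      have := hv3 g
      push_cast at this
      exact this
    refine h5.trans ?_
    rw [Finset.sum_add_distrib, ← Finset.mul_sum, ← Finset.mul_sum, ← Finset.mul_sum,
      Finset.sum_range_sub', hG, finrank_bot, hR]
    have h6 : (finrank F (c 0) : ℝ) ≤ finrank F V := by
      exact_mod_cast Submodule.finrank_le _
    have h7 : (0 : ℝ) ≤ Fintype.card Ω := Nat.cast_nonneg _
    push_cast
    have h8 : ℓ * ((finrank F (c 0) : ℝ) - 0) ≤ ℓ * finrank F V := by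
      rw [sub_zero]
      exact mul_le_mul_of_nonneg_left h6 hℓ
    have h9 := mul_le_mul_of_nonneg_left h8 h7
    linarith
  have h5 : (0 : ℝ) ≤ Fintype.card Ω := Nat.cast_nonneg _
  have h6 := mul_le_mul_of_nonneg_left h1 h5
  have h7 := mul_le_mul_of_nonneg_left h2 h5
  have h8 := mul_le_mul_of_nonneg_left hlam h5
  refine h3.trans ?_
  rw [Fintype.card_prod, Fintype.card_prod, Fintype.card_bool, Nat.cast_mul, Nat.cast_mul,
    Nat.cast_ofNat]
  nlinarith

end

end Pool.Agent.Lib.MP_64d474_lc.Nc
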