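import Mathlib
import Pool.Agent.Lib.MP_64d474_lc.Nc.Dbl

/-!
One level of a chain: the average over the signs and the mixing by signed translations.
-/

open Matrix Module

set_option linter.unusedSectionVars false

namespace Pool.Agent.Lib.MP_64d474_lc.Nc

section General

variable {F V W κ J : Type*} [Field F] [AddCommGroup V] [Module F V] [AddCommGroup W] [Module F W]

theorem act_apply [Fintype J] (M : Matrix J J F) (x : J → V) (i : J) :
    act M x i = ∑ j, M i j • x j := by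
  simp [act]

theorem act_mem [Fintype J] (M : Matrix J J F) {U : Submodule F V} {x : J → V}
    (hx : x ∈ pw J U) : act M x ∈ pw J U := by
  rw [mem_pw]
  intro i
  rw [act_apply]
  exact Submodule.sum_mem _ fun j _ => Submodule.smul_mem _ _ (mem_pw.mp hx j)

theorem pw_img [Fintype J] (B : κ → V →ₗ[F] W) (U : Submodule F V) :
    pw J (img B U) = ⨆ k, (pw J U).map ((B k).compLeft J) := by
  classical
  apply le_antisymm
  · intro x hx
    have e : x = ∑ j, Pi.single j (x j) := by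
      rw [Finset.univ_sum_single]
    rw [e]
    refine Submodule.sum_mem _ fun j _ => ?_
    have h1 : (img B U).map (LinearMap.single F (fun _ : J => W) j) ≤
        ⨆ k, (pw J U).map ((B k).compLeft J) := by
      rw [img, Submodule.map_iSup]
      refine iSup_mono fun k => ?_
      rintro _ ⟨_, ⟨u, hu, rfl⟩, rfl⟩
      refine ⟨Pi.single j u, mem_pw.mpr fun i => ?_, ?_⟩
      · by_cases hij : i = j
        · subst hij
          rw [Pi.single_eq_same]
          exact hu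
        · rw [Pi.single_eq_of_ne hij]
          exact U.zero_mem
      · funext i
        show B k (Pi.single (M := fun _ : J => V) j u i) = Pi.single (M := fun _ : J => W) j (B k u) i
        by_cases hij : i = j
        · subst hij
          rw [Pi.single_eq_same, Pi.single_eq_same]
        · rw [Pi.single_eq_of_ne hij, Pi.single_eq_of_ne hij, map_zero]
    exact h1 ⟨x j, mem_pw.mp hx j, rfl⟩
  · refine iSup_le fun k => ?_
    rintro _ ⟨x, hx, rfl⟩
    exact mem_pw.mpr fun j => mem_img B k (mem_pw.mp hx j)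

/-- the loss under few maps -/
theorem finrank_iSup_map_le [FiniteDimensional F V] [FiniteDimensional F W] [Fintype κ]
    (f : κ → V →ₗ[F] W) (Z : Submodule F W) {Y P : Submodule F V} (h : Y ≤ P) :
    finrank F (Z ⊔ ⨆ k, P.map (f k) : Submodule F W) + Fintype.card κ * finrank F Y ≤
      finrank F (Z ⊔ ⨆ k, Y.map (f k) : Submodule F W) + Fintype.card κ * finrank F P := by
  classical
  obtain ⟨Q, hQ⟩ := Submodule.exists_isCompl (Y.comap P.subtype)
  set Q' := Q.map P.subtype with hQ'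
  have hP : Y ⊔ Q' = P := by
    have h1 : (Y.comap P.subtype ⊔ Q).map P.subtype = P := by
      rw [hQ.sup_eq_top, Submodule.map_top, Submodule.range_subtype]
    rw [Submodule.map_sup, Submodule.map_comap_subtype, inf_eq_right.mpr h] at h1
    exact h1
  have hd : finrank F Y + finrank F Q' = finrank F P := by
    have h1 := Submodule.finrank_add_eq_of_isCompl hQ
    have h2 : finrank F (Y.comap P.subtype) = finrank F Y := by
      rw [(Submodule.equivMapOfInjective P.subtype P.injective_subtype _).finrank_eq,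
        Submodule.map_comap_subtype, inf_eq_right.mpr h]
    have h3 : finrank F Q' = finrank F Q :=
      (Submodule.equivMapOfInjective P.subtype P.injective_subtype _).finrank_eq.symm
    omega
  have h1 : (⨆ k, P.map (f k)) = (⨆ k, Y.map (f k)) ⊔ ⨆ k, Q'.map (f k) := by
    rw [← iSup_sup_eq, ← hP]
    exact iSup_congr fun k => Submodule.map_sup _ _ _
  have h2 : finrank F (⨆ k, Q'.map (f k) : Submodule F W) ≤ Fintype.card κ * finrank F Q' := by
    have h3 : ∀ s : Finset κ, finrank F (⨆ k ∈ s, Q'.map (f k) : Submodule F W) ≤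
        s.card * finrank F Q' := by
      intro s
      induction s using Finset.induction_on with
      | empty => simp
      | insert a s ha ih =>
        rw [Finset.iSup_insert, Finset.card_insert_of_notMem ha]
        have h4 := Submodule.finrank_add_le_finrank_add_finrank (Q'.map (f a))
          (⨆ k ∈ s, Q'.map (f k))
        have h5 := Submodule.finrank_map_le (f a) Q'
        rw [Nat.add_mul, one_mul]
        omega
    have h4 := h3 Finset.univ
    have h5 : (⨆ k ∈ (Finset.univ : Finset κ), Q'.map (f k)) = ⨆ k, Q'.map (f k) :=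
      iSup_congr fun k => by simp
    rw [h5, Finset.card_univ] at h4
    exact h4
  rw [h1, ← sup_assoc]
  have h3 := Submodule.finrank_add_le_finrank_add_finrank (Z ⊔ ⨆ k, Y.map (f k))
    (⨆ k, Q'.map (f k))
  have h4 : Fintype.card κ * finrank F P = Fintype.card κ * finrank F Y +
      Fintype.card κ * finrank F Q' := by rw [← hd, Nat.mul_add]
  omega

theorem finrank_map_mkQ [FiniteDimensional F W] (Z X : Submodule F W) :
    finrank F (X.map Z.mkQ) + finrank F Z = finrank F (Z ⊔ X : Submodule F W) := by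
  have h1 := finrank_map_sup Z.mkQ (Z ⊔ X) ⊥
  rw [sup_bot_eq, finrank_bot, Submodule.map_sup, Submodule.comap_bot, Submodule.ker_mkQ,
    inf_eq_right.mpr le_sup_left] at h1
  have h2 : Z.map Z.mkQ = ⊥ := by
    rw [eq_bot_iff]
    rintro _ ⟨x, hx, rfl⟩
    rw [Submodule.mem_bot]
    exact (Submodule.Quotient.mk_eq_zero Z).mpr hx
  rw [h2, bot_sup_eq] at h1
  omega

end General

section Level

variable {V W : Type} [AddCommGroup V] [Module ℂ V] [FiniteDimensional ℂ V]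
  [AddCommGroup W] [Module ℂ W] [FiniteDimensional ℂ W]

/-- the perturbation built from signed translations -/
noncomputable def pert {t m : ℕ} {S Ω : Type} [Fintype S] (v : S → Fin t → ZMod 2)
    (a : Ω → Fin m × S × S → ℝ) (ω : Ω) (k : Fin m) :
    Matrix (Fin t → ZMod 2) (Fin t → ZMod 2) ℂ :=
  ∑ s, ∑ s', (a ω (k, s, s') : ℂ) • cwop (v s) (v s')

theorem ev_pert {t m : ℕ} {S Ω : Type} [Fintype S] (v : S → Fin t → ZMod 2)
    (a : Ω → Fin m × S × S → ℝ) (ω : Ω) (B : Fin m → V →ₗ[ℂ] W) :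
    ev B (pert v a ω) = ∑ p : Fin m × S × S, (a ω p : ℂ) •
      ((B p.1).compLeft (Fin t → ZMod 2) ∘ₗ act (cwop (v p.2.1) (v p.2.2))) := by
  refine LinearMap.ext fun x => funext fun i => ?_
  rw [ev_apply, LinearMap.sum_apply, Finset.sum_apply, Fintype.sum_prod_type]
  refine Finset.sum_congr rfl fun k _ => ?_
  rw [Fintype.sum_prod_type]
  have h1 : ∀ s s', ((a ω (k, s, s') : ℂ) • ((B k).compLeft (Fin t → ZMod 2) ∘ₗ
      act (cwop (v s) (v s')))) x i =
      ∑ j, ((a ω (k, s, s') : ℂ) * cwop (v s) (v s') i j) • B k (x j) := by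
    intro s s'
    show (a ω (k, s, s') : ℂ) • B k (act (cwop (v s) (v s')) x i) = _
    rw [act_apply, map_sum, Finset.smul_sum]
    refine Finset.sum_congr rfl fun j _ => ?_
    rw [map_smul, smul_smul]
  simp only [h1]
  rw [Finset.sum_congr rfl fun s _ => Finset.sum_comm, Finset.sum_comm]
  refine Finset.sum_congr rfl fun j _ => ?_
  rw [pert, Matrix.sum_apply, Finset.sum_smul]
  refine Finset.sum_congr rfl fun s _ => ?_
  rw [Matrix.sum_apply, Finset.sum_smul]
  refine Finset.sum_congr rfl fun s' _ => ?_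
  rw [Matrix.smul_apply, smul_eq_mul]

theorem level_aux (hA : StAvg) (hM : StMix) {t m : ℕ} {S Ω : Type} [Fintype S] [DecidableEq S]
    [Nonempty S] [Fintype Ω] [Nonempty Ω] (v : S → Fin t → ZMod 2) {δ : ℝ} (hb : Bias v δ)
    (hδ : 0 ≤ δ) (a : Ω → Fin m × S × S → ℝ) (ha : Mom a) (B : Fin m → V →ₗ[ℂ] W)
    (U : Submodule ℂ V) (D : Submodule ℂ ((Fin t → ZMod 2) → V))
    (Z : Submodule ℂ ((Fin t → ZMod 2) → W)) (hDU : D ≤ pw (Fin t → ZMod 2) U)
    (R : Ω → ℕ) (hR : ∀ ω, R ω + finrank ℂ Z =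
      finrank ℂ (Z ⊔ D.map (ev B (pert v a ω)) : Submodule ℂ ((Fin t → ZMod 2) → W))) :
    ∃ V' : Submodule ℂ V, V' ≤ U ∧
      (Fintype.card Ω : ℝ) * ((finrank ℂ D : ℝ) -
        finrank ℂ (D ⊓ pw (Fin t → ZMod 2) V' : Submodule ℂ ((Fin t → ZMod 2) → V)) +
        finrank ℂ (Z ⊔ pw (Fin t → ZMod 2) (img B V') : Submodule ℂ ((Fin t → ZMod 2) → W)) -
        finrank ℂ Z) ≤ 3 * (∑ ω, R ω : ℕ) +
        Fintype.card Ω * ((m + 1) * (2 * δ * finrank ℂ V * 2 ^ t)) := by
  classical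
  have hcJ : Fintype.card (Fin t → ZMod 2) = 2 ^ t := by
    rw [Fintype.card_fun, ZMod.card, Fintype.card_fin]
  obtain ⟨C, hC⟩ : ∃ C : Fin m × S × S → D →ₗ[ℂ] (((Fin t → ZMod 2) → W) ⧸ Z), C = fun p =>
    Z.mkQ ∘ₗ ((B p.1).compLeft (Fin t → ZMod 2) ∘ₗ act (cwop (v p.2.1) (v p.2.2))) ∘ₗ
      D.subtype := ⟨_, rfl⟩
  obtain ⟨U₀, hU₀⟩ := hA (Fin m × S × S) Ω a ha D (((Fin t → ZMod 2) → W) ⧸ Z) C
  -- the ranks
  have hrk : ∀ ω, finrank ℂ (LinearMap.range (∑ p, (a ω p : ℂ) • C p)) = R ω := by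
    intro ω
    have e1 : (∑ p, (a ω p : ℂ) • C p) = Z.mkQ ∘ₗ ev B (pert v a ω) ∘ₗ D.subtype := by
      rw [ev_pert, hC]
      refine LinearMap.ext fun x => ?_
      simp only [LinearMap.sum_apply, LinearMap.smul_apply, LinearMap.comp_apply, map_sum,
        map_smul]
    have e2 : LinearMap.range (Z.mkQ ∘ₗ ev B (pert v a ω) ∘ₗ D.subtype) =
        (D.map (ev B (pert v a ω))).map Z.mkQ := by
      rw [LinearMap.range_comp, LinearMap.range_comp, Submodule.range_subtype]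
    have e3 := finrank_map_mkQ Z (D.map (ev B (pert v a ω)))
    have e4 := hR ω
    rw [e1, e2]
    omega
  simp only [hrk] at hU₀
  -- mixing
  obtain ⟨U₁, hU₁⟩ : ∃ U₁ : Submodule ℂ ((Fin t → ZMod 2) → V), U₁ = U₀.map D.subtype :=
    ⟨_, rfl⟩
  have hU₁D : U₁ ≤ D := by
    rw [hU₁]
    exact Submodule.map_subtype_le _ _
  have hU₁f : finrank ℂ U₁ = finrank ℂ U₀ := by
    rw [hU₁]
    exact (Submodule.equivMapOfInjective D.subtype D.injective_subtype _).finrank_eq.symm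
  obtain ⟨Y, hY⟩ : ∃ Y : Submodule ℂ ((Fin t → ZMod 2) → V),
    Y = ⨆ s, ⨆ s', U₁.map (act (cwop (v s) (v s'))) := ⟨_, rfl⟩
  have hYU : Y ≤ pw (Fin t → ZMod 2) U := by
    rw [hY]
    refine iSup_le fun s => iSup_le fun s' => ?_
    rintro _ ⟨x, hx, rfl⟩
    exact act_mem _ (hDU (hU₁D hx))
  obtain ⟨V', hV'⟩ := hM t S v δ hb hδ V U₁ Y (fun s s' => by
    rw [hY]
    exact le_iSup_of_le s (le_iSup_of_le s' le_rfl))
  refine ⟨V' ⊓ U, inf_le_right, ?_⟩
  -- the subspaces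
  obtain ⟨P, hP⟩ : ∃ P : Submodule ℂ ((Fin t → ZMod 2) → V),
    P = pw (Fin t → ZMod 2) (V' ⊓ U) := ⟨_, rfl⟩
  have e1 : Y ⊓ pw (Fin t → ZMod 2) V' = Y ⊓ P := by
    rw [hP, pw_inf]
    apply le_antisymm
    · exact le_inf inf_le_left (le_inf inf_le_right (inf_le_left.trans hYU))
    · exact inf_le_inf_left _ inf_le_left
  have e2 : finrank ℂ (U₁ ⊓ pw (Fin t → ZMod 2) V' : Submodule ℂ ((Fin t → ZMod 2) → V)) ≤
      finrank ℂ (D ⊓ P : Submodule ℂ ((Fin t → ZMod 2) → V)) := by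
    refine Submodule.finrank_mono ?_
    rw [hP, pw_inf]
    exact le_inf (inf_le_left.trans hU₁D) (le_inf inf_le_right
      ((inf_le_left.trans hU₁D).trans hDU))
  have e3 : finrank ℂ P = 2 ^ t * finrank ℂ (V' ⊓ U : Submodule ℂ V) := by
    rw [hP, finrank_pw, hcJ]
  have e4 : finrank ℂ (V' ⊓ U : Submodule ℂ V) ≤ finrank ℂ V' := Submodule.finrank_mono inf_le_left
  have e5 : finrank ℂ (Y ⊓ P : Submodule ℂ ((Fin t → ZMod 2) → V)) ≤ finrank ℂ P :=
    Submodule.finrank_mono inf_le_right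
  have e6 : finrank ℂ (U₁ ⊓ pw (Fin t → ZMod 2) V' : Submodule ℂ ((Fin t → ZMod 2) → V)) ≤
      finrank ℂ U₁ := Submodule.finrank_mono inf_le_left
  -- the images
  have e7 : finrank ℂ (img C U₀) + finrank ℂ Z =
      finrank ℂ (Z ⊔ ⨆ k, Y.map ((B k).compLeft (Fin t → ZMod 2)) :
        Submodule ℂ ((Fin t → ZMod 2) → W)) := by
    rw [← finrank_map_mkQ]
    have e : img C U₀ =
        (⨆ k, Y.map ((B k).compLeft (Fin t → ZMod 2))).map Z.mkQ := by
      rw [img, Submodule.map_iSup, iSup_prod]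
      apply iSup_congr
      intro k
      rw [hY, Submodule.map_iSup, Submodule.map_iSup, iSup_prod]
      apply iSup_congr
      intro s
      rw [Submodule.map_iSup, Submodule.map_iSup]
      apply iSup_congr
      intro s'
      rw [hU₁, hC]
      rw [Submodule.map_comp, Submodule.map_comp, Submodule.map_comp]
    rw [e]
  have e8 := finrank_iSup_map_le (fun k => (B k).compLeft (Fin t → ZMod 2)) Z
    (inf_le_right : Y ⊓ P ≤ P)
  have e9 : finrank ℂ (Z ⊔ ⨆ k, (Y ⊓ P).map ((B k).compLeft (Fin t → ZMod 2)) :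
      Submodule ℂ ((Fin t → ZMod 2) → W)) ≤
      finrank ℂ (Z ⊔ ⨆ k, Y.map ((B k).compLeft (Fin t → ZMod 2)) :
        Submodule ℂ ((Fin t → ZMod 2) → W)) :=
    Submodule.finrank_mono (sup_le_sup_left (iSup_mono fun k => Submodule.map_mono inf_le_left) _)
  rw [Fintype.card_fin] at e8
  have e10 : (⨆ k, P.map ((B k).compLeft (Fin t → ZMod 2)) :
      Submodule ℂ ((Fin t → ZMod 2) → W)) = pw (Fin t → ZMod 2) (img B (V' ⊓ U)) := by
    rw [pw_img, hP]
  rw [e10] at e8
  rw [← hP]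
  -- real numbers
  rw [e1] at hV'
  generalize finrank ℂ (Y ⊓ P : Submodule ℂ ((Fin t → ZMod 2) → V)) = x₁ at *
  generalize finrank ℂ P = x₂ at *
  generalize finrank ℂ (U₁ ⊓ pw (Fin t → ZMod 2) V' : Submodule ℂ ((Fin t → ZMod 2) → V)) =
    x₃ at *
  generalize finrank ℂ (D ⊓ P : Submodule ℂ ((Fin t → ZMod 2) → V)) = x₄ at *
  generalize finrank ℂ (Z ⊔ pw (Fin t → ZMod 2) (img B (V' ⊓ U)) :
    Submodule ℂ ((Fin t → ZMod 2) → W)) = x₅ at *
  generalize finrank ℂ (img C U₀) = x₆ at *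
  generalize finrank ℂ Z = x₇ at *
  have hq : (0 : ℝ) ≤ 2 * δ * finrank ℂ V * 2 ^ t := by positivity
  generalize 2 * δ * (finrank ℂ V : ℝ) * 2 ^ t = q at *
  have f1 : (x₃ : ℝ) ≤ x₄ := by exact_mod_cast e2
  have f2 : (x₂ : ℝ) ≤ 2 ^ t * finrank ℂ V' := by
    rw [e3]
    push_cast
    exact mul_le_mul_of_nonneg_left (by exact_mod_cast e4) (by positivity)
  have f3 : (x₃ : ℝ) ≤ finrank ℂ U₁ := by exact_mod_cast e6
  have f5 : (x₂ : ℝ) - x₁ ≤ q := by linarith
  have f4 : (x₁ : ℝ) ≤ x₂ := by exact_mod_cast e5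
  have f6 : (finrank ℂ U₁ : ℝ) ≤ x₄ + q := by linarith
  have f7 : (x₅ : ℝ) + m * x₁ ≤ (x₆ + x₇) + m * x₂ := by
    have : x₅ + m * x₁ ≤ (x₆ + x₇) + m * x₂ := by omega
    exact_mod_cast this
  have f8 : (Fintype.card Ω : ℝ) * (finrank ℂ D + x₆) ≤
      Fintype.card Ω * finrank ℂ U₁ + 3 * (∑ ω, R ω : ℕ) := by
    rw [hU₁f]
    exact_mod_cast hU₀
  have f9 : (m : ℝ) * (x₂ - x₁) ≤ m * q := mul_le_mul_of_nonneg_left f5 (Nat.cast_nonneg _)
  have f10 : (finrank ℂ D : ℝ) - x₄ + x₅ - x₇ ≤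
      finrank ℂ D + x₆ - finrank ℂ U₁ + (m + 1) * q := by linarith
  have hΩ : (0 : ℝ) ≤ Fintype.card Ω := Nat.cast_nonneg _
  have f13 := mul_le_mul_of_nonneg_left f10 hΩ
  linarith

/-- one level -/
theorem level (hA : StAvg) (hM : StMix) {t m : ℕ} {S Ω : Type} [Fintype S] [DecidableEq S]
    [Nonempty S] [Fintype Ω] [Nonempty Ω] (v : S → Fin t → ZMod 2) {δ : ℝ} (hb : Bias v δ)
    (hδ : 0 ≤ δ) (a : Ω → Fin m × S × S → ℝ) (ha : Mom a) (B : Fin m → V →ₗ[ℂ] W)
    (T : Fin m → Matrix (Fin t → ZMod 2) (Fin t → ZMod 2) ℂ) (U U' : Submodule ℂ V)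
    (hU : U' ≤ U) : ∃ V' : Submodule ℂ V, U' ≤ V' ∧ V' ≤ U ∧
      (Fintype.card Ω : ℝ) * (term B T U U' V' : ℤ) ≤
        3 * (∑ ω, crk B T (pert v a ω) U U' : ℕ) +
        Fintype.card Ω * ((m + 1) * (2 * δ * finrank ℂ V * 2 ^ t) *
          ((finrank ℂ U : ℝ) - finrank ℂ U')) := by
  rcases eq_or_lt_of_le hU with rfl | hlt
  · refine ⟨U', le_rfl, le_rfl, ?_⟩
    rw [term_eq B T le_rfl le_rfl]
    have h1 : (0 : ℝ) ≤ (∑ ω, crk B T (pert v a ω) U' U' : ℕ) := Nat.cast_nonneg _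
    push_cast at h1 ⊢
    linarith
  have hfin := Submodule.finrank_lt_finrank_of_lt hlt
  obtain ⟨V', hV'U, hV'⟩ := level_aux hA hM v hb hδ a ha B U (dom B T U U') (tgt B T U U')
    inf_le_left (fun ω => crk B T (pert v a ω) U U') (fun ω => crk_add B T _ U U')
  refine ⟨V' ⊔ U', le_sup_right, sup_le hV'U hU, ?_⟩
  have hterm : term B T U U' (V' ⊔ U') ≤ term B T U U' V' := term_sup B T _ _ _
  have hterm' : ((term B T U U' (V' ⊔ U') : ℤ) : ℝ) ≤ (term B T U U' V' : ℤ) := by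
    exact_mod_cast hterm
  have e : ((term B T U U' V' : ℤ) : ℝ) = (finrank ℂ (dom B T U U') : ℝ) -
        finrank ℂ (dom B T U U' ⊓ pw (Fin t → ZMod 2) V' :
          Submodule ℂ ((Fin t → ZMod 2) → V)) +
        finrank ℂ (tgt B T U U' ⊔ pw (Fin t → ZMod 2) (img B V') :
          Submodule ℂ ((Fin t → ZMod 2) → W)) - finrank ℂ (tgt B T U U') := by
    rw [term]
    push_cast
    ring
  rw [← e] at hV'
  have f11 : (1 : ℝ) ≤ (finrank ℂ U : ℝ) - finrank ℂ U' := by
    have h1 : finrank ℂ U' + 1 ≤ finrank ℂ U := hfin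
    have h2 : ((finrank ℂ U' + 1 : ℕ) : ℝ) ≤ finrank ℂ U := by exact_mod_cast h1
    push_cast at h2
    linarith
  have hΩ : (0 : ℝ) ≤ Fintype.card Ω := Nat.cast_nonneg _
  have hq : (0 : ℝ) ≤ (m + 1) * (2 * δ * finrank ℂ V * 2 ^ t) := by positivity
  have f12 := mul_le_mul_of_nonneg_left (le_mul_of_one_le_right hq f11) hΩ
  have f13 := mul_le_mul_of_nonneg_left hterm' hΩ
  linarith

end Level

end Pool.Agent.Lib.MP_64d474_lc.Nc
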