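import Pool.Agent.Lib.MP_64d474_lc.Nc.Stmts

/-!
# NC-MIX: compression and currying
-/

set_option autoImplicit false
set_option linter.unusedSectionVars false

open Matrix Module

namespace Pool.Agent.Lib.MP_64d474_lc.Nc

namespace Mix

section gen

variable {F V E : Type*} [Field F] [AddCommGroup V] [Module F V] [AddCommGroup E] [Module F E]
variable {J : Type*} [Fintype J] [DecidableEq J]

theorem act_apply (M : Matrix J J F) (x : J → V) (i : J) : act M x i = ∑ j, M i j • x j := by
  simp [act]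

theorem act_single (i j : J) (x : J → V) :
    act (Matrix.single i j (1 : F)) x = Pi.single i (x j) := by
  ext a
  rw [act_apply]
  by_cases h : a = i
  · subst h
    rw [Pi.single_eq_same, Finset.sum_eq_single j]
    · simp
    · intro b _ hb
      rw [Matrix.single_apply_of_col_ne _ _ (Ne.symm hb), zero_smul]
    · intro h; exact absurd (Finset.mem_univ _) h
  · rw [Pi.single_eq_of_ne h]
    refine Finset.sum_eq_zero (fun b _ => ?_)
    rw [Matrix.single_apply_of_row_ne (Ne.symm h), zero_smul]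

/-- the span of all values -/
def vals (U : Submodule F (J → V)) : Submodule F V := ⨆ j, U.map (LinearMap.proj j)

theorem le_pw (U : Submodule F (J → V)) : U ≤ pw J (vals U) := by
  intro x hx
  rw [pw, Submodule.mem_pi]
  intro j _
  exact Submodule.mem_iSup_of_mem j ⟨x, hx, rfl⟩

theorem finrank_pw [FiniteDimensional F V] (V' : Submodule F V) :
    finrank F (pw J V' : Submodule F (J → V)) = Fintype.card J * finrank F V' := by
  let f : (J → V') →ₗ[F] (J → V) := LinearMap.pi fun j => V'.subtype ∘ₗ LinearMap.proj j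
  have hf : Function.Injective f := by
    intro x y h
    ext j
    exact congrFun h j
  have hr : LinearMap.range f = pw J V' := by
    ext x
    rw [pw, Submodule.mem_pi]
    constructor
    · rintro ⟨y, rfl⟩ j _
      exact (y j).2
    · intro h
      exact ⟨fun j => ⟨x j, h j trivial⟩, rfl⟩
  rw [← hr, LinearMap.finrank_range_of_inj hf, Module.finrank_pi_fintype]
  simp

theorem finrank_map_mkQ [FiniteDimensional F V] (P Y : Submodule F V) :
    finrank F (P.map Y.mkQ) + finrank F (P ⊓ Y : Submodule F V) = finrank F P := by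
  have h := LinearMap.finrank_range_add_finrank_ker (Y.mkQ.domRestrict P)
  rw [LinearMap.range_domRestrict, LinearMap.ker_domRestrict, Submodule.ker_mkQ] at h
  rw [← h]
  congr 1
  rw [← Submodule.map_comap_subtype]
  exact Submodule.finrank_map_subtype_eq P (Submodule.comap P.subtype Y)

/-- the family of all matrix units, from `U` to the quotient by `Y` -/
def fam (U Y : Submodule F (J → V)) (p : J × J) : U →ₗ[F] ((J → V) ⧸ Y) :=
  Y.mkQ ∘ₗ act (Matrix.single p.1 p.2 (1 : F)) ∘ₗ U.subtype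

theorem map_le_img (U Y : Submodule F (J → V)) (U0 : Submodule F U) :
    (pw J (vals (U0.map U.subtype))).map Y.mkQ ≤ img (fam U Y) U0 := by
  rw [Submodule.map_le_iff_le_comap]
  intro y hy
  rw [pw, Submodule.mem_pi] at hy
  have hsum : y = ∑ j, LinearMap.single F (fun _ : J => V) j (y j) := by
    ext i
    simp [Finset.sum_apply, Pi.single_apply]
  rw [hsum]
  refine Submodule.sum_mem _ (fun j _ => ?_)
  have key : vals (U0.map U.subtype) ≤
      (img (fam U Y) U0).comap (Y.mkQ ∘ₗ LinearMap.single F (fun _ : J => V) j) := by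
    refine iSup_le (fun j' => ?_)
    rintro v ⟨x, ⟨u, hu, rfl⟩, rfl⟩
    rw [Submodule.mem_comap]
    refine Submodule.mem_iSup_of_mem (j, j') ⟨u, hu, ?_⟩
    simp only [fam, LinearMap.comp_apply, Submodule.subtype_apply]
    rw [act_single]
    rfl
  exact key (hy j trivial)

/-- dimension count -/
theorem count [FiniteDimensional F V] (U Y : Submodule F (J → V)) (U0 : Submodule F U) (r : ℕ)
    (h : finrank F U + finrank F (img (fam U Y) U0) ≤ finrank F U0 + r) :
    ∃ V' : Submodule F V, finrank F U + Fintype.card J * finrank F V' ≤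
      finrank F (U ⊓ pw J V' : Submodule F (J → V)) +
        finrank F (Y ⊓ pw J V' : Submodule F (J → V)) + r := by
  refine ⟨vals (U0.map U.subtype), ?_⟩
  have h1 := Submodule.finrank_mono (map_le_img U Y U0)
  have h2 := finrank_map_mkQ (pw J (vals (U0.map U.subtype))) Y
  rw [finrank_pw, inf_comm] at h2
  have h3 : U0.map U.subtype ≤ U ⊓ pw J (vals (U0.map U.subtype)) :=
    le_inf (Submodule.map_subtype_le U U0) (le_pw _)
  have h4 := Submodule.finrank_mono h3
  rw [Submodule.finrank_map_subtype_eq] at h4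
  omega

end gen

section curry

variable {V : Type*} [AddCommGroup V] [Module ℂ V] {J : Type} [Fintype J] [DecidableEq J] {n : ℕ}

/-- currying, with a basis of `V` -/
noncomputable def cur (e : V ≃ₗ[ℂ] (Fin n → ℂ)) : (J × Fin n → ℂ) ≃ₗ[ℂ] (J → V) :=
  (LinearEquiv.curry ℂ ℂ J (Fin n)).trans (LinearEquiv.piCongrRight fun _ => e.symm)

theorem cur_apply (e : V ≃ₗ[ℂ] (Fin n → ℂ)) (f : J × Fin n → ℂ) (j : J) :
    cur e f j = e.symm (fun a => f (j, a)) := rfl

theorem lif_mulVec (M : Matrix J J ℂ) (f : J × Fin n → ℂ) (j : J) (a : Fin n) :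
    (lif M *ᵥ f) (j, a) = ∑ j', M j j' * f (j', a) := by
  rw [Matrix.mulVec, dotProduct, Fintype.sum_prod_type]
  refine Finset.sum_congr rfl (fun j' _ => ?_)
  rw [Finset.sum_eq_single a]
  · simp [lif]
  · intro b _ hb
    simp [lif, Matrix.one_apply_ne (Ne.symm hb)]
  · intro h; exact absurd (Finset.mem_univ _) h

theorem cur_lif (e : V ≃ₗ[ℂ] (Fin n → ℂ)) (M : Matrix J J ℂ) (f : J × Fin n → ℂ) :
    cur e (lif M *ᵥ f) = act M (cur e f) := by
  ext j
  rw [act_apply, cur_apply]
  apply e.injective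
  rw [LinearEquiv.apply_symm_apply, map_sum]
  ext a
  rw [lif_mulVec, Finset.sum_apply]
  refine Finset.sum_congr rfl (fun j' _ => ?_)
  rw [map_smul, cur_apply, LinearEquiv.apply_symm_apply]
  rfl

theorem btw_mulVecLin {N : ℕ} (e : V ≃ₗ[ℂ] (Fin n → ℂ)) (f : (J → V) →ₗ[ℂ] (Fin N → ℂ))
    (g : (Fin N → ℂ) →ₗ[ℂ] (J → V)) (M : Matrix J J ℂ) :
    (btw (LinearMap.toMatrix' (f ∘ₗ (cur e).toLinearMap)) M
      (LinearMap.toMatrix' ((cur e).symm.toLinearMap ∘ₗ g))).mulVecLin = f ∘ₗ act M ∘ₗ g := by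
  refine LinearMap.ext (fun x => ?_)
  rw [btw, Matrix.mulVecLin_apply, ← Matrix.mulVec_mulVec, ← Matrix.mulVec_mulVec,
    LinearMap.toMatrix'_mulVec, LinearMap.toMatrix'_mulVec]
  simp only [LinearMap.comp_apply, LinearEquiv.coe_coe]
  rw [cur_lif, LinearEquiv.apply_symm_apply]

end curry

end Mix

open Mix in
theorem stMix (hC : StComp.{0}) (hK : StCore) : StMix := by
  intro t S _ _ v δ hv hδ V _ _ _ U Y hUY
  obtain ⟨U0, r, L0, R0, hdim, hN⟩ := hC ℂ ((Fin t → ZMod 2) × (Fin t → ZMod 2)) U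
    (((Fin t → ZMod 2) → V) ⧸ Y) (fam U Y)
  obtain ⟨V', hV'⟩ := count U Y U0 r hdim
  refine ⟨V', ?_⟩
  let e : V ≃ₗ[ℂ] (Fin (finrank ℂ V) → ℂ) := (Module.finBasis ℂ V).equivFun
  have hr := hK t (finrank ℂ V) r S v δ hv hδ
    (LinearMap.toMatrix' ((L0 ∘ₗ Y.mkQ) ∘ₗ (cur e).toLinearMap))
    (LinearMap.toMatrix' ((cur e).symm.toLinearMap ∘ₗ (U.subtype ∘ₗ R0))) ?_ ?_
  · have hcard : Fintype.card (Fin t → ZMod 2) = 2 ^ t := by simp [ZMod.card]
    rw [hcard] at hV'
    have := (Nat.cast_le (α := ℝ)).mpr hV'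
    push_cast at this
    linarith
  · have : (fun p : (Fin t → ZMod 2) × (Fin t → ZMod 2) =>
        (btw (LinearMap.toMatrix' ((L0 ∘ₗ Y.mkQ) ∘ₗ (cur e).toLinearMap)) (Matrix.single p.1 p.2 1)
        (LinearMap.toMatrix' ((cur e).symm.toLinearMap ∘ₗ (U.subtype ∘ₗ R0)))).mulVecLin) =
        fun k => L0 ∘ₗ fam U Y k ∘ₗ R0 := by
      funext p
      rw [btw_mulVecLin]
      rfl
    rw [this]
    exact hN
  · intro s s'
    apply Matrix.toLin'.injective
    rw [map_zero]
    change Matrix.mulVecLin _ = 0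
    rw [btw_mulVecLin]
    refine LinearMap.ext (fun x => ?_)
    simp only [LinearMap.comp_apply, LinearMap.zero_apply]
    have hmem : act (cwop (v s) (v s')) (U.subtype (R0 x)) ∈ Y :=
      hUY s s' ⟨_, (R0 x).2, rfl⟩
    rw [(Submodule.Quotient.mk_eq_zero Y).mpr hmem |> fun h => (show Y.mkQ _ = 0 from h), map_zero]

end Pool.Agent.Lib.MP_64d474_lc.Nc
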