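import Pool.Agent.Lib.MP_64d474_lc.Nc.Stmts
import Pool.Agent.Lib.MP_64d474_lc.Op.S7

set_option autoImplicit false

/-! NC-MOM: moments of the sign vectors for an arbitrary index type. -/

open Matrix Module

namespace Pool.Agent.Lib.MP_64d474_lc.Nc

theorem stMom : StMom := by
  intro K κ _ _ _ _ l φ α ha hi hα
  classical
  let e : κ ≃ Fin (Fintype.card κ) := Fintype.equivFin κ
  obtain ⟨h1, h2⟩ := Pool.Agent.Lib.MP_64d474_lc.Op.stSign K l (Fintype.card κ) φ
    (fun i => α (e.symm i)) ha hi (hα.comp e.symm.injective)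
  have hs : ∀ (ω : (Fin l → ZMod 2) × (Fin l → ZMod 2)) (k : κ),
      svec φ α ω k = Pool.Agent.Lib.MP_64d474_lc.Op.signVec φ (fun i => α (e.symm i)) ω (e k) := by
    intro ω k
    simp only [svec, Pool.Agent.Lib.MP_64d474_lc.Op.signVec, Equiv.symm_apply_apply]
  constructor
  · intro i j
    have := h1 (e i) (e j)
    simp only [hs]
    rw [this]
    simp only [EmbeddingLike.apply_eq_iff_eq]
  · intro i j k n
    have := h2 (e i) (e j) (e k) (e n)
    simp only [hs]
    rw [this]
    simp only [EmbeddingLike.apply_eq_iff_eq]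

end Pool.Agent.Lib.MP_64d474_lc.Nc
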