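import Pool.Agent.Lib.MP_64d474_lc.Nc.Stmts
import Pool.Agent.Lib.MP_64d474_lc.Op.NcSign

set_option autoImplicit false

/-! NC-SCALE: operator scaling for families indexed by a finite type. -/

open Matrix Module

namespace Pool.Agent.Lib.MP_64d474_lc.Nc

open Pool.Agent.Lib.MP_64d474_lc.Op (fro lft rgt Nonshrunk)

theorem stScale : StScale := by
  intro κ _ N C hN hC ε hε
  classical
  let e : κ ≃ Fin (Fintype.card κ) := Fintype.equivFin κ
  have hB : Nonshrunk fun i : Fin (Fintype.card κ) => C (e.symm i) := by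
    intro U
    have h := hC U
    have hU : img (fun k => (C k).mulVecLin) U =
        ⨆ i : Fin (Fintype.card κ), U.map (C (e.symm i)).mulVecLin :=
      (Equiv.iSup_comp (g := fun k => U.map (C k).mulVecLin) e.symm).symm
    rw [hU] at h
    exact h
  obtain ⟨S, T, h1, h2, h3⟩ := Pool.Agent.Lib.MP_64d474_lc.Op.stScalingN' N (Fintype.card κ)
    (fun i => C (e.symm i)) hN hB ε hε
  have e1 : ∑ i : Fin (Fintype.card κ), fro (S * C (e.symm i) * T) = ∑ k, fro (S * C k * T) :=
    Equiv.sum_comp e.symm (fun k => fro (S * C k * T))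
  have e2 : (lft fun i : Fin (Fintype.card κ) => S * C (e.symm i) * T) =
      ∑ k, (S * C k * T) * (S * C k * T)ᴴ :=
    Equiv.sum_comp e.symm (fun k => (S * C k * T) * (S * C k * T)ᴴ)
  have e3 : (rgt fun i : Fin (Fintype.card κ) => S * C (e.symm i) * T) =
      ∑ k, (S * C k * T)ᴴ * (S * C k * T) :=
    Equiv.sum_comp e.symm (fun k => (S * C k * T)ᴴ * (S * C k * T))
  rw [e1] at h1 h2 h3
  rw [e2] at h2
  rw [e3] at h3
  exact ⟨S, T, h1, h2, h3⟩

end Pool.Agent.Lib.MP_64d474_lc.Nc
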