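import Mathlib
import Pool.Agent.Lib.MP_64d474_lc.Nc.Level
import Pool.Agent.Lib.MP_64d474_lc.Nc.Avg
import Pool.Agent.Lib.MP_64d474_lc.Nc.Bias
import Pool.Agent.Lib.MP_64d474_lc.Nc.Comp
import Pool.Agent.Lib.MP_64d474_lc.Nc.Core
import Pool.Agent.Lib.MP_64d474_lc.Nc.Err
import Pool.Agent.Lib.MP_64d474_lc.Nc.Mix
import Pool.Agent.Lib.MP_64d474_lc.Nc.Mom
import Pool.Agent.Lib.MP_64d474_lc.Nc.Scale

/-!
The explicit tuples of integer matrices.
-/

open Matrix Module

set_option linter.unusedSectionVars false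

namespace Pool.Agent.Lib.MP_64d474_lc.Nc

theorem stAvg' : StAvg := stAvg stComp stScale

theorem stMix' : StMix := stMix stComp (stCore stErr stScale)

theorem dec_injective {t l : ℕ} : Function.Injective (dec (t := t) (l := l)) := by
  intro x y h
  simp only [dec, Prod.mk.injEq] at h
  obtain ⟨⟨h1, h2⟩, h3, h4⟩ := h
  have h5 : ∀ a b : ZMod 2, decide (a = 1) = decide (b = 1) → a = b := by decide
  funext i
  refine Fin.addCases (fun i => congrFun h4 i) (fun i => ?_) i
  refine Fin.addCases (fun i => ?_) (fun i => ?_) i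
  · refine Fin.addCases (fun i => congrFun h1 i) (fun i => congrFun h2 i) i
  · have : i = 0 := Subsingleton.elim _ _
    subst this
    exact h5 _ _ h3

theorem dec_bijective {t l : ℕ} : Function.Bijective (dec (t := t) (l := l)) := by
  rw [Fintype.bijective_iff_injective_and_card]
  refine ⟨dec_injective, ?_⟩
  simp only [Fintype.card_fun, Fintype.card_prod, Fintype.card_bool, ZMod.card, Fintype.card_fin]
  ring

section Reindex

variable {F V W κ J J' : Type*} [Field F] [AddCommGroup V] [Module F V] [FiniteDimensional F V]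
  [AddCommGroup W] [Module F W] [FiniteDimensional F W] [Fintype κ] [Fintype J] [Fintype J']
  (B : κ → V →ₗ[F] W) (T : κ → Matrix J J F) (e : J' ≃ J)

theorem gap_reindex (U U' : Submodule F V) :
    gap B (fun k => (T k).submatrix e e) U U' = gap B T U U' := by
  have h1 : (tgt B (fun k => (T k).submatrix e e) U U').map
      (LinearEquiv.funCongrLeft F W e.symm).toLinearMap = tgt B T U U' := by
    rw [tgt, tgt, Submodule.map_sup]
    congr 1
    · ext y
      constructor
      · rintro ⟨_, ⟨x, hx, rfl⟩, rfl⟩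
        refine ⟨fun j => x (e.symm j), mem_pw.mpr fun j => mem_pw.mp hx _, ?_⟩
        funext i
        show _ = ev B (fun k => (T k).submatrix e e) x (e.symm i)
        rw [ev_apply, ev_apply]
        refine Finset.sum_congr rfl fun k _ => ?_
        rw [← Equiv.sum_comp e.symm]
        refine Finset.sum_congr rfl fun j _ => ?_
        rw [Matrix.submatrix_apply, e.apply_symm_apply, e.apply_symm_apply]
      · rintro ⟨x, hx, rfl⟩
        refine ⟨ev B (fun k => (T k).submatrix e e) fun j => x (e j),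
          ⟨_, mem_pw.mpr fun j => mem_pw.mp hx _, rfl⟩, ?_⟩
        funext i
        show ev B (fun k => (T k).submatrix e e) _ (e.symm i) = _
        rw [ev_apply, ev_apply]
        refine Finset.sum_congr rfl fun k _ => ?_
        rw [← Equiv.sum_comp e.symm]
        refine Finset.sum_congr rfl fun j _ => ?_
        rw [Matrix.submatrix_apply, e.apply_symm_apply, e.apply_symm_apply]
    · ext y
      constructor
      · rintro ⟨x, hx, rfl⟩
        exact mem_pw.mpr fun j => mem_pw.mp hx _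
      · intro hy
        refine ⟨fun j => y (e j), mem_pw.mpr fun j => mem_pw.mp hy _, ?_⟩
        funext i
        show y (e (e.symm i)) = y i
        rw [e.apply_symm_apply]
  rw [gap, gap, ← h1, LinearEquiv.finrank_map_eq, Fintype.card_congr e]

theorem bd_reindex {β : ℝ} (h : Bd B T β) : Bd B (fun k => (T k).submatrix e e) β := by
  intro G c hc hG
  have h1 := h G c hc hG
  rw [Fintype.card_congr e]
  simp only [gap_reindex]
  exact h1

theorem bd_mono {B : κ → V →ₗ[F] W} {T : κ → Matrix J J F} {β β' : ℝ} (h : Bd B T β)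
    (hβ : β ≤ β') : Bd B T β' := fun G c hc hG =>
  (h G c hc hG).trans (mul_le_mul_of_nonneg_right hβ (Nat.cast_nonneg _))

/-- the start -/
theorem bd_zero [Unique J] (hB : Nsh B) : Bd B (0 : κ → Matrix J J F) (finrank F V) := by
  intro G c hc hG
  have h1 : ∀ U U' : Submodule F V, gap B (0 : κ → Matrix J J F) U U' =
      finrank F U - finrank F (img B U') := by
    intro U U'
    have h2 : ev B (0 : κ → Matrix J J F) = 0 := by
      refine LinearMap.ext fun x => funext fun i => ?_
      rw [ev_apply]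
      simp
    rw [gap, tgt, h2, Submodule.map_zero, bot_sup_eq, finrank_pw, Fintype.card_unique]
    push_cast
    ring
  simp only [h1]
  have h3 : ∑ g ∈ Finset.range G, ((finrank F (c g) : ℤ) - finrank F (img B (c (g + 1)))) ≤
      finrank F (c 0) := by
    have h4 : ∑ g ∈ Finset.range G, ((finrank F (c g) : ℤ) - finrank F (img B (c (g + 1)))) ≤
        ∑ g ∈ Finset.range G, ((finrank F (c g) : ℤ) - finrank F (c (g + 1))) := by
      refine Finset.sum_le_sum fun g _ => ?_
      have := hB (c (g + 1))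
      omega
    rw [Finset.sum_range_sub' (fun g => (finrank F (c g) : ℤ)), hG, finrank_bot] at h4
    simpa using h4
  have h4 : finrank F (c 0) ≤ finrank F V := Submodule.finrank_le _
  have h5 : ∑ g ∈ Finset.range G, ((finrank F (c g) : ℤ) - finrank F (img B (c (g + 1)))) ≤
      finrank F V := h3.trans (by exact_mod_cast h4)
  rw [Fintype.card_unique, Nat.cast_one, mul_one]
  exact_mod_cast h5

/-- the rank -/
theorem rank_of_bd {β : ℝ} (h : Bd B T β) :
    (Fintype.card J : ℝ) * finrank F V - β * Fintype.card J ≤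
      finrank F (LinearMap.range (ev B T)) := by
  have h1 := h 1 (fun g => if g = 0 then ⊤ else ⊥) (by
    refine antitone_nat_of_succ_le fun g => ?_
    simp) (by simp)
  rw [Finset.sum_range_one] at h1
  simp only [if_true, zero_add, one_ne_zero, if_false] at h1
  have h2 : tgt B T ⊤ ⊥ = LinearMap.range (ev B T) := by
    have h3 : pw J (⊤ : Submodule F V) = ⊤ := by
      rw [eq_top_iff]
      exact fun x _ => mem_pw.mpr fun j => Submodule.mem_top
    rw [tgt, img_bot, pw_bot, sup_bot_eq, h3, Submodule.map_top]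
  rw [gap, h2, finrank_top] at h1
  push_cast at h1
  linarith

end Reindex

section Complex

variable {K₁ K₂ : Type} [Field K₁] [Field K₂] [CharP K₁ 2] [CharP K₂ 2] [Fintype K₁]
  {l₁ l₂ m : ℕ} {φ₁ : K₁ → Fin l₁ → ZMod 2} {φ₂ : K₂ → Fin l₂ → ZMod 2}
  {α : Fin m × (K₁ × (Fin l₁ → ZMod 2)) × (K₁ × (Fin l₁ → ZMod 2)) → K₂}

theorem cst_iprt {t : ℕ} {S Ω : Type} [Fintype S] (v : S → Fin t → ZMod 2)
    (a : Ω → Fin m × S × S → ℤ) (ω : Ω) :
    cst ℂ (iprt v a ω) = pert v (fun ω p => (a ω p : ℝ)) ω := by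
  funext k
  ext x y
  simp only [cst, iprt, pert, Matrix.map_apply, Matrix.sum_apply, Matrix.smul_apply, cwop,
    Int.cast_sum, smul_eq_mul, Int.cast_mul, Complex.ofReal_intCast]

theorem cst_dbl {J Ω : Type} [DecidableEq Ω] (T : Fin m → Matrix J J ℤ)
    (A : Ω → Fin m → Matrix J J ℤ) : cst ℂ (dbl T A) = dbl (cst ℂ T) fun ω => cst ℂ (A ω) := by
  funext k
  ext x y
  simp only [cst, dbl, Matrix.map_apply]
  split_ifs <;> simp

/-- the recursion -/
theorem bd_tower (hφ₁ : ∀ x y, φ₁ (x + y) = φ₁ x + φ₁ y) (hi₁ : Function.Injective φ₁)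
    (hφ₂ : ∀ x y, φ₂ (x + y) = φ₂ x + φ₂ y) (hi₂ : Function.Injective φ₂)
    (hα : Function.Injective α) {V W : Type} [AddCommGroup V] [Module ℂ V]
    [FiniteDimensional ℂ V] [AddCommGroup W] [Module ℂ W] [FiniteDimensional ℂ W]
    (B : Fin m → V →ₗ[ℂ] W) (hB : Nsh B) {lam : ℝ} (L : ℕ) (hlam : 0 ≤ lam)
    (h : (m + 1) * (2 * (((l₂ + l₂ + 1) * L : ℕ) / Fintype.card K₁) * (finrank ℂ V) ^ 2) ≤ lam) :
    Bd B (cst ℂ (tower φ₁ φ₂ α L)) ((5 / 6) ^ L * finrank ℂ V + lam) := by
  classical
  induction L with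
  | zero =>
    have h1 : cst ℂ (tower φ₁ φ₂ α 0) = 0 := by
      funext k
      ext x y
      simp [cst, tower]
    rw [h1, pow_zero, one_mul]
    have : Unique (Fin ((l₂ + l₂ + 1) * 0) → ZMod 2) :=
      { default := fun i => i.elim0
        uniq := fun f => funext fun i => i.elim0 }
    exact bd_mono (bd_zero (J := Fin ((l₂ + l₂ + 1) * 0) → ZMod 2) B hB) (by linarith)
  | succ L ih =>
    have hK : (0 : ℝ) < Fintype.card K₁ := by exact_mod_cast Fintype.card_pos
    have h1 : (m + 1) * (2 * (((l₂ + l₂ + 1) * L : ℕ) / Fintype.card K₁) *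
        (finrank ℂ V : ℝ) ^ 2) ≤ lam := by
      refine le_trans ?_ h
      have h2 : (((l₂ + l₂ + 1) * L : ℕ) : ℝ) ≤ ((l₂ + l₂ + 1) * (L + 1) : ℕ) := by
        exact_mod_cast Nat.mul_le_mul_left _ (Nat.le_succ L)
      gcongr
    have ih' := ih h1
    have hb := stBias K₁ l₁ φ₁ hφ₁ hi₁ ((l₂ + l₂ + 1) * L)
    set δ : ℝ := (((l₂ + l₂ + 1) * L : ℕ) : ℝ) / Fintype.card K₁ with hδdef
    have hδ : 0 ≤ δ := by positivity
    have hm := stMom K₂ _ l₂ φ₂ α hφ₂ hi₂ hα
    have h3 : Bd B (dbl (cst ℂ (tower φ₁ φ₂ α L))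
        (pert (bvec φ₁ ((l₂ + l₂ + 1) * L)) fun ω p => (svec φ₂ α ω p : ℝ)))
        ((5 * ((5 / 6) ^ L * finrank ℂ V + lam) + lam) / 6) := by
      refine bd_dbl (ℓ := (m + 1) * (2 * δ * finrank ℂ V * 2 ^ ((l₂ + l₂ + 1) * L))) ih'
        (by positivity) ?_ fun U U' hU => ?_
      · rw [Fintype.card_fun, ZMod.card, Fintype.card_fin]
        push_cast
        have h4 : (0 : ℝ) ≤ 2 ^ ((l₂ + l₂ + 1) * L) := by positivity
        have h5 := mul_le_mul_of_nonneg_right h1 h4
        refine le_trans (le_of_eq ?_) h5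
        ring
      · exact level stAvg' stMix' (bvec φ₁ ((l₂ + l₂ + 1) * L)) hb hδ
          (fun ω p => (svec φ₂ α ω p : ℝ)) hm B _ U U' hU
    have h4 : cst ℂ (tower φ₁ φ₂ α (L + 1)) = fun k =>
        (dbl (cst ℂ (tower φ₁ φ₂ α L)) (pert (bvec φ₁ ((l₂ + l₂ + 1) * L))
          fun ω p => (svec φ₂ α ω p : ℝ)) k).submatrix (Equiv.ofBijective dec dec_bijective)
          (Equiv.ofBijective dec dec_bijective) := by
      have h5 : (pert (bvec φ₁ ((l₂ + l₂ + 1) * L)) fun ω p => (svec φ₂ α ω p : ℝ)) =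
          fun ω => cst ℂ (iprt (bvec φ₁ ((l₂ + l₂ + 1) * L)) (svec φ₂ α) ω) := by
        funext ω
        rw [cst_iprt]
      rw [h5, ← cst_dbl]
      rfl
    have h5 := bd_reindex B _ (Equiv.ofBijective dec dec_bijective) h3
    rw [← h4] at h5
    refine bd_mono h5 (le_of_eq ?_)
    ring

end Complex

end Pool.Agent.Lib.MP_64d474_lc.Nc
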