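import Mathlib
import Pool.Agent.Lib.MP_64d474_lc.Nc.Tower
import Pool.Agent.Lib.MP_64d474_lc.Op.NcRank

/-!
The rank of `∑ T_k ⊗ B_k` and the noncommutative rank of `B`, over an arbitrary field of
characteristic zero.
-/

open Matrix Module Cardinal

set_option linter.unusedSectionVars false

namespace Pool.Agent.Lib.MP_64d474_lc.Nc

open Pool.Agent.Lib.MP_64d474_lc.Op

section General

variable {F : Type*} [Field F] {κ J : Type*} [Fintype κ] [Fintype J]

theorem tens_apply {n : ℕ} (T : κ → Matrix J J F) (B : κ → Matrix (Fin n) (Fin n) F)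
    (p q : J × Fin n) : tens T B p q = ∑ k, T k p.1 q.1 * B k p.2 q.2 := by
  rw [tens, Matrix.sum_apply]
  rfl

/-- the rank of `∑ T_k ⊗ B_k` -/
theorem rank_tens {n : ℕ} (T : κ → Matrix J J F) (B : κ → Matrix (Fin n) (Fin n) F) :
    (tens T B).rank = finrank F (LinearMap.range (ev (fun k => (B k).mulVecLin) T)) := by
  classical
  have h1 : ev (fun k => (B k).mulVecLin) T ∘ₗ (LinearEquiv.curry F F J (Fin n)).toLinearMap =
      (LinearEquiv.curry F F J (Fin n)).toLinearMap ∘ₗ (tens T B).mulVecLin := by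
    refine LinearMap.ext fun x => funext fun i => ?_
    rw [LinearMap.comp_apply, ev_apply]
    funext a
    show _ = (tens T B *ᵥ x) (i, a)
    rw [Finset.sum_apply, Matrix.mulVec, dotProduct, Fintype.sum_prod_type]
    simp only [Finset.sum_apply, tens_apply, Pi.smul_apply, smul_eq_mul, Matrix.mulVecLin_apply,
      Matrix.mulVec, dotProduct, Finset.mul_sum, Finset.sum_mul]
    rw [Finset.sum_comm]
    refine Finset.sum_congr rfl fun j _ => ?_
    rw [Finset.sum_comm]
    refine Finset.sum_congr rfl fun b _ => ?_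
    refine Finset.sum_congr rfl fun k _ => ?_
    rw [mul_assoc]
    rfl
  have h2 := congrArg LinearMap.range h1
  rw [LinearMap.range_comp, LinearMap.range_comp, LinearEquiv.range, Submodule.map_top] at h2
  rw [h2, LinearEquiv.finrank_map_eq, Matrix.rank]

theorem finrank_range_le {X Y : Type*} [AddCommGroup X] [Module F X] [FiniteDimensional F X]
    [AddCommGroup Y] [Module F Y] [FiniteDimensional F Y] (f : X →ₗ[F] Y) (U : Submodule F X)
    (Z : Submodule F Y) (h : U.map f ≤ Z) :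
    finrank F (LinearMap.range f) + finrank F U ≤ finrank F X + finrank F Z := by
  have h1 := finrank_map_sup f U Z
  have h2 := finrank_map_sup f ⊤ Z
  have h3 : U ⊓ Z.comap f = U := inf_eq_left.mpr (Submodule.map_le_iff_le_comap.mp h)
  rw [sup_eq_right.mpr h, h3] at h1
  rw [top_inf_eq, Submodule.map_top, finrank_top] at h2
  have h4 : finrank F (LinearMap.range f) ≤
      finrank F (LinearMap.range f ⊔ Z : Submodule F Y) := Submodule.finrank_mono le_sup_left
  have h5 : finrank F U ≤ finrank F (Z.comap f) := Submodule.finrank_mono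
    (Submodule.map_le_iff_le_comap.mp h)
  omega

end General

section NcR

variable {F : Type*} [Field F] {m n : ℕ}

theorem img_mulVecLin (B : Fin m → Matrix (Fin n) (Fin n) F) (U : Submodule F (Fin n → F)) :
    img (fun k => (B k).mulVecLin) U = ⨆ k, U.map (B k).mulVecLin := rfl

theorem nsh_iff (B : Fin m → Matrix (Fin n) (Fin n) F) :
    Nsh (fun k => (B k).mulVecLin) ↔ Nonshrunk B := Iff.rfl

/-- the upper bound -/
theorem rank_tens_le {J : Type*} [Fintype J] (T : Fin m → Matrix J J F)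
    (B : Fin m → Matrix (Fin n) (Fin n) F) :
    (tens T B).rank ≤ Fintype.card J * ncRank B := by
  obtain ⟨U, hU⟩ := Nat.sInf_mem (Set.range_nonempty fun U : Submodule F (Fin n → F) =>
    n + finrank F (⨆ k, U.map (B k).mulVecLin : Submodule F (Fin n → F)) - finrank F U)
  have hU' : n + finrank F (⨆ k, U.map (B k).mulVecLin : Submodule F (Fin n → F)) -
      finrank F U = ncRank B := hU
  have h0 : finrank F U ≤ n := by
    have := Submodule.finrank_le U
    rwa [Module.finrank_fin_fun] at this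
  have h1 := finrank_range_le (ev (fun k => (B k).mulVecLin) T) (pw J U)
    (pw J (img (fun k => (B k).mulVecLin) U)) (map_ev_le _ T U)
  rw [← rank_tens, finrank_pw, finrank_pw, Module.finrank_pi_fintype, Finset.sum_const,
    Finset.card_univ, smul_eq_mul, Module.finrank_fin_fun, img_mulVecLin] at h1
  rw [← hU']
  generalize finrank F (⨆ k, U.map (B k).mulVecLin : Submodule F (Fin n → F)) = z at *
  rw [Nat.mul_sub, Nat.mul_add]
  omega

theorem ncRank_le_self (B : Fin m → Matrix (Fin n) (Fin n) F) : ncRank B ≤ n := by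
  have h := ncRank_le B ⊥
  have h1 : (⨆ k, (⊥ : Submodule F (Fin n → F)).map (B k).mulVecLin) = ⊥ := by simp
  rw [h1, finrank_bot] at h
  omega

theorem nonshrunk_iff_ncRank (B : Fin m → Matrix (Fin n) (Fin n) F) :
    Nonshrunk B ↔ ncRank B = n := by
  constructor
  · intro h
    refine le_antisymm (ncRank_le_self B) ?_
    refine le_ciInf fun U => ?_
    have := h U
    omega
  · intro h U
    have h1 := ncRank_le B U
    rw [h] at h1
    have h0 : finrank F U ≤ n := by
      have := Submodule.finrank_le U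
      rwa [Module.finrank_fin_fun] at this
    omega

/-- a nonsingular `∑ Y_k ⊗ B_k` excludes shrunk subspaces -/
theorem nonshrunk_of_det {J : Type*} [Fintype J] [DecidableEq J] [Nonempty J]
    (Y : Fin m → Matrix J J F) (B : Fin m → Matrix (Fin n) (Fin n) F)
    (h : (tens Y B).det ≠ 0) : Nonshrunk B := by
  rw [nonshrunk_iff_ncRank]
  refine le_antisymm (ncRank_le_self B) ?_
  have h1 : (tens Y B).rank = Fintype.card (J × Fin n) :=
    Matrix.rank_of_isUnit _ ((Matrix.isUnit_iff_isUnit_det _).mpr (isUnit_iff_ne_zero.mpr h))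
  have h2 := rank_tens_le Y B
  rw [h1, Fintype.card_prod, Fintype.card_fin] at h2
  exact Nat.le_of_mul_le_mul_left h2 Fintype.card_pos

theorem tens_compress {J : Type*} [Fintype J] [DecidableEq J] {r : ℕ} (T : Fin m → Matrix J J F)
    (B : Fin m → Matrix (Fin n) (Fin n) F) (S : Matrix (Fin r) (Fin n) F)
    (R : Matrix (Fin n) (Fin r) F) :
    (tens T fun k => S * B k * R).rank ≤ (tens T B).rank := by
  have h1 : tens T (fun k => S * B k * R) =
      Matrix.kroneckerMap (· * ·) (1 : Matrix J J F) S * tens T B *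
        Matrix.kroneckerMap (· * ·) (1 : Matrix J J F) R := by
    rw [tens, tens, Matrix.mul_sum, Matrix.sum_mul]
    refine Finset.sum_congr rfl fun k _ => ?_
    rw [← Matrix.mul_kronecker_mul, ← Matrix.mul_kronecker_mul, Matrix.one_mul, Matrix.mul_one]
  rw [h1]
  exact (Matrix.rank_mul_le_left _ _).trans (Matrix.rank_mul_le_right _ _)

end NcR

section Transfer

theorem rank_map_fintype {K L : Type*} [Field K] [Field L] (φ : K →+* L) {ι : Type*} [Fintype ι]
    [DecidableEq ι] (M : Matrix ι ι K) : (M.map φ).rank = M.rank := by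
  rw [← Matrix.rank_submatrix (M.map φ) (Fintype.equivFin ι).symm (Fintype.equivFin ι).symm,
    ← Matrix.rank_submatrix M (Fintype.equivFin ι).symm (Fintype.equivFin ι).symm,
    Matrix.submatrix_map, Embed.rank_map_field]

theorem tens_map {R R' : Type*} [Field R] [Field R'] (φ : R →+* R') {n m : ℕ} {J : Type*}
    [Fintype J] (T : Fin m → Matrix J J ℤ) (B : Fin m → Matrix (Fin n) (Fin n) R) :
    tens (cst R' T) (fun k => (B k).map φ) = (tens (cst R T) B).map φ := by
  ext p q
  rw [tens_apply, Matrix.map_apply, tens_apply, map_sum]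
  refine Finset.sum_congr rfl fun k _ => ?_
  rw [map_mul, cst, cst, Matrix.map_apply, Matrix.map_apply, Matrix.map_apply, map_intCast]

/-- A nonshrunk family over a field of characteristic zero can be moved to the complex numbers. -/
theorem exists_complex_tens.{u} {F : Type u} [Field F] [CharZero F] {n m : ℕ}
    (B : Fin m → Matrix (Fin n) (Fin n) F) (hB : Nonshrunk B) :
    ∃ B' : Fin m → Matrix (Fin n) (Fin n) ℂ, Nonshrunk B' ∧
      ∀ (J : Type) [Fintype J] [DecidableEq J] (T : Fin m → Matrix J J ℤ),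
        (tens (cst ℂ T) B').rank = (tens (cst F T) B).rank := by
  classical
  set E : Set F := Set.range fun p : Fin m × Fin n × Fin n => B p.1 p.2.1 p.2.2 with hE
  have hEf : E.Finite := Set.finite_range _
  let F₀ : Subfield F := Subfield.closure E
  have hcard : #F₀ ≤ ℵ₀ := by
    refine (Subfield.cardinalMk_closure_le_max E).trans (max_le ?_ le_rfl)
    exact hEf.countable.le_aleph0
  obtain ⟨σ⟩ := Embed.exists_embed hcard
  have hBF : ∀ k i j, B k i j ∈ F₀ := fun k i j => Subfield.subset_closure ⟨(k, i, j), rfl⟩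
  let B₀ : Fin m → Matrix (Fin n) (Fin n) F₀ := fun k i j => ⟨B k i j, hBF k i j⟩
  have hBm : ∀ k, (B₀ k).map F₀.subtype = B k := fun k => rfl
  have hB₀ : Nonshrunk B₀ := Nonshrunk.descend F₀.subtype B₀ hB
  refine ⟨_, stBase' F₀ ℂ σ n m B₀ hB₀, fun J _ _ T => ?_⟩
  have h1 := tens_map σ T B₀
  have h2 : tens (cst F T) B = (tens (cst F₀ T) B₀).map F₀.subtype := tens_map F₀.subtype T B₀
  rw [h2, rank_map_fintype, ← rank_map_fintype σ, ← h1]

end Transfer

section Main

variable {K₁ K₂ : Type} [Field K₁] [Field K₂] [CharP K₁ 2] [CharP K₂ 2] [Fintype K₁]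
  {l₁ l₂ m : ℕ} {φ₁ : K₁ → Fin l₁ → ZMod 2} {φ₂ : K₂ → Fin l₂ → ZMod 2}
  {α : Fin m × (K₁ × (Fin l₁ → ZMod 2)) × (K₁ × (Fin l₁ → ZMod 2)) → K₂}

/-- the lower bound for families without shrunk subspace -/
theorem rank_tower_ns.{u} (hφ₁ : ∀ x y, φ₁ (x + y) = φ₁ x + φ₁ y)
    (hi₁ : Function.Injective φ₁) (hφ₂ : ∀ x y, φ₂ (x + y) = φ₂ x + φ₂ y)
    (hi₂ : Function.Injective φ₂) (hα : Function.Injective α) {n L : ℕ}
    (hL : 2 * 5 ^ L * n < 6 ^ L)
    (hK : 4 * (m + 1) * ((l₂ + l₂ + 1) * L) * n ^ 2 ≤ Fintype.card K₁)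
    {F : Type u} [Field F] [CharZero F] (B : Fin m → Matrix (Fin n) (Fin n) F)
    (hB : Nonshrunk B) :
    2 ^ ((l₂ + l₂ + 1) * L) * n <
      (tens (cst F (tower φ₁ φ₂ α L)) B).rank + 2 ^ ((l₂ + l₂ + 1) * L) := by
  obtain ⟨B', hB', h1⟩ := exists_complex_tens B hB
  rw [← h1 (Fin ((l₂ + l₂ + 1) * L) → ZMod 2) (tower φ₁ φ₂ α L)]
  have hKpos : (0 : ℝ) < Fintype.card K₁ := by exact_mod_cast Fintype.card_pos
  have h2 := bd_tower (V := Fin n → ℂ) (W := Fin n → ℂ) (lam := 1 / 2) hφ₁ hi₁ hφ₂ hi₂ hα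
    (fun k => (B' k).mulVecLin) hB' L (by norm_num) (by
      rw [Module.finrank_fin_fun]
      have h3 : ((4 * (m + 1) * ((l₂ + l₂ + 1) * L) * n ^ 2 : ℕ) : ℝ) ≤ Fintype.card K₁ := by
        exact_mod_cast hK
      push_cast at h3 ⊢
      rw [show ((m : ℝ) + 1) * (2 * (((l₂ : ℝ) + l₂ + 1) * L / Fintype.card K₁) * (n : ℝ) ^ 2) =
        (4 * (m + 1) * ((l₂ + l₂ + 1) * L) * n ^ 2) / (2 * Fintype.card K₁) by
          field_simp
          ring]
      rw [div_le_div_iff₀ (by positivity) (by norm_num)]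
      linarith)
  have h3 := rank_of_bd _ _ h2
  rw [← rank_tens, Module.finrank_fin_fun, Fintype.card_fun, ZMod.card, Fintype.card_fin] at h3
  have h4 : ((5 / 6 : ℝ) ^ L * n + 1 / 2) < 1 := by
    have h5 : ((2 * 5 ^ L * n : ℕ) : ℝ) < (6 ^ L : ℕ) := by exact_mod_cast hL
    push_cast at h5
    have h6 : (0 : ℝ) < 6 ^ L := by positivity
    rw [div_pow, div_mul_eq_mul_div]
    have h7 : (5 : ℝ) ^ L * n / 6 ^ L < 1 / 2 := by
      rw [div_lt_div_iff₀ h6 (by norm_num)]
      linarith
    linarith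
  have h5 : (0 : ℝ) < 2 ^ ((l₂ + l₂ + 1) * L) := by positivity
  have h6 := mul_lt_mul_of_pos_right h4 h5
  push_cast at h3
  have h7 : ((2 ^ ((l₂ + l₂ + 1) * L) * n : ℕ) : ℝ) <
      ((tens (cst ℂ (tower φ₁ φ₂ α L)) B').rank + 2 ^ ((l₂ + l₂ + 1) * L) : ℕ) := by
    push_cast
    linarith
  exact_mod_cast h7

/-- the rank of `∑ T_k ⊗ B_k` determines the noncommutative rank -/
theorem rank_tower.{u} (hφ₁ : ∀ x y, φ₁ (x + y) = φ₁ x + φ₁ y)
    (hi₁ : Function.Injective φ₁) (hφ₂ : ∀ x y, φ₂ (x + y) = φ₂ x + φ₂ y)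
    (hi₂ : Function.Injective φ₂) (hα : Function.Injective α) {n L : ℕ}
    (hL : 2 * 5 ^ L * n < 6 ^ L)
    (hK : 4 * (m + 1) * ((l₂ + l₂ + 1) * L) * n ^ 2 ≤ Fintype.card K₁)
    {F : Type u} [Field F] [CharZero F] (B : Fin m → Matrix (Fin n) (Fin n) F) :
    2 ^ ((l₂ + l₂ + 1) * L) * ncRank B <
      (tens (cst F (tower φ₁ φ₂ α L)) B).rank + 2 ^ ((l₂ + l₂ + 1) * L) ∧
    (tens (cst F (tower φ₁ φ₂ α L)) B).rank ≤ 2 ^ ((l₂ + l₂ + 1) * L) * ncRank B := by
  constructor
  · obtain ⟨U, r, S, T, hU, hns⟩ := exists_nonshrunk B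
    have hr : r ≤ n := by
      have h1 := hns ⊤
      rw [finrank_top, Module.finrank_fin_fun] at h1
      have h2 : (⨆ k, (⊤ : Submodule F (Fin r → F)).map ((fun k => S * B k * T) k).mulVecLin) ≤
          LinearMap.range S.mulVecLin := by
        refine iSup_le fun k => ?_
        show (⊤ : Submodule F (Fin r → F)).map (S * B k * T).mulVecLin ≤ _
        rw [Matrix.mul_assoc, Matrix.mulVecLin_mul, Submodule.map_comp]
        rintro _ ⟨x, -, rfl⟩
        exact ⟨x, rfl⟩
      have h3 := Submodule.finrank_mono h2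
      have h4 := LinearMap.finrank_range_le S.mulVecLin
      rw [Module.finrank_fin_fun] at h4
      exact h1.trans (h3.trans h4)
    have h1 := rank_tower_ns (n := r) hφ₁ hi₁ hφ₂ hi₂ hα
      (lt_of_le_of_lt (Nat.mul_le_mul_left _ hr) hL)
      (le_trans (Nat.mul_le_mul_left _ (Nat.pow_le_pow_left hr 2)) hK) _ hns
    have h2 := tens_compress (cst F (tower φ₁ φ₂ α L)) B S T
    have h3 := ncRank_le B U
    rw [imageSpace] at hU
    have h4 : ncRank B ≤ r := by omega
    have h5 := Nat.mul_le_mul_left (2 ^ ((l₂ + l₂ + 1) * L)) h4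
    omega
  · have h1 := rank_tens_le (cst F (tower φ₁ φ₂ α L)) B
    rwa [Fintype.card_fun, ZMod.card, Fintype.card_fin] at h1

end Main

end Pool.Agent.Lib.MP_64d474_lc.Nc
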