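import Mathlib
import Pool.Agent.Lib.MP_64d474_lc.Nc.Rank
import Pool.Agent.Lib.MP_64d474_lc.Nc.Hit

/-!
The data of the test, their existence, and the size of the entries.
-/

open Matrix Module

set_option linter.unusedSectionVars false

namespace Pool.Agent.Lib.MP_64d474_lc.Nc

open Pool.Agent.Lib.MP_64d474_lc.Op

theorem exists_coord (l : ℕ) (hl : l ≠ 0) : ∃ (K : Type) (_ : Field K) (_ : CharP K 2)
    (_ : Fintype K) (φ : K → Fin l → ZMod 2), (∀ x y, φ (x + y) = φ x + φ y) ∧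
      Function.Injective φ ∧ Fintype.card K = 2 ^ l := by
  classical
  have : Fact (Nat.Prime 2) := ⟨Nat.prime_two⟩
  have hcard : Nat.card (GaloisField 2 l) = 2 ^ l := GaloisField.card 2 l hl
  have : Fintype (GaloisField 2 l) := Fintype.ofFinite _
  have hcard' : Fintype.card (GaloisField 2 l) = 2 ^ l := by rw [← Nat.card_eq_fintype_card, hcard]
  let b := Module.finBasisOfFinrankEq (ZMod 2) (GaloisField 2 l) (GaloisField.finrank 2 hl)
  exact ⟨GaloisField 2 l, inferInstance, inferInstance, inferInstance, b.equivFun,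
    fun x y => map_add _ _ _, b.equivFun.injective, hcard'⟩

theorem exists_data (n m : ℕ) : ∃ (K₁ K₂ : Type) (_ : Field K₁) (_ : Field K₂) (_ : CharP K₁ 2)
    (_ : CharP K₂ 2) (_ : Fintype K₁) (l₁ l₂ L : ℕ) (φ₁ : K₁ → Fin l₁ → ZMod 2)
    (φ₂ : K₂ → Fin l₂ → ZMod 2)
    (α : Fin m × (K₁ × (Fin l₁ → ZMod 2)) × (K₁ × (Fin l₁ → ZMod 2)) → K₂),
    IsData φ₁ φ₂ α n L ∧ Fintype.card K₁ = 2 ^ l₁ ∧ l₁ = 4 * (Nat.log 2 n + Nat.log 2 m + 5) ∧
      (l₂ + l₂ + 1) * L ≤ 164 * (Nat.log 2 n + 2) * (Nat.log 2 n + Nat.log 2 m + 5) := by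
  classical
  obtain ⟨a, ha⟩ : ∃ a, a = Nat.log 2 n + 1 := ⟨_, rfl⟩
  obtain ⟨b, hb⟩ : ∃ b, b = Nat.log 2 m + 1 := ⟨_, rfl⟩
  obtain ⟨s, hs⟩ : ∃ s, s = a + b + 3 := ⟨_, rfl⟩
  have hn : n < 2 ^ a := by
    rw [ha]
    exact Nat.lt_pow_succ_log_self (by norm_num) n
  have hm : m + 1 ≤ 2 ^ b := by
    rw [hb]
    exact Nat.lt_pow_succ_log_self (by norm_num) m
  obtain ⟨K₁, i1, i2, i3, φ₁, h1, h2, h3⟩ := exists_coord (4 * s) (by omega)
  obtain ⟨K₂, j1, j2, j3, φ₂, h4, h5, h6⟩ := exists_coord (20 * s) (by omega)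
  obtain ⟨α⟩ : Nonempty ((Fin m × (K₁ × (Fin (4 * s) → ZMod 2)) ×
      (K₁ × (Fin (4 * s) → ZMod 2))) ↪ K₂) := by
    refine Function.Embedding.nonempty_of_card_le ?_
    rw [Fintype.card_prod, Fintype.card_prod, Fintype.card_prod, Fintype.card_fun, ZMod.card,
      Fintype.card_fin, Fintype.card_fin, h3, h6]
    calc m * (2 ^ (4 * s) * 2 ^ (4 * s) * (2 ^ (4 * s) * 2 ^ (4 * s)))
        ≤ 2 ^ b * (2 ^ (4 * s) * 2 ^ (4 * s) * (2 ^ (4 * s) * 2 ^ (4 * s))) :=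
          Nat.mul_le_mul_right _ (by omega)
      _ = 2 ^ (b + (4 * s + 4 * s + (4 * s + 4 * s))) := by rw [pow_add, pow_add, pow_add]
      _ ≤ 2 ^ (20 * s) := Nat.pow_le_pow_right (by norm_num) (by omega)
  refine ⟨K₁, K₂, i1, j1, i2, j2, i3, 4 * s, 20 * s, 4 * (a + 1), φ₁, φ₂, α,
    ⟨h1, h2, h4, h5, α.injective, ?_, ?_⟩, h3, by omega, ?_⟩
  · rw [h3]
    have e1 : 20 * s + 20 * s + 1 ≤ 2 ^ (6 + s) := by
      have : s < 2 ^ s := Nat.lt_two_pow_self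
      rw [pow_add]
      omega
    have e2 : a + 1 ≤ 2 ^ a := Nat.lt_two_pow_self
    calc 4 * (m + 1) * ((20 * s + 20 * s + 1) * (4 * (a + 1))) * n ^ 2
        ≤ 4 * 2 ^ b * (2 ^ (6 + s) * (4 * 2 ^ a)) * (2 ^ a) ^ 2 := by gcongr
      _ = 2 ^ (2 + b + (6 + s + (2 + a)) + (a + a)) := by
          rw [pow_add, pow_add, pow_add, pow_add, pow_add, pow_add, pow_add]
          ring
      _ ≤ 2 ^ (4 * s) := Nat.pow_le_pow_right (by norm_num) (by omega)
  · have e1 : (2 * 5 ^ 4) ^ (a + 1) ≤ (6 ^ 4) ^ (a + 1) :=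
      Nat.pow_le_pow_left (by norm_num) _
    rw [mul_pow, ← pow_mul, ← pow_mul, pow_succ] at e1
    have e2 : 0 < 5 ^ (4 * (a + 1)) := by positivity
    calc 2 * 5 ^ (4 * (a + 1)) * n < 2 * 5 ^ (4 * (a + 1)) * 2 ^ a := by
          exact Nat.mul_lt_mul_of_pos_left hn (by positivity)
      _ = 2 ^ a * 2 * 5 ^ (4 * (a + 1)) := by ring
      _ ≤ _ := e1
  · have e1 : Nat.log 2 n + 2 = a + 1 := by omega
    have e2 : Nat.log 2 n + Nat.log 2 m + 5 = s := by omega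
    rw [e1, e2]
    calc (20 * s + 20 * s + 1) * (4 * (a + 1)) ≤ (41 * s) * (4 * (a + 1)) := by
          refine Nat.mul_le_mul_right _ ?_
          omega
      _ = 164 * (a + 1) * s := by ring

/-- the size of the entries -/
theorem tower_abs_le {K₁ K₂ : Type} [Field K₁] [Field K₂] [Fintype K₁] {l₁ l₂ m : ℕ}
    (φ₁ : K₁ → Fin l₁ → ZMod 2) (φ₂ : K₂ → Fin l₂ → ZMod 2)
    (α : Fin m × (K₁ × (Fin l₁ → ZMod 2)) × (K₁ × (Fin l₁ → ZMod 2)) → K₂) (L : ℕ) (k : Fin m)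
    (x y : Fin ((l₂ + l₂ + 1) * L) → ZMod 2) :
    |tower φ₁ φ₂ α L k x y| ≤ (Fintype.card K₁ * 2 ^ l₁) ^ 2 := by
  induction L with
  | zero =>
    rw [tower, Pi.zero_apply, Matrix.zero_apply, abs_zero]
    positivity
  | succ L ih =>
    show |dbl _ _ k (dec x) (dec y)| ≤ _
    rw [dbl]
    have h1 : ∀ (ω : (Fin l₂ → ZMod 2) × (Fin l₂ → ZMod 2)) (x y : Fin ((l₂ + l₂ + 1) * L) → ZMod 2),
        |iprt (bvec φ₁ ((l₂ + l₂ + 1) * L)) (svec φ₂ α) ω k x y| ≤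
          (Fintype.card K₁ * 2 ^ l₁) ^ 2 := by
      intro ω x y
      rw [iprt, Matrix.sum_apply]
      have h2 : ∀ s s' : K₁ × (Fin l₁ → ZMod 2), |(svec φ₂ α ω (k, s, s') •
          wop (bvec φ₁ ((l₂ + l₂ + 1) * L) s) (bvec φ₁ ((l₂ + l₂ + 1) * L) s')) x y| ≤ 1 := by
        intro s s'
        rw [Matrix.smul_apply, smul_eq_mul, abs_mul, svec, sgn_abs, one_mul, wop]
        split_ifs
        · exact (sgn_abs _).le
        · rw [abs_zero]
          exact zero_le_one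
      calc |∑ s, (∑ s', svec φ₂ α ω (k, s, s') • wop (bvec φ₁ ((l₂ + l₂ + 1) * L) s)
              (bvec φ₁ ((l₂ + l₂ + 1) * L) s')) x y|
          ≤ ∑ s, |(∑ s', svec φ₂ α ω (k, s, s') • wop (bvec φ₁ ((l₂ + l₂ + 1) * L) s)
              (bvec φ₁ ((l₂ + l₂ + 1) * L) s')) x y| := Finset.abs_sum_le_sum_abs _ _
        _ ≤ ∑ s : K₁ × (Fin l₁ → ZMod 2), ∑ s' : K₁ × (Fin l₁ → ZMod 2), (1 : ℤ) := by
            refine Finset.sum_le_sum fun s _ => ?_
            rw [Matrix.sum_apply]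
            exact (Finset.abs_sum_le_sum_abs _ _).trans (Finset.sum_le_sum fun s' _ => h2 s s')
        _ = (Fintype.card K₁ * 2 ^ l₁) ^ 2 := by
            simp only [Finset.sum_const, Finset.card_univ, smul_eq_mul, Fintype.card_prod,
              Fintype.card_fun, ZMod.card, Fintype.card_fin, nsmul_eq_mul, mul_one]
            push_cast
            ring
    split_ifs
    · exact ih _ _
    · exact h1 _ _ _
    · rw [abs_zero]
      positivity
    · rw [abs_zero]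
      positivity

end Pool.Agent.Lib.MP_64d474_lc.Nc
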