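import Mathlib
import Pool.Agent.Lib.MP_64d474_lc.Nc.Data

/-!
The explicit test for the noncommutative rank: assembly.
-/

open Matrix Module

set_option linter.unusedSectionVars false

namespace Pool.Agent.Lib.MP_64d474_lc.Nc

open Pool.Agent.Lib.MP_64d474_lc.Op

theorem tens_one {F : Type*} [Field F] {n m : ℕ} (x : Fin m → F)
    (B : Fin m → Matrix (Fin n) (Fin n) F) (h : (∑ k, x k • B k).det ≠ 0) :
    (tens (fun k => x k • (1 : Matrix (Fin 1) (Fin 1) F)) B).det ≠ 0 := by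
  have e : tens (fun k => x k • (1 : Matrix (Fin 1) (Fin 1) F)) B =
      (∑ k, x k • B k).submatrix Prod.snd Prod.snd := by
    ext ⟨i, a⟩ ⟨j, b⟩
    have hij : i = j := Subsingleton.elim _ _
    subst hij
    rw [tens_apply, Matrix.submatrix_apply, Matrix.sum_apply]
    refine Finset.sum_congr rfl fun k _ => ?_
    rw [Matrix.smul_apply, Matrix.one_apply_eq, Matrix.smul_apply, smul_eq_mul, smul_eq_mul,
      mul_one]
  have e2 : (∑ k, x k • B k).submatrix (Prod.snd : Fin 1 × Fin n → Fin n) Prod.snd =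
      (∑ k, x k • B k).submatrix (Equiv.uniqueProd (Fin n) (Fin 1))
        (Equiv.uniqueProd (Fin n) (Fin 1)) := rfl
  rw [e, e2, Matrix.det_submatrix_equiv_self]
  exact h

theorem tens_reindex {F : Type*} [Field F] {n m : ℕ} {J J' : Type*} [Fintype J] [Fintype J']
    [DecidableEq J] [DecidableEq J'] (e : J' ≃ J) (Y : Fin m → Matrix J J F)
    (B : Fin m → Matrix (Fin n) (Fin n) F) :
    (tens (fun k => (Y k).submatrix e e) B).det = (tens Y B).det := by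
  have h1 : tens (fun k => (Y k).submatrix e e) B =
      (tens Y B).submatrix (e.prodCongr (Equiv.refl (Fin n))) (e.prodCongr (Equiv.refl (Fin n))) := by
    ext p q
    rw [tens_apply, Matrix.submatrix_apply, tens_apply]
    rfl
  rw [h1, Matrix.det_submatrix_equiv_self]

variable {K₁ K₂ : Type} [Field K₁] [Field K₂] [CharP K₁ 2] [CharP K₂ 2] [Fintype K₁]
  {l₁ l₂ m : ℕ} {φ₁ : K₁ → Fin l₁ → ZMod 2} {φ₂ : K₂ → Fin l₂ → ZMod 2}
  {α : Fin m × (K₁ × (Fin l₁ → ZMod 2)) × (K₁ × (Fin l₁ → ZMod 2)) → K₂}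

/-- the equivalences -/
theorem tfae.{u} {n L : ℕ} (h : IsData φ₁ φ₂ α n L) {F : Type u} [Field F] [CharZero F]
    (B : Fin m → Matrix (Fin n) (Fin n) F) :
    List.TFAE [
      ∀ U : Submodule F (Fin n → F),
        finrank F U ≤ finrank F (⨆ k, U.map (B k).mulVecLin : Submodule F (Fin n → F)),
      ∃ D : ℕ, 0 < D ∧ ∃ Y : Fin m → Matrix (Fin D) (Fin D) F, (tens Y B).det ≠ 0,
      2 ^ ((l₂ + l₂ + 1) * L) * n <
        (tens (cst F (tower φ₁ φ₂ α L)) B).rank + 2 ^ ((l₂ + l₂ + 1) * L),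
      ∃ c e : Fin ((l₂ + l₂ + 1) * L) → ℕ, (∀ i, c i ≤ n * 2 ^ ((l₂ + l₂ + 1) * L)) ∧
        (∀ i, e i ≤ n * 2 ^ ((l₂ + l₂ + 1) * L)) ∧
        (tens (cst F fun k => twist (fun i => (c i : ℤ)) (fun i => (e i : ℤ))
          (tower φ₁ φ₂ α L k)) B).det ≠ 0] := by
  classical
  tfae_have 1 → 3 := fun hB =>
    rank_tower_ns h.add₁ h.inj₁ h.add₂ h.inj₂ h.inj h.steps h.card_ge B hB
  tfae_have 3 → 4 := by
    intro h3
    by_cases hn : n = 0
    · subst hn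
      refine ⟨fun _ => 0, fun _ => 0, fun _ => Nat.zero_le _, fun _ => Nat.zero_le _, ?_⟩
      rw [Matrix.det_isEmpty]
      exact one_ne_zero
    have h4 : (n - 1) * 2 ^ ((l₂ + l₂ + 1) * L) <
        (tens (cst F (tower φ₁ φ₂ α L)) B).rank := by
      have h5 : 2 ^ ((l₂ + l₂ + 1) * L) * n =
          (n - 1) * 2 ^ ((l₂ + l₂ + 1) * L) + 2 ^ ((l₂ + l₂ + 1) * L) := by
        obtain ⟨n', hn'⟩ := Nat.exists_eq_succ_of_ne_zero hn
        rw [hn', Nat.succ_sub_one, Nat.succ_eq_add_one]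
        ring
      omega
    exact hit (tower φ₁ φ₂ α L) B h4
  tfae_have 4 → 2 := by
    rintro ⟨c, e, -, -, hdet⟩
    let E := (Fintype.equivFin (Fin ((l₂ + l₂ + 1) * L) → ZMod 2)).symm
    refine ⟨_, Fintype.card_pos, fun k => (cst F (fun k => twist (fun i => (c i : ℤ))
      (fun i => (e i : ℤ)) (tower φ₁ φ₂ α L k)) k).submatrix E E, ?_⟩
    rw [tens_reindex]
    exact hdet
  tfae_have 2 → 1 := by
    rintro ⟨D, hD, Y, hY⟩
    have : Nonempty (Fin D) := ⟨⟨0, hD⟩⟩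
    exact nonshrunk_of_det Y B hY
  tfae_finish

/-- the bounds of the second part -/
theorem exists_data' (n m : ℕ) : ∃ (K₁ K₂ : Type) (_ : Field K₁) (_ : Field K₂) (_ : CharP K₁ 2)
    (_ : CharP K₂ 2) (_ : Fintype K₁) (l₁ l₂ L : ℕ) (φ₁ : K₁ → Fin l₁ → ZMod 2)
    (φ₂ : K₂ → Fin l₂ → ZMod 2)
    (α : Fin m × (K₁ × (Fin l₁ → ZMod 2)) × (K₁ × (Fin l₁ → ZMod 2)) → K₂),
    IsData φ₁ φ₂ α n L ∧
      (l₂ + l₂ + 1) * L ≤ 164 * (Nat.log 2 n + 2) * (Nat.log 2 n + Nat.log 2 m + 5) ∧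
      ∀ k x y, |tower φ₁ φ₂ α L k x y| ≤ 2 ^ (16 * (Nat.log 2 n + Nat.log 2 m + 5)) := by
  obtain ⟨K₁, K₂, i1, i2, i3, i4, i5, l₁, l₂, L, φ₁, φ₂, α, h1, h2, h3, h4⟩ := exists_data n m
  refine ⟨K₁, K₂, i1, i2, i3, i4, i5, l₁, l₂, L, φ₁, φ₂, α, h1, h4, fun k x y => ?_⟩
  refine (tower_abs_le φ₁ φ₂ α L k x y).trans (le_of_eq ?_)
  rw [h2]
  push_cast
  rw [← pow_add, ← pow_mul, h3]
  congr 1
  ring

namespace Data

variable {n m : ℕ} (X : Data n m)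

theorem card_twists : X.twists.card ≤ (n * 2 ^ X.t + 1) ^ (2 * X.t) := by
  refine Finset.card_image_le.trans (le_of_eq ?_)
  rw [Finset.card_univ, Fintype.card_prod, Fintype.card_fun, Fintype.card_fin, Fintype.card_fin,
    ← pow_add]
  congr 1
  ring

end Data

theorem Nonsing.nc {F : Type*} [Field F] {n m : ℕ} {B : Fin m → Matrix (Fin n) (Fin n) F}
    (h : Nonsing B) : NcNonsing B := by
  obtain ⟨x, hx⟩ := h
  exact ⟨1, one_pos, _, tens_one x B hx⟩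

theorem main.{u} {n m : ℕ} (X : Data n m) {F : Type u} [Field F] [CharZero F]
    (B : Fin m → Matrix (Fin n) (Fin n) F) (d R : ℕ) (hd : d = 2 ^ X.t)
    (hR : R = (tens (cst F X.T) B).rank) :
    (R ≤ d * ncRank B ∧ d * ncRank B < R + d) ∧
    (Nonsing B ∨ ¬ Nonshrunk B → (Nonsing B ↔ d * n < R + d)) ∧
    List.TFAE [Nonshrunk B, NcNonsing B, d * n < R + d,
      ∃ Y ∈ X.twists, (tens (cst F Y) B).det ≠ 0] := by
  subst hd hR
  have h := X.isData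
  have h1 := rank_tower h.add₁ h.inj₁ h.add₂ h.inj₂ h.inj h.steps h.card_ge B
  have h2 := tfae h B
  have e1 : Nonshrunk B ↔ 2 ^ X.t * n < (tens (cst F X.T) B).rank + 2 ^ X.t := h2.out 0 2
  have e2 : NcNonsing B ↔ 2 ^ X.t * n < (tens (cst F X.T) B).rank + 2 ^ X.t := h2.out 1 2
  have e3 : (∃ c e : Fin X.t → ℕ, (∀ i, c i ≤ n * 2 ^ X.t) ∧ (∀ i, e i ≤ n * 2 ^ X.t) ∧
        (tens (cst F fun k => twist (fun i => (c i : ℤ)) (fun i => (e i : ℤ))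
          (X.T k)) B).det ≠ 0) ↔ 2 ^ X.t * n < (tens (cst F X.T) B).rank + 2 ^ X.t := h2.out 3 2
  have e4 : (∃ c e : Fin X.t → ℕ, (∀ i, c i ≤ n * 2 ^ X.t) ∧ (∀ i, e i ≤ n * 2 ^ X.t) ∧
        (tens (cst F fun k => twist (fun i => (c i : ℤ)) (fun i => (e i : ℤ))
          (X.T k)) B).det ≠ 0) ↔ ∃ Y ∈ X.twists, (tens (cst F Y) B).det ≠ 0 := by
    constructor
    · rintro ⟨c, e, hc, he, hdet⟩
      exact ⟨_, Finset.mem_image.mpr ⟨(fun i => ⟨c i, Nat.lt_succ_of_le (hc i)⟩,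
        fun i => ⟨e i, Nat.lt_succ_of_le (he i)⟩), Finset.mem_univ _, rfl⟩, hdet⟩
    · rintro ⟨Y, hY, hdet⟩
      obtain ⟨p, -, rfl⟩ := Finset.mem_image.mp hY
      exact ⟨fun i => p.1 i, fun i => p.2 i, fun i => Nat.le_of_lt_succ (p.1 i).2,
        fun i => Nat.le_of_lt_succ (p.2 i).2, hdet⟩
  refine ⟨⟨h1.2, h1.1⟩, fun h4 => ⟨fun h5 => e2.mp h5.nc, fun h5 => ?_⟩, ?_⟩
  · rcases h4 with h4 | h4
    · exact h4
    · exact absurd (e1.mpr h5) h4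
  · tfae_have 1 ↔ 3 := e1
    tfae_have 2 ↔ 3 := e2
    tfae_have 4 ↔ 3 := e4.symm.trans e3
    tfae_finish

theorem exists_small (n m : ℕ) : ∃ X : Data n m,
    X.t ≤ 164 * (Nat.log 2 n + 2) * (Nat.log 2 n + Nat.log 2 m + 5) ∧
      ∀ k x y, |X.T k x y| ≤ 2 ^ (16 * (Nat.log 2 n + Nat.log 2 m + 5)) := by
  obtain ⟨K₁, K₂, i1, i2, i3, i4, i5, l₁, l₂, L, φ₁, φ₂, α, h1, h2, h3⟩ := exists_data' n m
  exact ⟨⟨K₁, K₂, l₁, l₂, L, φ₁, φ₂, α, h1⟩, h2, h3⟩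

end Pool.Agent.Lib.MP_64d474_lc.Nc
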